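import Pool.Agent.DBA.Targets

/-!
# DBA: the coefficients of `Dp N s * Mp Y s`
-/

set_option autoImplicit false

namespace Pool.Agent.DBA

open Complex MeasureTheory Set Filter

namespace BCO_

theorem two_pow_ge (k : ℕ) : ((k + 1 : ℕ) : ℝ) ≤ 2 ^ k := by
  have h : k + 1 ≤ 2 ^ k := Nat.lt_two_pow_self
  exact_mod_cast h

theorem small (ε : ℝ) (hε : 0 < ε) : ∃ K : ℝ, 1 ≤ K ∧ ∀ k : ℕ,
    ((k + 1 : ℕ) : ℝ) ≤ K * ((2 : ℝ) ^ k) ^ ε := by
  have hl : 0 < Real.log 2 := Real.log_pos one_lt_two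
  refine ⟨max 1 (1 / (ε * Real.log 2)), le_max_left _ _, fun k => ?_⟩
  set K := max 1 (1 / (ε * Real.log 2)) with hK
  have h1 : ((2 : ℝ) ^ k) ^ ε = Real.exp (k * (ε * Real.log 2)) := by
    rw [Real.rpow_def_of_pos (by positivity), Real.log_pow]
    congr 1
    ring
  have h2 : (k : ℝ) * (ε * Real.log 2) + 1 ≤ Real.exp (k * (ε * Real.log 2)) :=
    Real.add_one_le_exp _
  have h3 : 1 ≤ K := le_max_left _ _
  have h4 : 1 ≤ K * (ε * Real.log 2) := by
    have h5 : 1 / (ε * Real.log 2) ≤ K := le_max_right _ _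
    rwa [div_le_iff₀ (by positivity)] at h5
  rw [h1]
  have h5 : K * ((k : ℝ) * (ε * Real.log 2) + 1) ≤ K * Real.exp (k * (ε * Real.log 2)) :=
    mul_le_mul_of_nonneg_left h2 (by linarith)
  have h6 : (k : ℝ) ≤ k * (K * (ε * Real.log 2)) := by
    have hk : (0 : ℝ) ≤ k := Nat.cast_nonneg k
    nlinarith
  push_cast
  nlinarith

theorem tau (ε : ℝ) (hε : 0 < ε) : ∃ C : ℝ, 0 < C ∧ ∀ n : ℕ, 1 ≤ n →
    (n.divisors.card : ℝ) ≤ C * (n : ℝ) ^ ε := by
  classical
  obtain ⟨K, hK1, hK⟩ := small ε hε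
  obtain ⟨N, hN⟩ := exists_nat_ge ((2 : ℝ) ^ (1 / ε))
  refine ⟨K ^ N, by positivity, fun n hn => ?_⟩
  have hn0 : n ≠ 0 := by omega
  have key : ∀ p ∈ n.primeFactors, ((n.factorization p + 1 : ℕ) : ℝ) ≤
      (if p < N then K else 1) * ((p : ℝ) ^ (n.factorization p)) ^ ε := by
    intro p hp
    have hp2 : 2 ≤ p := (Nat.prime_of_mem_primeFactors hp).two_le
    have hp2' : (2 : ℝ) ≤ p := by exact_mod_cast hp2
    set k := n.factorization p
    by_cases h : p < N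
    · rw [if_pos h]
      refine (hK k).trans ?_
      gcongr
    · rw [if_neg h, one_mul]
      push Not at h
      have h1 : (2 : ℝ) ^ (1 / ε) ≤ p := hN.trans (by exact_mod_cast h)
      have h2 : (2 : ℝ) ≤ (p : ℝ) ^ ε := by
        calc (2 : ℝ) = ((2 : ℝ) ^ (1 / ε)) ^ ε := by
              rw [← Real.rpow_mul (by norm_num), one_div, inv_mul_cancel₀ hε.ne', Real.rpow_one]
          _ ≤ _ := Real.rpow_le_rpow (by positivity) h1 hε.le
      calc ((k + 1 : ℕ) : ℝ) ≤ 2 ^ k := two_pow_ge k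
        _ ≤ ((p : ℝ) ^ ε) ^ k := pow_le_pow_left₀ (by norm_num) h2 k
        _ = _ := by
            rw [← Real.rpow_natCast, ← Real.rpow_mul (by positivity), ← Real.rpow_natCast,
              ← Real.rpow_mul (by positivity), mul_comm]
  have hcard : (n.divisors.card : ℝ) =
      ∏ p ∈ n.primeFactors, ((n.factorization p + 1 : ℕ) : ℝ) := by
    rw [Nat.card_divisors hn0]
    push_cast
    rfl
  have hprod : ∏ p ∈ n.primeFactors, ((p : ℝ) ^ (n.factorization p)) ^ ε = (n : ℝ) ^ ε := by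
    rw [Real.finsetProd_rpow _ _ (fun p _ => by positivity)]
    congr 1
    have h := Nat.prod_factorization_pow_eq_self hn0
    have h' : ((∏ p ∈ n.primeFactors, p ^ n.factorization p : ℕ) : ℝ) = n := by
      exact_mod_cast congrArg (Nat.cast (R := ℝ)) h
    rw [← h']
    push_cast
    rfl
  have hK' : ∏ p ∈ n.primeFactors, (if p < N then K else 1) ≤ K ^ N := by
    rw [← Finset.prod_filter, Finset.prod_const]
    refine pow_le_pow_right₀ hK1 ?_
    calc (n.primeFactors.filter (fun p => p < N)).card ≤ (Finset.range N).card := by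
          refine Finset.card_le_card ?_
          intro p hp
          exact Finset.mem_range.2 (Finset.mem_filter.1 hp).2
      _ = N := Finset.card_range N
  rw [hcard]
  calc ∏ p ∈ n.primeFactors, ((n.factorization p + 1 : ℕ) : ℝ)
      ≤ ∏ p ∈ n.primeFactors, ((if p < N then K else 1) * ((p : ℝ) ^ (n.factorization p)) ^ ε) :=
        Finset.prod_le_prod (fun p _ => by positivity) key
    _ = (∏ p ∈ n.primeFactors, (if p < N then K else 1)) * (n : ℝ) ^ ε := by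
        rw [Finset.prod_mul_distrib, hprod]
    _ ≤ K ^ N * (n : ℝ) ^ ε := mul_le_mul_of_nonneg_right hK' (by positivity)

theorem prod (N Y : ℕ) (s : ℂ) : Dp N s * Mp Y s =
    ∑ n ∈ Finset.Icc 1 (N * Y), ((bc N Y n : ℤ) : ℂ) * (n : ℂ) ^ (-s) := by
  have h1 : ∀ n : ℕ, ((bc N Y n : ℤ) : ℂ) * (n : ℂ) ^ (-s) =
      ∑ k ∈ n.divisors.filter (fun k => k ≤ Y ∧ n / k ≤ N),
        ((ArithmeticFunction.moebius k : ℤ) : ℂ) * (n : ℂ) ^ (-s) := by
    intro n
    rw [bc, Int.cast_sum, Finset.sum_mul]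
  simp only [h1]
  rw [Finset.sum_sigma', Dp, Mp, Finset.sum_mul_sum, ← Finset.sum_product']
  refine Finset.sum_bij' (fun p _ => ⟨p.1 * p.2, p.2⟩) (fun q _ => (q.1 / q.2, q.2))
    ?_ ?_ ?_ ?_ ?_
  · rintro ⟨m, k⟩ h
    simp only [Finset.mem_product, Finset.mem_Icc] at h
    obtain ⟨⟨hm1, hm2⟩, hk1, hk2⟩ := h
    simp only [Finset.mem_sigma, Finset.mem_Icc, Finset.mem_filter, Nat.mem_divisors]
    refine ⟨⟨Nat.mul_pos hm1 hk1, Nat.mul_le_mul hm2 hk2⟩,
      ⟨Dvd.intro_left m rfl, (Nat.mul_pos hm1 hk1).ne'⟩, hk2, ?_⟩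
    rw [Nat.mul_div_cancel _ hk1]
    exact hm2
  · rintro ⟨n, k⟩ h
    simp only [Finset.mem_sigma, Finset.mem_Icc, Finset.mem_filter, Nat.mem_divisors] at h
    obtain ⟨⟨hn1, hn2⟩, ⟨hd, hn0⟩, hk, hq⟩ := h
    simp only [Finset.mem_product, Finset.mem_Icc]
    have hk0 : 0 < k := Nat.pos_of_dvd_of_pos hd hn1
    exact ⟨⟨Nat.div_pos (Nat.le_of_dvd hn1 hd) hk0, hq⟩, hk0, hk⟩
  · rintro ⟨m, k⟩ h
    simp only [Finset.mem_product, Finset.mem_Icc] at h
    simp only [Nat.mul_div_cancel _ h.2.1]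
  · rintro ⟨n, k⟩ h
    simp only [Finset.mem_sigma, Finset.mem_Icc, Finset.mem_filter, Nat.mem_divisors] at h
    simp only [Nat.div_mul_cancel h.2.1.1]
  · rintro ⟨m, k⟩ h
    simp only [Nat.cast_mul]
    rw [natCast_mul_natCast_cpow]
    ring

theorem one (N Y : ℕ) (hN : 1 ≤ N) (hY : 1 ≤ Y) : bc N Y 1 = 1 := by
  rw [bc, Nat.divisors_one]
  rw [Finset.filter_true_of_mem, Finset.sum_singleton]
  · simp
  · intro k hk
    rw [Finset.mem_singleton] at hk
    subst hk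
    simpa using ⟨hY, hN⟩

theorem zero (N Y n : ℕ) (h2 : 2 ≤ n) (hN : n ≤ N) (hY : n ≤ Y) : bc N Y n = 0 := by
  rw [bc, Finset.filter_true_of_mem]
  · have h := congrArg (fun f => f n) ArithmeticFunction.coe_zeta_mul_moebius
    simp only [ArithmeticFunction.coe_zeta_mul_apply] at h
    rw [h, ArithmeticFunction.one_apply_ne (by omega)]
  · intro k hk
    rw [Nat.mem_divisors] at hk
    exact ⟨(Nat.le_of_dvd (by omega) hk.1).trans hY, (Nat.div_le_self _ _).trans hN⟩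

theorem card (N Y n : ℕ) : |(bc N Y n : ℝ)| ≤ n.divisors.card := by
  have h1 : |bc N Y n| ≤ (n.divisors.card : ℤ) := by
    rw [bc]
    refine (Finset.abs_sum_le_sum_abs _ _).trans ?_
    refine (Finset.sum_le_sum fun k _ => ArithmeticFunction.abs_moebius_le_one).trans ?_
    rw [Finset.sum_const, nsmul_eq_mul, mul_one]
    exact_mod_cast Finset.card_filter_le _ _
  have h2 : ((|bc N Y n| : ℤ) : ℝ) ≤ ((n.divisors.card : ℤ) : ℝ) := by exact_mod_cast h1
  simpa using h2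
end BCO_

theorem p_BCO : T_BCO := by
  refine ⟨BCO_.prod, BCO_.one, BCO_.zero, fun ε hε => ?_⟩
  obtain ⟨C, hC, h⟩ := BCO_.tau ε hε
  exact ⟨C, hC, fun N Y n hn => (BCO_.card N Y n).trans (h n hn)⟩

end Pool.Agent.DBA
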