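import Pool.Agent.DBA.Targets

set_option autoImplicit false

/-!
# DBA, target DSC (helper57): mean value inequality over a square

The lemmas `circ` and `mvp` are those of helper66 in `Pool/Agent/CorE/P_CHO.lean`.
-/

namespace Pool.Agent.DBA

open Complex MeasureTheory Set Filter

namespace DSC_

open Metric
open scoped Real ENNReal

/-- the integral over a circle -/
theorem circ {g : ℂ → ℂ} {t : ℂ} {r x : ℝ} (hg : DifferentiableOn ℂ g (closedBall t r))
    (hx : 0 < x) (hxr : x < r) :
    ENNReal.ofReal (2 * π) * ‖g t‖ₑ ≤ ∫⁻ y in Ioo (-π) π, ‖g (circleMap t x y)‖ₑ := by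
  have hd : DiffContOnCl ℂ g (ball t |x|) := by
    refine DifferentiableOn.diffContOnCl (hg.mono ?_)
    rw [abs_of_pos hx]
    exact closure_ball_subset_closedBall.trans (closedBall_subset_closedBall hxr.le)
  have h1 := hd.circleAverage
  rw [Real.circleAverage_def] at h1
  have hper : Function.Periodic (fun y => g (circleMap t x y)) (2 * π) := fun y => by
    simp only [periodic_circleMap t x y]
  have h2 : ∫ y in (-π)..π, g (circleMap t x y) = (2 * π : ℝ) • g t := by
    have h3 := hper.intervalIntegral_add_eq (-π) 0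
    rw [show -π + 2 * π = π from by ring, zero_add] at h3
    rw [h3, ← h1, smul_smul, mul_inv_cancel₀ (by positivity), one_smul]
  have h4 : ‖(2 * π : ℝ) • g t‖ₑ = ENNReal.ofReal (2 * π) * ‖g t‖ₑ := by
    rw [enorm_smul, Real.enorm_eq_ofReal (by positivity)]
  rw [← h4, ← h2, intervalIntegral.integral_of_le (by linarith [Real.pi_pos]),
    integral_Ioc_eq_integral_Ioo]
  exact enorm_integral_le_lintegral_enorm _

/-- mean value inequality over a disc -/
theorem mvp {g : ℂ → ℂ} {t : ℂ} {r : ℝ} (hr : 0 < r) (hg : DifferentiableOn ℂ g (closedBall t r)) :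
    ENNReal.ofReal (π * r ^ 2 / 2) * ‖g t‖ₑ ≤ ∫⁻ z in ball t r, ‖g z‖ₑ := by
  set Φ : ℂ → ℝ≥0∞ := (ball t r).indicator (fun z => ‖g z‖ₑ) with hΦ
  have hm : Measurable Φ := by
    classical
    rw [hΦ, ← Set.piecewise_eq_indicator]
    refine ContinuousOn.measurable_piecewise ?_ continuousOn_const measurableSet_ball
    exact (hg.continuousOn.mono ball_subset_closedBall).enorm
  have h1 : ∫⁻ z in ball t r, ‖g z‖ₑ = ∫⁻ z, Φ (t + z) := by
    rw [lintegral_add_left_eq_self Φ t, hΦ, lintegral_indicator measurableSet_ball]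
  have h2 : ∫⁻ z, Φ (t + z) = ∫⁻ p in Ioi (0 : ℝ) ×ˢ Ioo (-π) π,
      ENNReal.ofReal p.1 * Φ (circleMap t p.1 p.2) := by
    rw [← Complex.lintegral_comp_polarCoord_symm]
    refine lintegral_congr (fun p => ?_)
    have e : t + ((p.1 : ℂ) * ((Real.cos p.2 : ℂ) + (Real.sin p.2 : ℂ) * I)) =
        circleMap t p.1 p.2 := by
      rw [circleMap, Complex.exp_mul_I]
      push_cast
      ring
    rw [Complex.polarCoord_symm_apply, smul_eq_mul, e]
  have hm2 : Measurable (fun p : ℝ × ℝ => ENNReal.ofReal p.1 * Φ (circleMap t p.1 p.2)) := by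
    refine (measurable_fst.ennreal_ofReal).mul (hm.comp ?_)
    have : Continuous (fun p : ℝ × ℝ => circleMap t p.1 p.2) := by
      unfold circleMap
      fun_prop
    exact this.measurable
  rw [h1, h2, Measure.volume_eq_prod, setLIntegral_prod _ hm2.aemeasurable]
  have hsub : Ioo (r / 2) r ⊆ Ioi (0 : ℝ) := fun x hx => lt_trans (by linarith) hx.1
  calc ENNReal.ofReal (π * r ^ 2 / 2) * ‖g t‖ₑ
      = ∫⁻ _x in Ioo (r / 2) r, ENNReal.ofReal (r / 2) * (ENNReal.ofReal (2 * π) * ‖g t‖ₑ) := by
        have e1 : ENNReal.ofReal (π * r ^ 2 / 2) =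
            ENNReal.ofReal (r / 2) * ENNReal.ofReal (2 * π) * ENNReal.ofReal (r - r / 2) := by
          rw [← ENNReal.ofReal_mul (by positivity), ← ENNReal.ofReal_mul (by positivity)]
          congr 1
          ring
        rw [setLIntegral_const, Real.volume_Ioo, e1]
        ring
    _ ≤ ∫⁻ x in Ioo (r / 2) r, ∫⁻ y in Ioo (-π) π,
          ENNReal.ofReal x * Φ (circleMap t x y) := by
        refine setLIntegral_mono' measurableSet_Ioo (fun x hx => ?_)
        have hx0 : 0 < x := hsub hx
        have h5 : ∀ y : ℝ, Φ (circleMap t x y) = ‖g (circleMap t x y)‖ₑ := by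
          intro y
          rw [hΦ, indicator_of_mem]
          rw [mem_ball, dist_eq_norm]
          have h6 : ‖circleMap t x y - t‖ = x := by
            rw [circleMap_sub_center, norm_circleMap_zero, abs_of_pos hx0]
          rw [h6]
          exact hx.2
        simp only [h5]
        rw [lintegral_const_mul' _ _ ENNReal.ofReal_ne_top]
        exact mul_le_mul' (ENNReal.ofReal_le_ofReal hx.1.le) (circ hg hx0 hx.2)
    _ ≤ _ := lintegral_mono_set hsub

/-- the closed square -/
def Q (x y r : ℝ) : Set ℂ :=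
  measurableEquivRealProd ⁻¹' (Icc (x - r) (x + r) ×ˢ Icc (y - r) (y + r))

theorem mem_Q {x y r : ℝ} {s : ℂ} : s ∈ Q x y r ↔ |s.re - x| ≤ r ∧ |s.im - y| ≤ r := by
  simp only [Q, mem_preimage, measurableEquivRealProd_apply, mem_prod, mem_Icc, abs_le]
  constructor
  · rintro ⟨⟨h1, h2⟩, h3, h4⟩
    exact ⟨⟨by linarith, by linarith⟩, by linarith, by linarith⟩
  · rintro ⟨⟨h1, h2⟩, h3, h4⟩
    exact ⟨⟨by linarith, by linarith⟩, by linarith, by linarith⟩

theorem ball_sub (x y r : ℝ) : closedBall (pt x y) r ⊆ Q x y r := by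
  intro s hs
  rw [mem_closedBall, dist_eq_norm] at hs
  have e1 : (s - pt x y).re = s.re - x := by simp [pt]
  have e2 : (s - pt x y).im = s.im - y := by simp [pt]
  rw [mem_Q, ← e1, ← e2]
  exact ⟨(abs_re_le_norm _).trans hs, (abs_im_le_norm _).trans hs⟩

theorem isCompact_Q (x y r : ℝ) : IsCompact (Q x y r) := by
  have h := (isCompact_Icc (a := x - r) (b := x + r)).prod
    (isCompact_Icc (a := y - r) (b := y + r))
  have h2 := h.image (equivRealProdCLM.symm.continuous)
  have e : Q x y r = equivRealProdCLM.symm '' (Icc (x - r) (x + r) ×ˢ Icc (y - r) (y + r)) := by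
    ext s
    simp only [Q, mem_preimage, mem_image]
    constructor
    · intro hs
      exact ⟨_, hs, equivRealProdCLM.symm_apply_apply s⟩
    · rintro ⟨p, hp, rfl⟩
      have : measurableEquivRealProd (equivRealProdCLM.symm p) = p :=
        equivRealProdCLM.apply_symm_apply p
      rw [this]
      exact hp
  rw [e]
  exact h2

theorem square {f : ℂ → ℂ} {x y r : ℝ} (hr : 0 < r) (hf : ContinuousOn f (Q x y r)) :
    ∫ z in Q x y r, ‖f z‖ ^ 2 =
      ∫ u in (x - r)..(x + r), ∫ v in (y - r)..(y + r), ‖f (pt u v)‖ ^ 2 := by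
  have e : ∀ z : ℂ, ‖f z‖ ^ 2 =
      (fun p : ℝ × ℝ => ‖f (pt p.1 p.2)‖ ^ 2) (measurableEquivRealProd z) := by
    intro z
    have : pt z.re z.im = z := re_add_im z
    simp only [measurableEquivRealProd_apply, this]
  have h1 : ∫ z in Q x y r, ‖f z‖ ^ 2 =
      ∫ p in Icc (x - r) (x + r) ×ˢ Icc (y - r) (y + r), ‖f (pt p.1 p.2)‖ ^ 2 := by
    rw [← volume_preserving_equiv_real_prod.setIntegral_preimage_emb
      measurableEquivRealProd.measurableEmbedding]
    exact setIntegral_congr_fun (measurableEquivRealProd.measurable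
      (measurableSet_Icc.prod measurableSet_Icc)) (fun z _ => e z)
  have hc : ContinuousOn (fun p : ℝ × ℝ => ‖f (pt p.1 p.2)‖ ^ 2)
      (Icc (x - r) (x + r) ×ˢ Icc (y - r) (y + r)) := by
    have h3 : Continuous (fun p : ℝ × ℝ => pt p.1 p.2) := by
      unfold pt
      fun_prop
    refine ((hf.comp h3.continuousOn ?_).norm).pow 2
    intro p hp
    have : measurableEquivRealProd (pt p.1 p.2) = p := by
      simp [pt]
    simp only [Q, mem_preimage, this]
    exact hp
  have hi : IntegrableOn (fun p : ℝ × ℝ => ‖f (pt p.1 p.2)‖ ^ 2)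
      (Icc (x - r) (x + r) ×ˢ Icc (y - r) (y + r)) (volume.prod volume) :=
    hc.integrableOn_compact (isCompact_Icc.prod isCompact_Icc)
  rw [h1, Measure.volume_eq_prod, setIntegral_prod _ hi,
    intervalIntegral.integral_of_le (by linarith), integral_Icc_eq_integral_Ioc]
  refine integral_congr_ae (Eventually.of_forall (fun u => ?_))
  simp only
  rw [intervalIntegral.integral_of_le (by linarith), integral_Icc_eq_integral_Ioc]

end DSC_

open DSC_ in
theorem p_DSC : T_DSC := by
  refine ⟨2, two_pos, fun f x y r hr hd => ?_⟩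
  have hQ : DifferentiableOn ℂ f (Q x y r) := fun s hs =>
    (hd s (mem_Q.1 hs).1 (mem_Q.1 hs).2).differentiableWithinAt
  have hd2 : DifferentiableOn ℂ (fun z => f z ^ 2) (Metric.closedBall (pt x y) r) :=
    (hQ.mono (ball_sub x y r)).pow 2
  have h1 := mvp hr hd2
  have hi : IntegrableOn (fun z => ‖f z‖ ^ 2) (Q x y r) :=
    (hQ.continuousOn.norm.pow 2).integrableOn_compact (isCompact_Q x y r)
  have h2 : ∫⁻ z in Metric.ball (pt x y) r, ‖f z ^ 2‖ₑ ≤
      ENNReal.ofReal (∫ z in Q x y r, ‖f z‖ ^ 2) := by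
    rw [ofReal_integral_eq_lintegral_ofReal hi
      (Eventually.of_forall (fun z => by positivity))]
    calc ∫⁻ z in Metric.ball (pt x y) r, ‖f z ^ 2‖ₑ ≤ ∫⁻ z in Q x y r, ‖f z ^ 2‖ₑ :=
          lintegral_mono_set (Metric.ball_subset_closedBall.trans (ball_sub x y r))
      _ = ∫⁻ z in Q x y r, ENNReal.ofReal (‖f z‖ ^ 2) := by
          refine lintegral_congr (fun z => ?_)
          rw [← ofReal_norm, norm_pow]
  have h3 : ENNReal.ofReal (Real.pi * r ^ 2 / 2 * ‖f (pt x y)‖ ^ 2) ≤
      ENNReal.ofReal (∫ z in Q x y r, ‖f z‖ ^ 2) := by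
    refine le_trans (le_of_eq ?_) (h1.trans h2)
    rw [ENNReal.ofReal_mul (by positivity), ← ofReal_norm, norm_pow]
  have h4 := (ENNReal.ofReal_le_ofReal_iff (integral_nonneg (fun z => by positivity))).1 h3
  rw [← square hr hQ.continuousOn]
  have h5 : 0 ≤ r ^ 2 * ‖f (pt x y)‖ ^ 2 := by positivity
  nlinarith [Real.pi_gt_three]

end Pool.Agent.DBA
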