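import Pool.Agent.DBA.Targets

/-!
# Target FIN: union of the two exceptional sets
-/

set_option autoImplicit false

namespace Pool.Agent.DBA

open Complex MeasureTheory Set Filter

theorem p_FIN (h1 : T_SMA) (h2 : T_NZR) : T_FIN := by
  intro e K he hK
  obtain ⟨ρ, d₁, X₁, hρ, hd₁, hX₁, h1⟩ := h1 e K he hK
  obtain ⟨d₂, X₂, hd₂, hX₂, h2⟩ := h2 e K he hK
  have hd : 0 < min d₁ d₂ / 2 := by
    have := lt_min hd₁ hd₂
    positivity
  have hle1 : 2 * (min d₁ d₂ / 2) ≤ d₁ := by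
    have := min_le_left d₁ d₂
    linarith
  have hle2 : 2 * (min d₁ d₂ / 2) ≤ d₂ := by
    have := min_le_right d₁ d₂
    linarith
  generalize min d₁ d₂ / 2 = d at hd hle1 hle2
  refine ⟨ρ, d, max (max X₁ X₂) (2 ^ (1 / d)), hρ, hd,
    hX₁.trans ((le_max_left _ _).trans (le_max_left _ _)), fun X hX => ?_⟩
  have hXX₁ : X₁ ≤ X := ((le_max_left _ _).trans (le_max_left _ _)).trans hX
  have hXX₂ : X₂ ≤ X := ((le_max_right _ _).trans (le_max_left _ _)).trans hX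
  have hXd : (2 : ℝ) ^ (1 / d) ≤ X := (le_max_right _ _).trans hX
  have hX1 : 1 ≤ X := by linarith
  have hX0 : 0 < X := by linarith
  obtain ⟨B₁, m₁, s₁, v₁, g₁⟩ := h1 X hXX₁
  obtain ⟨B₂, m₂, s₂, v₂, g₂⟩ := h2 X hXX₂
  refine ⟨B₁ ∪ B₂, m₁.union m₂, union_subset s₁ s₂, ?_, fun T hT hTB s hs => ?_⟩
  · have k1 : X ^ (1 - d₁) ≤ X ^ (1 - 2 * d) := Real.rpow_le_rpow_of_exponent_le hX1 (by linarith)
    have k2 : X ^ (1 - d₂) ≤ X ^ (1 - 2 * d) := Real.rpow_le_rpow_of_exponent_le hX1 (by linarith)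
    have k3 : 2 ≤ X ^ d := by
      calc (2 : ℝ) = ((2 : ℝ) ^ (1 / d)) ^ d := by
            rw [← Real.rpow_mul (by norm_num), one_div, inv_mul_cancel₀ hd.ne', Real.rpow_one]
        _ ≤ X ^ d := Real.rpow_le_rpow (by positivity) hXd hd.le
    have k4 : X ^ (1 - d) = X ^ (1 - 2 * d) * X ^ d := by
      rw [← Real.rpow_add hX0]
      congr 1
      ring
    have k5 : 0 ≤ X ^ (1 - 2 * d) := by positivity
    calc volume (B₁ ∪ B₂) ≤ volume B₁ + volume B₂ := measure_union_le _ _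
      _ ≤ ENNReal.ofReal (X ^ (1 - d₁)) + ENNReal.ofReal (X ^ (1 - d₂)) := add_le_add v₁ v₂
      _ = ENNReal.ofReal (X ^ (1 - d₁) + X ^ (1 - d₂)) :=
          (ENNReal.ofReal_add (by positivity) (by positivity)).symm
      _ ≤ ENNReal.ofReal (X ^ (1 - d)) := by
          refine ENNReal.ofReal_le_ofReal ?_
          rw [k4]
          nlinarith
  · rw [mem_union, not_or] at hTB
    exact ⟨g₁ T hT hTB.1 s hs, g₂ T hT hTB.2 s hs⟩

end Pool.Agent.DBA
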