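import Pool.Agent.DBA.Targets2

/-! # DBA, target GDN: the measure of the set of bad heights -/

set_option autoImplicit false

namespace Pool.Agent.DBA

open Complex MeasureTheory Set Filter

theorem p_GDN (h1 : T_FIN) (h2 : T_LZG) : T_GDN := by
  intro η n hη
  obtain ⟨e, K₁, T₀, he, hK, hT₀, hN⟩ := h2 η (1 / ((n : ℝ) + 1)) ((n : ℝ) + 1) hη
    (by positivity) (by positivity)
  obtain ⟨ρ, d, X₁, hρ, hd, hX₁, hB⟩ := h1 e K₁ he hK
  refine ⟨d, max X₁ T₀, hd, hX₁.trans (le_max_left _ _), ?_⟩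
  intro X hX
  obtain ⟨B, -, -, hBv, hBT⟩ := hB X ((le_max_left _ _).trans hX)
  refine le_trans (measure_mono ?_) hBv
  rintro T ⟨hT1, hT2, hT3⟩
  by_contra hTB
  apply hT3
  have hX0 : 0 < X := by linarith [(le_max_left X₁ T₀).trans hX]
  have hnice : Nice e K₁ T := by
    intro s hs
    obtain ⟨h3, h4⟩ := hBT T ⟨hT1, hT2⟩ hTB s hs
    refine ⟨fun h5 => (h3 (by linarith)).trans ?_, h4⟩
    exact Real.rpow_le_rpow hX0.le hT1 he.le
  have h6 := hN T (((le_max_right _ _).trans hX).trans hT1) hnice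
  exact h6

end Pool.Agent.DBA
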