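import Pool.Agent.DBA.Targets2
import Pool.Agent.SPZ.S4

/-!
# DBA, target LZG: bounds for zeta near a nice height
-/

set_option autoImplicit false

namespace Pool.Agent.DBA

open Complex MeasureTheory Set Filter Topology

/-- LZG: bounds for zeta near a nice height -/
theorem p_LZG (hB : Pool.Agent.DBC.U_BCL) : T_LZG := by
  intro η ε R hη hε hR
  by_cases hRη : R < 1 / 2 + η
  · refine ⟨ε, R, 2, hε, hR, le_rfl, fun T _ hN => ⟨fun s h1 _ h3 => (hN s h3).1 h1, ?_⟩⟩
    intro s h1 h2 _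
    exfalso
    linarith
  push Not at hRη
  set σ0 : ℝ := 1 / 2 + 3 * η / 4 with hσ0
  set ρ : ℝ := R + 3 - σ0 with hρ
  have hρ0 : 0 < ρ := by linarith
  set e : ℝ := min (min (η / 2) ε) (ε * η / (32 * ρ)) with he
  have he0 : 0 < e := lt_min (lt_min (by linarith) hε) (by positivity)
  have he1 : e ≤ ε := (min_le_left _ _).trans (min_le_right _ _)
  have he3 : e ≤ η / 2 := (min_le_left _ _).trans (min_le_left _ _)
  have he2 : 16 * e * ρ / η ≤ ε / 2 := by
    have h : e ≤ ε * η / (32 * ρ) := min_le_right _ _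
    rw [le_div_iff₀ (by positivity)] at h
    rw [div_le_iff₀ hη]
    linarith
  obtain ⟨c₀, hc₀, hlow⟩ := (Pool.Agent.SPZ.s4).2 1 one_pos
  have hev : ∀ᶠ T : ℝ in atTop, 1 / c₀ ≤ T ^ e ∧ (1 / c₀ ≤ T ^ (ε / 2) ∧ R + ρ + 2 ≤ T) :=
    ((tendsto_rpow_atTop he0).eventually_ge_atTop _).and
    (((tendsto_rpow_atTop (by linarith : (0 : ℝ) < ε / 2)).eventually_ge_atTop _).and
      (eventually_ge_atTop _))
  obtain ⟨T₁, hT₁⟩ := eventually_atTop.1 hev
  refine ⟨e, R + ρ + 1, max T₁ 2, he0, by positivity, le_max_right _ _, fun T hT hN => ?_⟩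
  obtain ⟨hA, hCc, hD⟩ := hT₁ T ((le_max_left _ _).trans hT)
  have hT2 : 2 ≤ T := (le_max_right _ _).trans hT
  have hT0 : 0 < T := by linarith
  have hT1 : 1 ≤ T := by linarith
  refine ⟨fun s h1 _ h3 => ?_, fun s h1 h2 h3 => ?_⟩
  · exact ((hN s (by linarith)).1 h1).trans (Real.rpow_le_rpow_of_exponent_le hT1 he1)
  obtain ⟨h4, h5⟩ := abs_le.mp h3
  have hTe : 0 < T ^ e := Real.rpow_pos_of_pos hT0 _
  -- the lower bound
  set s₁ : ℂ := ((R + 3 : ℝ) : ℂ) + s.im * I with hs₁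
  have hs₁re : s₁.re = R + 3 := by simp [hs₁]
  have hs₁im : s₁.im = s.im := by simp [hs₁]
  have hbre : ∀ v ∈ Metric.ball (0 : ℂ) ρ, σ0 ≤ (s₁ + v).re ∧ |(s₁ + v).im - s.im| ≤ ρ := by
    intro v hv
    rw [mem_ball_zero_iff] at hv
    have g1 := abs_le.mp ((Complex.abs_re_le_norm v).trans hv.le)
    have g2 := (Complex.abs_im_le_norm v).trans hv.le
    rw [add_re, hs₁re, add_im, hs₁im]
    refine ⟨by linarith [g1.1], ?_⟩
    rw [add_sub_cancel_left]
    exact g2
  have himT : ∀ v ∈ Metric.ball (0 : ℂ) ρ, |(s₁ + v).im - T| ≤ R + ρ + 1 := by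
    intro v hv
    obtain ⟨g1, g2⟩ := abs_le.mp (hbre v hv).2
    rw [abs_le]
    constructor <;> linarith
  set L : ℝ := Real.log T with hL
  have hL0 : 0 < L := Real.log_pos (by linarith)
  have hexp : ∀ a : ℝ, Real.exp (a * L) = T ^ a := by
    intro a
    rw [Real.rpow_def_of_pos hT0, mul_comm]
  have hdiff : DifferentiableOn ℂ (fun v => riemannZeta (s₁ + v)) (Metric.ball 0 ρ) := by
    intro v hv
    have hne : s₁ + v ≠ 1 := by
      intro hc
      have g1 := (abs_le.mp (himT v hv)).1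
      rw [hc, one_im] at g1
      linarith
    have g2 : DifferentiableAt ℂ (fun v => riemannZeta (s₁ + v)) v :=
      DifferentiableAt.comp v (differentiableAt_riemannZeta hne)
        ((differentiableAt_const _).add differentiableAt_id)
    exact g2.differentiableWithinAt
  have hg0 : c₀ ≤ ‖riemannZeta (s₁ + 0)‖ := by
    refine hlow _ ?_
    rw [add_zero, hs₁re]
    linarith
  have hval : ∀ v ∈ Metric.ball (0 : ℂ) ρ, riemannZeta (s₁ + v) ≠ 0 ∧
      ‖riemannZeta (s₁ + v)‖ ≤ Real.exp (2 * e * L) * ‖riemannZeta (s₁ + 0)‖ := by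
    intro v hv
    obtain ⟨g1, g3⟩ := hbre v hv
    refine ⟨(hN _ (himT v hv)).2 (by linarith), ?_⟩
    refine ((hN _ (himT v hv)).1 (by linarith)).trans ?_
    rw [hexp]
    have g4 : 1 ≤ T ^ e * c₀ := by
      rwa [div_le_iff₀ hc₀] at hA
    have g5 : T ^ (2 * e) = T ^ e * T ^ e := by
      rw [← Real.rpow_add hT0]
      congr 1
      ring
    calc T ^ e = 1 * T ^ e := by rw [one_mul]
      _ ≤ T ^ e * c₀ * T ^ e := by gcongr
      _ = T ^ (2 * e) * c₀ := by
        rw [g5]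
        ring
      _ ≤ _ := by gcongr
  obtain ⟨h, ⟨-, -, hh3⟩, hh4⟩ := hB (fun v => riemannZeta (s₁ + v)) ρ (2 * e * L) hρ0
    (by positivity) hdiff hval
  set v : ℂ := s - s₁ with hv
  have hvr : v = ((s.re - (R + 3) : ℝ) : ℂ) := by
    apply Complex.ext
    · rw [hv, sub_re, hs₁re, ofReal_re]
    · rw [hv, sub_im, hs₁im, ofReal_im, sub_self]
  have hvn : ‖v‖ = R + 3 - s.re := by
    rw [hvr, Complex.norm_real, Real.norm_eq_abs, abs_of_neg (by linarith)]
    ring
  have hvb : v ∈ Metric.ball (0 : ℂ) ρ := by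
    rw [mem_ball_zero_iff, hvn]
    linarith
  have g1 : riemannZeta s = riemannZeta (s₁ + 0) * exp (h v) := by
    have := hh3 v hvb
    simp only at this
    rw [← this]
    congr 1
    rw [hv]
    ring
  have g2 : ‖h v‖ ≤ ε / 2 * L := by
    refine (hh4 v hvb).trans ?_
    have g3 : η / 4 ≤ ρ - ‖v‖ := by
      rw [hvn]
      linarith
    have g4 : ‖v‖ ≤ ρ := by linarith
    calc 2 * (2 * e * L) * ‖v‖ / (ρ - ‖v‖) ≤ 2 * (2 * e * L) * ρ / (η / 4) := by gcongr
      _ = 16 * e * ρ / η * L := by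
        field_simp
        ring
      _ ≤ ε / 2 * L := by gcongr
  have g3 : -(ε / 2 * L) ≤ (h v).re := by
    have := (abs_le.mp (Complex.abs_re_le_norm (h v))).1
    linarith
  have g4 : T ^ (-(ε / 2)) ≤ c₀ := by
    rw [Real.rpow_neg hT0.le]
    rw [one_div] at hCc
    exact inv_le_of_inv_le₀ hc₀ hCc
  rw [g1, norm_mul, Complex.norm_exp]
  calc T ^ (-ε) = T ^ (-(ε / 2)) * T ^ (-(ε / 2)) := by
        rw [← Real.rpow_add hT0]
        congr 1
        ring
    _ ≤ ‖riemannZeta (s₁ + 0)‖ * Real.exp (h v).re := by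
        refine mul_le_mul (g4.trans hg0) ?_ (by positivity) (norm_nonneg _)
        rw [← hexp]
        refine Real.exp_le_exp.mpr ?_
        linarith

end Pool.Agent.DBA
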