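import Pool.Agent.DBA.Targets

/-!
# DBA, MRK: Markov's inequality for the boxes
-/

set_option autoImplicit false

namespace Pool.Agent.DBA

open Complex MeasureTheory Set Filter

namespace MRK_

/-- the square of the absolute value, on the strip -/
noncomputable def H (g : ℂ → ℂ) (a b c : ℝ) : ℝ × ℝ → ENNReal :=
  (Icc a b ×ˢ Ici c).indicator fun p => ‖‖g (pt p.1 p.2)‖ ^ 2‖ₑ

theorem pt_cont : Continuous fun p : ℝ × ℝ => pt p.1 p.2 := by
  unfold pt
  fun_prop

theorem pt_re (x y : ℝ) : (pt x y).re = x := by simp [pt]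

theorem pt_im (x y : ℝ) : (pt x y).im = y := by simp [pt]

theorem H_meas (g : ℂ → ℂ) (a b c : ℝ)
    (hg : ∀ s : ℂ, a ≤ s.re → s.re ≤ b → c ≤ s.im → ContinuousAt g s) :
    Measurable (H g a b c) := by
  classical
  unfold H
  rw [← Set.piecewise_eq_indicator]
  refine ContinuousOn.measurable_piecewise ?_ continuousOn_const
    (measurableSet_Icc.prod measurableSet_Ici)
  intro p hp
  rw [Set.mem_prod] at hp
  have h1 : ContinuousAt g (pt p.1 p.2) := by
    refine hg _ ?_ ?_ ?_
    · rw [pt_re]; exact hp.1.1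
    · rw [pt_re]; exact hp.1.2
    · rw [pt_im]; exact hp.2
  have h2 : ContinuousAt (fun p : ℝ × ℝ => g (pt p.1 p.2)) p :=
    ContinuousAt.comp (f := fun p : ℝ × ℝ => pt p.1 p.2) h1 pt_cont.continuousAt
  exact ((h2.norm.pow 2).enorm).continuousWithinAt

/-- the set of the pairs with `|y - T| ≤ K` -/
def S (K : ℝ) : Set ((ℝ × ℝ) × ℝ) := {q | q.1.1 - K < q.2 ∧ q.2 ≤ q.1.1 + K}

theorem S_meas (K : ℝ) : MeasurableSet (S K) := by
  have h1 : MeasurableSet {q : (ℝ × ℝ) × ℝ | q.1.1 - K < q.2} :=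
    measurableSet_lt (by fun_prop) (by fun_prop)
  have h2 : MeasurableSet {q : (ℝ × ℝ) × ℝ | q.2 ≤ q.1.1 + K} :=
    measurableSet_le (by fun_prop) (by fun_prop)
  exact h1.inter h2

/-- the integrand -/
noncomputable def Ph (g : ℂ → ℂ) (a b c K : ℝ) : (ℝ × ℝ) × ℝ → ENNReal :=
  (S K).indicator fun q => H g a b c (q.1.2, q.2)

theorem Ph_meas (g : ℂ → ℂ) (a b c K : ℝ)
    (hg : ∀ s : ℂ, a ≤ s.re → s.re ≤ b → c ≤ s.im → ContinuousAt g s) :
    Measurable (Ph g a b c K) :=
  ((H_meas g a b c hg).comp (by fun_prop)).indicator (S_meas K)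

/-- the inner integral -/
noncomputable def A (g : ℂ → ℂ) (a b c K : ℝ) (q : ℝ × ℝ) : ENNReal :=
  ∫⁻ y, Ph g a b c K (q, y)

theorem A_meas (g : ℂ → ℂ) (a b c K : ℝ)
    (hg : ∀ s : ℂ, a ≤ s.re → s.re ≤ b → c ≤ s.im → ContinuousAt g s) :
    Measurable (A g a b c K) :=
  (Ph_meas g a b c K hg).lintegral_prod_right'

/-- the outer integral -/
noncomputable def G (g : ℂ → ℂ) (a b c K T : ℝ) : ENNReal :=
  ∫⁻ x in Ioc a b, A g a b c K (T, x)

theorem G_meas (g : ℂ → ℂ) (a b c K : ℝ)
    (hg : ∀ s : ℂ, a ≤ s.re → s.re ≤ b → c ≤ s.im → ContinuousAt g s) :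
    Measurable (G g a b c K) :=
  (A_meas g a b c K hg).lintegral_prod_right'

theorem bx_le (g : ℂ → ℂ) (a b c K T : ℝ) (hab : a ≤ b) (hK : 0 ≤ K) (hT : c ≤ T - K) :
    ENNReal.ofReal (bx g a b K T) ≤ G g a b c K T := by
  unfold bx G
  rw [intervalIntegral.integral_of_le hab]
  refine (Real.ofReal_le_enorm _).trans ((enorm_integral_le_lintegral_enorm _).trans ?_)
  refine setLIntegral_mono' measurableSet_Ioc fun x hx => ?_
  rw [intervalIntegral.integral_of_le (by linarith)]
  refine (enorm_integral_le_lintegral_enorm _).trans ?_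
  unfold A
  rw [← lintegral_indicator measurableSet_Ioc]
  refine lintegral_mono fun y => ?_
  by_cases hy : y ∈ Ioc (T - K) (T + K)
  · rw [indicator_of_mem hy]
    unfold Ph H
    rw [indicator_of_mem (show (((T, x), y) : (ℝ × ℝ) × ℝ) ∈ S K from ⟨hy.1, hy.2⟩)]
    rw [indicator_of_mem]
    exact ⟨⟨hx.1.le, hx.2⟩, hT.trans hy.1.le⟩
  · rw [indicator_of_notMem hy]
    exact zero_le

theorem part_le (g : ℂ → ℂ) (a b c V x T0 : ℝ) (hx : x ∈ Icc a b) (hc : c ≤ T0)
    (hT0 : 0 ≤ T0)
    (hg : ∀ s : ℂ, a ≤ s.re → s.re ≤ b → c ≤ s.im → ContinuousAt g s)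
    (h : (∫ t in T0..(2 * T0), ‖g (pt x t)‖ ^ 2) ≤ V) :
    ∫⁻ y in Ioc T0 (2 * T0), H g a b c (x, y) ≤ ENNReal.ofReal V := by
  have hc1 : ContinuousOn (fun y : ℝ => ‖g (pt x y)‖ ^ 2) (Icc T0 (2 * T0)) := by
    intro y hy
    have h1 : ContinuousAt g (pt x y) := by
      refine hg _ ?_ ?_ ?_
      · rw [pt_re]; exact hx.1
      · rw [pt_re]; exact hx.2
      · rw [pt_im]; exact hc.trans hy.1
    have h2 : ContinuousAt (fun y : ℝ => pt x y) y :=
      (pt_cont.comp (Continuous.prodMk_right x)).continuousAt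
    have h3 : ContinuousAt (fun y : ℝ => g (pt x y)) y :=
      ContinuousAt.comp (f := fun y : ℝ => pt x y) h1 h2
    exact (h3.norm.pow 2).continuousWithinAt
  have hint : IntegrableOn (fun y : ℝ => ‖g (pt x y)‖ ^ 2) (Ioc T0 (2 * T0)) :=
    hc1.integrableOn_Icc.mono_set Ioc_subset_Icc_self
  rw [intervalIntegral.integral_of_le (by linarith)] at h
  refine le_trans ?_ (ENNReal.ofReal_le_ofReal h)
  rw [ofReal_integral_eq_lintegral_ofReal hint (ae_of_all _ fun y => by positivity)]
  refine lintegral_mono fun y => ?_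
  unfold H
  refine (indicator_le_self' (fun _ _ => zero_le) _).trans ?_
  rw [Real.enorm_of_nonneg (by positivity)]

theorem inner_le (g : ℂ → ℂ) (a b K X x y : ℝ) (hK : 0 < K) (hX : 2 * K ≤ X) :
    ∫⁻ T in Icc X (2 * X), Ph g a b (X / 2) K ((T, x), y) ≤
      (Ioc (X / 2) (4 * X)).indicator
        (fun y => H g a b (X / 2) (x, y) * ENNReal.ofReal (2 * K)) y := by
  by_cases hy : y ∈ Ioc (X / 2) (4 * X)
  · rw [indicator_of_mem hy]
    calc ∫⁻ T in Icc X (2 * X), Ph g a b (X / 2) K ((T, x), y)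
        ≤ ∫⁻ T, Ph g a b (X / 2) K ((T, x), y) := setLIntegral_le_lintegral _ _
      _ ≤ ∫⁻ T, (Ico (y - K) (y + K)).indicator (fun _ => H g a b (X / 2) (x, y)) T := by
          refine lintegral_mono fun T => ?_
          by_cases hT : T ∈ Ico (y - K) (y + K)
          · rw [indicator_of_mem hT]
            unfold Ph
            exact indicator_le_self' (fun _ _ => zero_le) _
          · rw [indicator_of_notMem hT]
            unfold Ph
            rw [indicator_of_notMem]
            intro hq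
            obtain ⟨h1, h2⟩ := hq
            simp only at h1 h2
            exact hT ⟨by linarith, by linarith⟩
      _ = H g a b (X / 2) (x, y) * ENNReal.ofReal (2 * K) := by
          rw [lintegral_indicator measurableSet_Ico, setLIntegral_const, Real.volume_Ico]
          congr 2
          ring
  · rw [indicator_of_notMem hy]
    refine le_of_eq ?_
    rw [← lintegral_zero (μ := volume.restrict (Icc X (2 * X)))]
    refine setLIntegral_congr_fun measurableSet_Icc fun T hT => ?_
    unfold Ph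
    rw [indicator_of_notMem]
    intro hq
    obtain ⟨h1, h2⟩ := hq
    simp only at h1 h2
    exact hy ⟨by linarith [hT.1], by linarith [hT.2]⟩

theorem col_le (g : ℂ → ℂ) (a b K X V x : ℝ) (hx : x ∈ Icc a b) (hK : 0 < K)
    (hX : 2 * K ≤ X) (hV : 0 ≤ V)
    (hg : ∀ s : ℂ, a ≤ s.re → s.re ≤ b → X / 2 ≤ s.im → ContinuousAt g s)
    (h : ∀ T, (T = X / 2 ∨ T = X ∨ T = 2 * X) →
      (∫ t in T..(2 * T), ‖g (pt x t)‖ ^ 2) ≤ V) :
    ∫⁻ T in Icc X (2 * X), A g a b (X / 2) K (T, x) ≤ ENNReal.ofReal (6 * K * V) := by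
  unfold A
  have hX0 : 0 < X := by linarith
  have hm : Measurable fun q : ℝ × ℝ => Ph g a b (X / 2) K ((q.1, x), q.2) :=
    (Ph_meas g a b (X / 2) K hg).comp (by fun_prop)
  have hsw := lintegral_lintegral_swap (μ := volume.restrict (Icc X (2 * X)))
    (ν := (volume : Measure ℝ)) (f := fun T y => Ph g a b (X / 2) K ((T, x), y))
    hm.aemeasurable
  rw [hsw]
  have e1 : Ioc (X / 2) (2 * (X / 2)) = Ioc (X / 2) X := by
    congr 1
    ring
  have p1 := part_le g a b (X / 2) V x (X / 2) hx le_rfl (by linarith) hg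
    (h _ (Or.inl rfl))
  have p2 := part_le g a b (X / 2) V x X hx (by linarith) hX0.le hg (h _ (Or.inr (Or.inl rfl)))
  have p3 := part_le g a b (X / 2) V x (2 * X) hx (by linarith) (by linarith) hg
    (h _ (Or.inr (Or.inr rfl)))
  rw [e1] at p1
  have hsub : Ioc (X / 2) (4 * X) ⊆
      (Ioc (X / 2) X ∪ Ioc X (2 * X)) ∪ Ioc (2 * X) (2 * (2 * X)) := by
    intro y hy
    rcases le_or_gt y X with h1 | h1
    · exact Or.inl (Or.inl ⟨hy.1, h1⟩)
    · rcases le_or_gt y (2 * X) with h2 | h2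
      · exact Or.inl (Or.inr ⟨h1, h2⟩)
      · exact Or.inr ⟨h2, by linarith [hy.2]⟩
  calc ∫⁻ y, ∫⁻ T in Icc X (2 * X), Ph g a b (X / 2) K ((T, x), y)
      ≤ ∫⁻ y, (Ioc (X / 2) (4 * X)).indicator
        (fun y => H g a b (X / 2) (x, y) * ENNReal.ofReal (2 * K)) y :=
        lintegral_mono fun y => inner_le g a b K X x y hK hX
    _ = (∫⁻ y in Ioc (X / 2) (4 * X), H g a b (X / 2) (x, y)) * ENNReal.ofReal (2 * K) := by
        rw [lintegral_indicator measurableSet_Ioc, lintegral_mul_const' _ _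
          ENNReal.ofReal_ne_top]
    _ ≤ (ENNReal.ofReal V + ENNReal.ofReal V + ENNReal.ofReal V) * ENNReal.ofReal (2 * K) := by
        refine mul_le_mul_left ?_ _
        refine (lintegral_mono_set hsub).trans ((lintegral_union_le _ _ _).trans ?_)
        exact add_le_add ((lintegral_union_le _ _ _).trans (add_le_add p1 p2)) p3
    _ = ENNReal.ofReal (6 * K * V) := by
        rw [← ENNReal.ofReal_add hV hV, ← ENNReal.ofReal_add (by positivity) hV,
          ← ENNReal.ofReal_mul (by positivity)]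
        congr 1
        ring

end MRK_

open MRK_ in
theorem p_MRK : T_MRK := by
  intro g a b K X V lam hab hK hX hlam hV hg h
  have hGm := G_meas g a b (X / 2) K hg
  refine ⟨Icc X (2 * X) ∩ {T | ENNReal.ofReal lam ≤ G g a b (X / 2) K T},
    measurableSet_Icc.inter (measurableSet_le measurable_const hGm), inter_subset_left, ?_, ?_⟩
  · have h1 := mul_meas_ge_le_lintegral₀ (μ := volume.restrict (Icc X (2 * X)))
      hGm.aemeasurable (ENNReal.ofReal lam)
    have h2 : ∫⁻ T in Icc X (2 * X), G g a b (X / 2) K T ≤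
        ENNReal.ofReal (6 * K * V) * ENNReal.ofReal (b - a) := by
      unfold G
      have hm : Measurable fun q : ℝ × ℝ => A g a b (X / 2) K (q.1, q.2) :=
        A_meas g a b (X / 2) K hg
      have hsw := lintegral_lintegral_swap (μ := volume.restrict (Icc X (2 * X)))
        (ν := volume.restrict (Ioc a b)) (f := fun T x => A g a b (X / 2) K (T, x))
        hm.aemeasurable
      rw [hsw]
      calc ∫⁻ x in Ioc a b, ∫⁻ T in Icc X (2 * X), A g a b (X / 2) K (T, x)
          ≤ ∫⁻ _x in Ioc a b, ENNReal.ofReal (6 * K * V) :=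
            setLIntegral_mono' measurableSet_Ioc fun x hx =>
              col_le g a b K X V x ⟨hx.1.le, hx.2⟩ hK hX hV hg (h x hx.1.le hx.2)
        _ = ENNReal.ofReal (6 * K * V) * ENNReal.ofReal (b - a) := by
            rw [setLIntegral_const, Real.volume_Ioc]
    have h3 : volume.restrict (Icc X (2 * X))
        {T | ENNReal.ofReal lam ≤ G g a b (X / 2) K T} =
        volume (Icc X (2 * X) ∩ {T | ENNReal.ofReal lam ≤ G g a b (X / 2) K T}) := by
      rw [Measure.restrict_apply (measurableSet_le measurable_const hGm), inter_comm]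
    rw [h3] at h1
    have h4 : (6 : ℝ) * K * (b - a) * V / lam = 6 * K * V * (b - a) / lam := by ring
    rw [h4, ENNReal.ofReal_div_of_pos hlam, ENNReal.le_div_iff_mul_le
      (Or.inl (by simpa using hlam)) (Or.inl ENNReal.ofReal_ne_top),
      ENNReal.ofReal_mul (by positivity), mul_comm]
    exact h1.trans h2
  · intro T hT hTB
    by_contra hcon
    rw [not_lt] at hcon
    refine hTB ⟨hT, ?_⟩
    exact (ENNReal.ofReal_le_ofReal hcon).trans
      (bx_le g a b (X / 2) K T hab hK.le (by linarith [hT.1]))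

end Pool.Agent.DBA
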