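import Pool.Agent.DBA.Targets

/-!
# DBA: mean values of Dirichlet polynomials on `[T, 2T]`
-/

set_option autoImplicit false

namespace Pool.Agent.DBA

open Complex MeasureTheory Set Filter

namespace MVD_

/-- The norm of the Dirichlet polynomial. -/
theorem norm_eq (N : ℕ) (a : ℕ → ℝ) (B t : ℝ) (hB : 0 < B) :
    ‖∑ n ∈ Finset.Icc 1 N, (a n : ℂ) * (n : ℂ) ^ (-((t : ℂ) * I))‖ ^ 2 =
      B ^ 2 * ‖∑ n ∈ Finset.Icc 1 N, Ben.e (t / (2 * Real.pi) * Real.log n) *
        ((a n / B : ℝ) : ℂ)‖ ^ 2 := by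
  have h1 : ∑ n ∈ Finset.Icc 1 N, (a n : ℂ) * (n : ℂ) ^ (-((t : ℂ) * I)) =
      (B : ℂ) * (starRingEnd ℂ) (∑ n ∈ Finset.Icc 1 N,
        Ben.e (t / (2 * Real.pi) * Real.log n) * ((a n / B : ℝ) : ℂ)) := by
    rw [map_sum, Finset.mul_sum]
    refine Finset.sum_congr rfl fun n hn => ?_
    rw [Finset.mem_Icc] at hn
    have hn0 : (n : ℂ) ≠ 0 := by
      have : n ≠ 0 := by omega
      exact_mod_cast this
    have hB0 : (B : ℂ) ≠ 0 := by exact_mod_cast hB.ne'
    rw [map_mul, Complex.conj_ofReal]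
    have h2 : (n : ℂ) ^ (-((t : ℂ) * I)) =
        (starRingEnd ℂ) (Ben.e (t / (2 * Real.pi) * Real.log n)) := by
      unfold Ben.e
      rw [← Complex.exp_conj, map_mul, Complex.conj_ofReal, Complex.conj_I,
        Complex.cpow_def_of_ne_zero hn0, ← Complex.natCast_log]
      congr 1
      have h3 : 2 * Real.pi * (t / (2 * Real.pi) * Real.log n) = t * Real.log n := by
        field_simp
      rw [h3]
      push_cast
      ring
    rw [h2]
    push_cast
    field_simp
  rw [h1, norm_mul, mul_pow, Complex.norm_conj, Complex.norm_real, Real.norm_eq_abs,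
    sq_abs]

end MVD_

theorem p_MVD : T_MVD := by
  refine ⟨4 * Real.pi, by positivity, ?_⟩
  intro N a B T hB hT ha
  have hlog : 0 ≤ Real.log (N : ℝ) := Real.log_natCast_nonneg N
  rcases hB.eq_or_lt with hB0 | hB0
  · have h0 : ∀ n, a n = 0 := by
      intro n
      have := ha n
      rw [← hB0] at this
      exact abs_nonpos_iff.1 this
    have h1 : (fun t : ℝ => ‖∑ n ∈ Finset.Icc 1 N, (a n : ℂ) *
        (n : ℂ) ^ (-((t : ℂ) * I))‖ ^ 2) = fun _ => 0 := by
      funext t
      simp [h0]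
    rw [h1, intervalIntegral.integral_zero, ← hB0]
    simp
  · have h2 := Ben.MTWO_upper N (fun n => a n / B) (fun n => by
      rw [abs_div, abs_of_pos hB0]
      exact (div_le_one hB0).2 (ha n)) (T / (2 * Real.pi)) (by positivity)
    simp_rw [MVD_.norm_eq N a B _ hB0]
    rw [intervalIntegral.integral_const_mul,
      intervalIntegral.integral_comp_div (fun u => ‖∑ n ∈ Finset.Icc 1 N,
        Ben.e (u * Real.log n) * ((a n / B : ℝ) : ℂ)‖ ^ 2) (by positivity)]
    have h3 : 2 * T / (2 * Real.pi) = 2 * (T / (2 * Real.pi)) := by ring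
    rw [h3, smul_eq_mul]
    have h4 : (0 : ℝ) ≤ B ^ 2 * (2 * Real.pi) := by positivity
    have h5 := mul_le_mul_of_nonneg_left h2 h4
    have h6 : B ^ 2 * (2 * Real.pi) * (N * (T / (2 * Real.pi) + 2 * N * (1 + Real.log N))) =
        B ^ 2 * N * (T + 4 * Real.pi * (N * (1 + Real.log N))) := by
      field_simp
      ring
    have h7 : (T : ℝ) ≤ 4 * Real.pi * T := by
      have := Real.pi_gt_three
      nlinarith
    have h8 : B ^ 2 * N * (T + 4 * Real.pi * (N * (1 + Real.log N))) ≤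
        4 * Real.pi * B ^ 2 * N * (T + N * (1 + Real.log N)) := by
      have h9 : (0 : ℝ) ≤ B ^ 2 * N := by positivity
      have h10 := mul_le_mul_of_nonneg_left (add_le_add_left h7
        (4 * Real.pi * (N * (1 + Real.log N)))) h9
      linarith
    linarith
end Pool.Agent.DBA
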