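import Pool.Agent.DBA.Targets

/-!
# DBA, target MVS (backup)
-/

set_option autoImplicit false

namespace Pool.Agent.DBA

open Complex MeasureTheory Set Filter

namespace MVS34_

/-- the block of index `j` -/
noncomputable def blk (a : ℕ → ℝ) (N j n : ℕ) : ℝ :=
  if n ∈ Finset.Icc 1 N ∧ Nat.log 2 n = j then a n else 0

noncomputable def P (N : ℕ) (a : ℕ → ℝ) (t : ℝ) : ℂ :=
  ∑ n ∈ Finset.Icc 1 N, (a n : ℂ) * (n : ℂ) ^ (-((t : ℂ) * I))

lemma cont_P (N : ℕ) (a : ℕ → ℝ) : Continuous (P N a) := by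
  unfold P
  refine continuous_finsetSum _ fun n hn => ?_
  have hn0 : (n : ℂ) ≠ 0 := by
    have := (Finset.mem_Icc.1 hn).1
    exact_mod_cast (by omega : n ≠ 0)
  refine continuous_const.mul ?_
  exact Continuous.const_cpow (by fun_prop) (Or.inl hn0)

lemma split (N : ℕ) (a : ℕ → ℝ) (t : ℝ) :
    P N a t = ∑ j ∈ Finset.range (Nat.log 2 N + 1), P N (blk a N j) t := by
  unfold P
  rw [Finset.sum_comm]
  refine Finset.sum_congr rfl fun n hn => ?_
  rw [← Finset.sum_mul]
  congr 1
  have hlog : Nat.log 2 n ∈ Finset.range (Nat.log 2 N + 1) := by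
    rw [Finset.mem_range]
    exact Nat.lt_succ_of_le (Nat.log_mono_right (Finset.mem_Icc.1 hn).2)
  rw [Finset.sum_eq_single_of_mem _ hlog]
  · simp [blk, (Finset.mem_Icc.1 hn).1, (Finset.mem_Icc.1 hn).2]
  · intro j _ hj
    simp only [blk]
    rw [if_neg]
    · simp
    · rintro ⟨-, h⟩
      exact hj h.symm

/-- a block only needs the terms up to `min N (2 ^ (j + 1))` -/
lemma short (N : ℕ) (a : ℕ → ℝ) (j : ℕ) (t : ℝ) :
    P N (blk a N j) t = P (min N (2 ^ (j + 1))) (blk a N j) t := by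
  unfold P
  symm
  refine Finset.sum_subset ?_ ?_
  · intro n hn
    rw [Finset.mem_Icc] at hn ⊢
    exact ⟨hn.1, hn.2.trans (min_le_left _ _)⟩
  · intro n hn hn2
    rw [Finset.mem_Icc] at hn
    rw [Finset.mem_Icc, not_and, not_le] at hn2
    have h1 := hn2 hn.1
    have h2 : 2 ^ (j + 1) < n := by
      rcases min_lt_iff.1 h1 with h | h
      · omega
      · exact h
    simp only [blk]
    rw [if_neg]
    · simp
    · rintro ⟨-, h⟩
      have h3 : n < 2 ^ (Nat.log 2 n + 1) := Nat.lt_pow_succ_log_self (by norm_num) n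
      rw [h] at h3
      omega

end MVS34_

open MVS34_

theorem p_MVS34 (h : T_MVD) : T_MVS := by
  obtain ⟨C, hC, hM⟩ := h
  refine ⟨64 * C, by positivity, ?_⟩
  intro N a H T hH hT hN ha
  have hlogN : 0 ≤ Real.log N := Real.log_natCast_nonneg N
  set J : ℕ := Nat.log 2 N + 1 with hJ
  -- every block
  have hblk : ∀ j ∈ Finset.range J, (∫ t in T..(2 * T), ‖P N (blk a N j) t‖ ^ 2) ≤
      16 * C * H * (1 + Real.log N) := by
    intro j hj
    rw [Finset.mem_range] at hj
    have hjN : 2 ^ j ≤ N := by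
      refine Nat.pow_le_of_le_log (by omega) (by omega)
    set M : ℕ := min N (2 ^ (j + 1)) with hMdef
    set B : ℝ := √(H / (2 ^ j * (T + 2 ^ j))) with hB
    have hB0 : 0 ≤ B := Real.sqrt_nonneg _
    have hden : (0 : ℝ) < 2 ^ j * (T + 2 ^ j) := by positivity
    have hB2 : B ^ 2 = H / (2 ^ j * (T + 2 ^ j)) := Real.sq_sqrt (by positivity)
    have hb : ∀ n, |blk a N j n| ≤ B := by
      intro n
      unfold blk
      split_ifs with hn
      · obtain ⟨hn1, hn2⟩ := hn
        rw [Finset.mem_Icc] at hn1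
        have h1 := ha n hn1.1 hn1.2
        have h2 : 2 ^ j ≤ n := by
          rw [← hn2]
          exact Nat.pow_log_le_self 2 (by omega)
        have h3 : (2 : ℝ) ^ j ≤ n := by exact_mod_cast h2
        refine Real.abs_le_sqrt ?_
        rw [le_div_iff₀ hden]
        refine le_trans ?_ h1
        rw [mul_assoc]
        gcongr
      · rw [abs_zero]
        exact hB0
    have h4 := hM M (blk a N j) B T hB0 hT.le hb
    have h5 : (∫ t in T..(2 * T), ‖P N (blk a N j) t‖ ^ 2) =
        ∫ t in T..(2 * T), ‖∑ n ∈ Finset.Icc 1 M, (blk a N j n : ℂ) *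
          (n : ℂ) ^ (-((t : ℂ) * I))‖ ^ 2 := by
      refine intervalIntegral.integral_congr fun t _ => ?_
      change ‖P N (blk a N j) t‖ ^ 2 = _
      rw [short]
      rfl
    rw [h5]
    refine h4.trans ?_
    rw [hB2]
    have hM1 : (M : ℝ) ≤ 2 * 2 ^ j := by
      have : M ≤ 2 ^ (j + 1) := min_le_right _ _
      calc (M : ℝ) ≤ ((2 ^ (j + 1) : ℕ) : ℝ) := by exact_mod_cast this
        _ = 2 * 2 ^ j := by push_cast; ring
    have hMpos : 1 ≤ M := le_min hN Nat.one_le_two_pow
    have hM2 : Real.log M ≤ Real.log N := by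
      refine Real.log_le_log (by exact_mod_cast hMpos) ?_
      exact_mod_cast (min_le_left _ _ : M ≤ N)
    have h6 : T + M * (1 + Real.log M) ≤ 2 * ((T + 2 ^ j) * (1 + Real.log N)) := by
      have h7 : (M : ℝ) * (1 + Real.log M) ≤ 2 * 2 ^ j * (1 + Real.log N) := by
        have : 0 ≤ Real.log M := Real.log_natCast_nonneg M
        gcongr
      have h8 : T ≤ T * (1 + Real.log N) := by nlinarith
      nlinarith
    have h9 : 0 ≤ T + M * (1 + Real.log M) := by
      have : 0 ≤ Real.log M := Real.log_natCast_nonneg M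
      positivity
    calc C * (H / (2 ^ j * (T + 2 ^ j))) * M * (T + M * (1 + Real.log M))
        ≤ C * (H / (2 ^ j * (T + 2 ^ j))) * (2 * 2 ^ j) *
          (2 * ((T + 2 ^ j) * (1 + Real.log N))) := by gcongr
      _ = 4 * C * H * (1 + Real.log N) := by
          field_simp
          ring
      _ ≤ 16 * C * H * (1 + Real.log N) := by
          have : 0 ≤ C * H * (1 + Real.log N) := by positivity
          nlinarith
  have hT2 : T ≤ 2 * T := by linarith
  have hint : ∀ f : ℝ → ℂ, Continuous f →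
      IntervalIntegrable (fun t => ‖f t‖ ^ 2) volume T (2 * T) := fun f hf =>
    (hf.norm.pow 2).intervalIntegrable _ _
  have hJ2 : (J : ℝ) ≤ 2 * (1 + Real.log N) := by
    have h1 : (2 : ℝ) ^ (Nat.log 2 N) ≤ N := by
      exact_mod_cast Nat.pow_log_le_self 2 (by omega)
    have h2 : (Nat.log 2 N : ℝ) * Real.log 2 ≤ Real.log N := by
      rw [← Real.log_pow]
      exact Real.log_le_log (by positivity) h1
    have h3 := Real.log_two_gt_d9
    rw [hJ]
    push_cast
    nlinarith [(Nat.cast_nonneg (Nat.log 2 N) : (0 : ℝ) ≤ _)]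
  calc (∫ t in T..(2 * T), ‖∑ n ∈ Finset.Icc 1 N, (a n : ℂ) *
        (n : ℂ) ^ (-((t : ℂ) * I))‖ ^ 2)
      ≤ ∫ t in T..(2 * T), (J : ℝ) * ∑ j ∈ Finset.range J, ‖P N (blk a N j) t‖ ^ 2 := by
        refine intervalIntegral.integral_mono_on hT2 (hint _ (cont_P N a)) ?_ ?_
        · refine (continuous_const.mul
            (continuous_finsetSum _ fun j _ => ?_)).intervalIntegrable _ _
          exact (cont_P N _).norm.pow 2
        · intro t _
          have h1 : (∑ n ∈ Finset.Icc 1 N, (a n : ℂ) * (n : ℂ) ^ (-((t : ℂ) * I))) =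
              ∑ j ∈ Finset.range J, P N (blk a N j) t := split N a t
          rw [h1]
          have h2 := norm_sum_le (Finset.range J) fun j => P N (blk a N j) t
          calc ‖∑ j ∈ Finset.range J, P N (blk a N j) t‖ ^ 2
              ≤ (∑ j ∈ Finset.range J, ‖P N (blk a N j) t‖) ^ 2 := by gcongr
            _ ≤ ((Finset.range J).card : ℝ) * ∑ j ∈ Finset.range J, ‖P N (blk a N j) t‖ ^ 2 :=
                sq_sum_le_card_mul_sum_sq
            _ = _ := by rw [Finset.card_range]
    _ = (J : ℝ) * ∑ j ∈ Finset.range J, ∫ t in T..(2 * T), ‖P N (blk a N j) t‖ ^ 2 := by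
        rw [intervalIntegral.integral_const_mul, intervalIntegral.integral_finsetSum]
        exact fun j _ => hint _ (cont_P N _)
    _ ≤ (J : ℝ) * ∑ j ∈ Finset.range J, 16 * C * H * (1 + Real.log N) := by
        gcongr with j hj
        exact hblk j hj
    _ = (J : ℝ) ^ 2 * (16 * C * H * (1 + Real.log N)) := by
        rw [Finset.sum_const, Finset.card_range, nsmul_eq_mul]
        ring
    _ ≤ (2 * (1 + Real.log N)) ^ 2 * (16 * C * H * (1 + Real.log N)) := by gcongr
    _ = 64 * C * H * (1 + Real.log N) ^ 3 := by ring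

end Pool.Agent.DBA
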