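import Pool.Agent.DBA.Targets

/-! # DBA: NZR, at almost all heights there are no zeros to the right of the line -/

set_option autoImplicit false

namespace Pool.Agent.DBA

open Complex MeasureTheory Set Filter

/-- the mollified function -/
noncomputable def NZR_f (Y : ℕ) (s : ℂ) : ℂ := riemannZeta s * Mp Y s - 1

lemma NZR_diffMp (Y : ℕ) (s : ℂ) : DifferentiableAt ℂ (Mp Y) s := by
  unfold Mp
  refine DifferentiableAt.fun_sum fun n hn => ?_
  have hn1 : 1 ≤ n := (Finset.mem_Icc.mp hn).1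
  have hn0 : (n : ℂ) ≠ 0 := by exact_mod_cast (by omega : n ≠ 0)
  refine DifferentiableAt.const_mul ?_ _
  exact (differentiableAt_id.neg).const_cpow (Or.inl hn0)

lemma NZR_diff (Y : ℕ) (s : ℂ) (hs : s ≠ 1) : DifferentiableAt ℂ (NZR_f Y) s := by
  unfold NZR_f
  exact ((differentiableAt_riemannZeta hs).mul (NZR_diffMp Y s)).sub_const 1

lemma NZR_pt_im (x y : ℝ) : (pt x y).im = y := by
  simp [pt]

lemma NZR_pt_re (x y : ℝ) : (pt x y).re = x := by
  simp [pt]

lemma NZR_ne (s : ℂ) (hs : 0 < s.im) : s ≠ 1 := by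
  intro h
  rw [h] at hs
  simp at hs

lemma NZR_cont (Y : ℕ) (c : ℝ) (hc : 0 < c) :
    Continuous (fun p : ℝ × ℝ => ‖NZR_f Y (pt p.1 (max p.2 c))‖ ^ 2) := by
  rw [continuous_iff_continuousAt]
  intro p
  have h1 : ContinuousAt (fun p : ℝ × ℝ => pt p.1 (max p.2 c)) p := by
    unfold pt
    fun_prop
  have h2 : ContinuousAt (NZR_f Y) (pt p.1 (max p.2 c)) := by
    refine (NZR_diff Y _ (NZR_ne _ ?_)).continuousAt
    rw [NZR_pt_im]
    exact lt_of_lt_of_le hc (le_max_right _ _)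
  have h3 : ContinuousAt (fun p : ℝ × ℝ => NZR_f Y (pt p.1 (max p.2 c))) p :=
    ContinuousAt.comp (f := fun p : ℝ × ℝ => pt p.1 (max p.2 c)) (g := NZR_f Y) h2 h1
  exact (h3.norm).pow 2

lemma NZR_mono (h : ℝ → ℝ → ℝ) (hc : Continuous (Function.uncurry h)) (hn : ∀ x y, 0 ≤ h x y)
    (a' a b b' c' c d d' : ℝ) (ha : a' ≤ a) (hab : a ≤ b) (hb : b ≤ b') (hc' : c' ≤ c)
    (hcd : c ≤ d) (hd : d ≤ d') :
    (∫ u in a..b, ∫ v in c..d, h u v) ≤ ∫ u in a'..b', ∫ v in c'..d', h u v := by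
  have k1 : ∀ u, Continuous (h u) := fun u => by
    have := hc.comp (Continuous.prodMk_right u)
    exact this
  have k2 : ∀ p q : ℝ, Continuous (fun u => ∫ v in p..q, h u v) := fun p q =>
    intervalIntegral.continuous_parametric_intervalIntegral_of_continuous' hc p q
  calc (∫ u in a..b, ∫ v in c..d, h u v) ≤ ∫ u in a..b, ∫ v in c'..d', h u v := by
        refine intervalIntegral.integral_mono_on hab ((k2 c d).intervalIntegrable _ _)
          ((k2 c' d').intervalIntegrable _ _) fun u _ => ?_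
        exact intervalIntegral.integral_mono_interval hc' hcd hd
          (Eventually.of_forall fun v => hn u v) ((k1 u).intervalIntegrable _ _)
    _ ≤ ∫ u in a'..b', ∫ v in c'..d', h u v := by
        refine intervalIntegral.integral_mono_interval ha hab hb
          (Eventually.of_forall fun u => ?_) ((k2 c' d').intervalIntegrable _ _)
        exact intervalIntegral.integral_nonneg (hc'.trans (hcd.trans hd)) fun v _ => hn u v

/-- the integral over the square is at most the integral over the box -/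
lemma NZR_box (Y : ℕ) (a b K T x y r : ℝ) (hT : 0 < T - K) (hr : 0 < r) (h1 : a ≤ x - r)
    (h2 : x + r ≤ b) (h3 : T - K ≤ y - r) (h4 : y + r ≤ T + K) :
    (∫ u in (x - r)..(x + r), ∫ v in (y - r)..(y + r), ‖NZR_f Y (pt u v)‖ ^ 2) ≤
      bx (NZR_f Y) a b K T := by
  unfold bx
  have e1 : ∀ (p q : ℝ), T - K ≤ p → p ≤ q → ∀ u : ℝ,
      (∫ v in p..q, ‖NZR_f Y (pt u v)‖ ^ 2) =
        ∫ v in p..q, ‖NZR_f Y (pt u (max v (T - K)))‖ ^ 2 := by
    intro p q hp hpq u
    refine intervalIntegral.integral_congr fun v hv => ?_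
    rw [uIcc_of_le hpq] at hv
    have : max v (T - K) = v := max_eq_left (hp.trans hv.1)
    simp only [this]
  have e2 : ∀ u : ℝ, (∫ v in (y - r)..(y + r), ‖NZR_f Y (pt u v)‖ ^ 2) =
        ∫ v in (y - r)..(y + r), ‖NZR_f Y (pt u (max v (T - K)))‖ ^ 2 :=
    e1 _ _ h3 (by linarith)
  have e3 : ∀ u : ℝ, (∫ v in (T - K)..(T + K), ‖NZR_f Y (pt u v)‖ ^ 2) =
        ∫ v in (T - K)..(T + K), ‖NZR_f Y (pt u (max v (T - K)))‖ ^ 2 :=
    e1 _ _ le_rfl (by linarith)
  simp only [e2, e3]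
  exact NZR_mono (fun u v => ‖NZR_f Y (pt u (max v (T - K)))‖ ^ 2) (NZR_cont Y (T - K) hT)
    (fun _ _ => by positivity) _ _ _ _ _ _ _ _ h1 (by linarith) h2 h3 (by linarith) h4

theorem p_NZR (h1 : T_ZMO) (h2 : T_DSC) (h3 : T_MRK) : T_NZR := by
  intro e K he hK
  obtain ⟨CD, hCD, hD⟩ := h2
  set e' : ℝ := min e (1 / 4) with he'
  have he'0 : 0 < e' := lt_min he (by norm_num)
  have he'1 : e' ≤ 1 / 4 := min_le_right _ _
  have he'2 : e' ≤ e := min_le_left _ _
  obtain ⟨a, δ, C, ha0, ha1, hδ, hC, hZ⟩ := h1 (e' / 2) (by linarith) (by linarith)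
  set r : ℝ := e' / 4 with hr
  have hr0 : 0 < r := by rw [hr]; linarith
  have hr1 : r ≤ 1 / 16 := by rw [hr]; linarith
  set lam : ℝ := r ^ 2 / CD with hlam
  have hlam0 : 0 < lam := by positivity
  set C' : ℝ := 6 * (K + 1) * 3 * C / lam with hC'
  have hC'0 : 0 < C' := by positivity
  refine ⟨δ / 2, max (max 4 (2 * (K + 1))) (C' ^ (2 / δ)), by positivity, ?_, ?_⟩
  · exact le_trans (by norm_num) ((le_max_left (4 : ℝ) _).trans (le_max_left _ _))
  intro X hX
  have hX4 : (4 : ℝ) ≤ X := ((le_max_left (4 : ℝ) _).trans (le_max_left _ _)).trans hX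
  have hXK : 2 * (K + 1) ≤ X := ((le_max_right (4 : ℝ) _).trans (le_max_left _ _)).trans hX
  have hXC : C' ^ (2 / δ) ≤ X := (le_max_right _ _).trans hX
  have hX0 : 0 < X := by linarith
  have hCX : C' ≤ X ^ (δ / 2) := by
    have k1 : (C' ^ (2 / δ)) ^ (δ / 2) ≤ X ^ (δ / 2) :=
      Real.rpow_le_rpow (by positivity) hXC (by positivity)
    rw [← Real.rpow_mul hC'0.le, show 2 / δ * (δ / 2) = 1 by field_simp, Real.rpow_one] at k1
    exact k1
  set Y : ℕ := ⌊X ^ a⌋₊ with hY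
  have hV0 : (0 : ℝ) ≤ C * X ^ (1 - δ) := by positivity
  obtain ⟨B, hBm, hBs, hBv, hB⟩ := h3 (NZR_f Y) (1 / 2 + e' / 2) 3 (K + 1) X (C * X ^ (1 - δ)) lam
    (by linarith) (by linarith) hXK hlam0 hV0
    (fun s _ _ hs => (NZR_diff Y s (NZR_ne s (by linarith))).continuousAt)
    (fun x hx1 hx2 T hT => by
      refine hZ X T x hX4 ?_ ?_ hx1 hx2
      · rcases hT with h | h | h <;> rw [h] <;> linarith
      · rcases hT with h | h | h <;> rw [h] <;> linarith)
  refine ⟨B, hBm, hBs, hBv.trans (ENNReal.ofReal_le_ofReal ?_), ?_⟩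
  · calc 6 * (K + 1) * (3 - (1 / 2 + e' / 2)) * (C * X ^ (1 - δ)) / lam
        ≤ 6 * (K + 1) * 3 * (C * X ^ (1 - δ)) / lam := by
          gcongr
          linarith
      _ = C' * X ^ (1 - δ) := by rw [hC']; ring
      _ ≤ X ^ (δ / 2) * X ^ (1 - δ) := by gcongr
      _ = X ^ (1 - δ / 2) := by
          rw [← Real.rpow_add hX0]
          congr 1
          ring
  · intro T hT hTB s hsT hs
    by_cases hs1 : 1 ≤ s.re
    · exact riemannZeta_ne_zero_of_one_le_re hs1
    push Not at hs1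
    intro hz
    obtain ⟨hT1, hT2⟩ := abs_le.mp hsT
    have hTX : X ≤ T := hT.1
    have hf : NZR_f Y (pt s.re s.im) = -1 := by
      have : pt s.re s.im = s := by unfold pt; exact Complex.re_add_im s
      rw [this]
      unfold NZR_f
      rw [hz]
      ring
    have k1 := hD (NZR_f Y) s.re s.im r hr0 (fun w _ hw => by
      obtain ⟨hw1, hw2⟩ := abs_le.mp hw
      exact NZR_diff Y w (NZR_ne w (by linarith)))
    rw [hf] at k1
    have k2 := NZR_box Y (1 / 2 + e' / 2) 3 (K + 1) T s.re s.im r (by linarith) hr0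
      (by rw [hr]; linarith) (by linarith) (by linarith) (by linarith)
    have k3 := hB T hT hTB
    have k4 : CD * bx (NZR_f Y) (1 / 2 + e' / 2) 3 (K + 1) T < CD * lam :=
      mul_lt_mul_of_pos_left k3 hCD
    have k5 : CD * lam = r ^ 2 := by rw [hlam]; field_simp
    have k6 := mul_le_mul_of_nonneg_left k2 hCD.le
    simp only [norm_neg, norm_one, one_pow, mul_one] at k1
    linarith

end Pool.Agent.DBA
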