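import Pool.Agent.DBA.Targets

/-!
# DBA, block PLC: the mean square of the tail integral
-/

set_option autoImplicit false

namespace Pool.Agent.DBA

open Complex MeasureTheory Set Filter
open scoped FourierTransform ENNReal

namespace PLC_

/-- the function whose Fourier transform is the tail integral -/
noncomputable def g (x σ : ℝ) : ℝ → ℂ :=
  (Ioi (Real.log x)).indicator
    (fun w => (((1 - Int.fract (Real.exp w)) * Real.exp (-(σ * w)) : ℝ) : ℂ))

/-- the majorant -/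
noncomputable def m (x σ : ℝ) : ℝ → ℝ :=
  (Ioi (Real.log x)).indicator (fun w => Real.exp (-σ * w))

theorem g_meas (x σ : ℝ) : Measurable (g x σ) := by
  refine Measurable.indicator ?_ measurableSet_Ioi
  refine Complex.measurable_ofReal.comp ?_
  refine Measurable.mul ?_ ?_
  · exact measurable_const.sub (measurable_fract.comp Real.measurable_exp)
  · exact Real.measurable_exp.comp (measurable_const.mul measurable_id).neg

theorem g_le (x σ w : ℝ) : ‖g x σ w‖ ≤ m x σ w := by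
  unfold g m
  by_cases hw : w ∈ Ioi (Real.log x)
  · rw [indicator_of_mem hw, indicator_of_mem hw, Complex.norm_real, Real.norm_eq_abs, abs_mul,
      abs_of_pos (Real.exp_pos _), neg_mul]
    have h0 := Int.fract_nonneg (Real.exp w)
    have h1 := Int.fract_lt_one (Real.exp w)
    have h2 : |1 - Int.fract (Real.exp w)| ≤ 1 := by
      rw [abs_le]
      constructor <;> linarith
    nlinarith [Real.exp_pos (-(σ * w))]
  · rw [indicator_of_notMem hw, indicator_of_notMem hw, norm_zero]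

theorem m_int (x : ℝ) {σ : ℝ} (hσ : 0 < σ) : Integrable (m x σ) := by
  unfold m
  rw [integrable_indicator_iff measurableSet_Ioi]
  exact integrableOn_exp_mul_Ioi (by linarith) _

theorem m_nonneg (x σ w : ℝ) : 0 ≤ m x σ w :=
  indicator_nonneg (fun _ _ => (Real.exp_pos _).le) w

theorem m_sq (x σ w : ℝ) : m x σ w ^ 2 = m x (2 * σ) w := by
  unfold m
  by_cases hw : w ∈ Ioi (Real.log x)
  · rw [indicator_of_mem hw, indicator_of_mem hw, ← Real.exp_nat_mul]
    congr 1
    push_cast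
    ring
  · rw [indicator_of_notMem hw, indicator_of_notMem hw]
    ring

theorem g_int (x : ℝ) {σ : ℝ} (hσ : 0 < σ) : Integrable (g x σ) :=
  (m_int x hσ).mono' (g_meas x σ).aestronglyMeasurable (Eventually.of_forall (g_le x σ))

theorem g_sq_le (x σ w : ℝ) : ‖g x σ w‖ ^ 2 ≤ m x (2 * σ) w := by
  rw [← m_sq]
  exact pow_le_pow_left₀ (norm_nonneg _) (g_le x σ w) 2

theorem g_sq_int (x : ℝ) {σ : ℝ} (hσ : 0 < σ) : Integrable (fun w => ‖g x σ w‖ ^ 2) := by
  refine (m_int x (σ := 2 * σ) (by linarith)).mono'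
    ((g_meas x σ).norm.pow_const 2).aestronglyMeasurable (Eventually.of_forall fun w => ?_)
  rw [Real.norm_eq_abs, abs_of_nonneg (by positivity)]
  exact g_sq_le x σ w

theorem g_mem (x : ℝ) {σ : ℝ} (hσ : 0 < σ) : MemLp (g x σ) 2 :=
  (memLp_two_iff_integrable_sq_norm (g_meas x σ).aestronglyMeasurable).2 (g_sq_int x hσ)

theorem m_val (x : ℝ) (hx : 0 < x) {σ : ℝ} (hσ : 0 < σ) :
    ∫ w, m x (2 * σ) w = x ^ (-(2 * σ)) / (2 * σ) := by
  unfold m
  rw [integral_indicator measurableSet_Ioi, integral_exp_mul_Ioi (by linarith),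
    Real.rpow_def_of_pos hx, neg_div_neg_eq]
  congr 2
  ring

theorem planch {f : ℝ → ℂ} (h1 : Integrable f) (h2 : MemLp f 2) :
    ∫⁻ x, ‖𝓕 f x‖ₑ ^ 2 = ∫⁻ x, ‖f x‖ₑ ^ 2 := by
  have h := Pool.Agent.H25.Plancherel.eLpNorm_fourier_eq h1 h2
  rw [eLpNorm_eq_lintegral_rpow_enorm_toReal (by norm_num) (by norm_num),
    eLpNorm_eq_lintegral_rpow_enorm_toReal (by norm_num) (by norm_num)] at h
  have key2 := ENNReal.rpow_left_injective (x := 1 / (2 : ℝ≥0∞).toReal) (by norm_num) h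
  simpa only [ENNReal.toReal_ofNat, ENNReal.rpow_ofNat] using key2

theorem lint_sq (f : ℝ → ℂ) (hf : Integrable (fun w => ‖f w‖ ^ 2)) :
    ∫⁻ w, ‖f w‖ₑ ^ 2 = ENNReal.ofReal (∫ w, ‖f w‖ ^ 2) := by
  rw [ofReal_integral_eq_lintegral_ofReal hf (Eventually.of_forall fun w => by positivity)]
  refine lintegral_congr fun w => ?_
  rw [ENNReal.ofReal_pow (norm_nonneg _), ofReal_norm]

theorem four_cont {f : ℝ → ℂ} (h1 : Integrable f) : Continuous (𝓕 f) :=
  VectorFourier.fourierIntegral_continuous (V := ℝ) (W := ℝ)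
      Real.continuous_fourierChar (L := innerₗ ℝ) continuous_inner h1

theorem four_sq_int (x : ℝ) {σ : ℝ} (hσ : 0 < σ) :
    Integrable (fun w => ‖𝓕 (g x σ) w‖ ^ 2) := by
  have hm : AEStronglyMeasurable (fun w => ‖𝓕 (g x σ) w‖ ^ 2) volume :=
    ((four_cont (g_int x hσ)).norm.pow 2).aestronglyMeasurable
  refine ⟨hm, ?_⟩
  rw [hasFiniteIntegral_iff_enorm]
  have h1 : ∫⁻ w, ‖‖𝓕 (g x σ) w‖ ^ 2‖ₑ = ∫⁻ w, ‖𝓕 (g x σ) w‖ₑ ^ 2 := by
    refine lintegral_congr fun w => ?_
    rw [enorm_pow, enorm_norm]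
  rw [h1, planch (g_int x hσ) (g_mem x hσ), lint_sq _ (g_sq_int x hσ)]
  exact ENNReal.ofReal_lt_top

theorem four_sq (x : ℝ) {σ : ℝ} (hσ : 0 < σ) :
    ∫ w, ‖𝓕 (g x σ) w‖ ^ 2 = ∫ w, ‖g x σ w‖ ^ 2 := by
  have h := planch (g_int x hσ) (g_mem x hσ)
  rw [lint_sq _ (g_sq_int x hσ), lint_sq _ (four_sq_int x hσ)] at h
  have h1 : 0 ≤ ∫ w, ‖𝓕 (g x σ) w‖ ^ 2 := integral_nonneg fun w => by positivity
  have h2 : 0 ≤ ∫ w, ‖g x σ w‖ ^ 2 := integral_nonneg fun w => by positivity
  exact (ENNReal.ofReal_eq_ofReal_iff h1 h2).1 h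

theorem cpow_exp (w : ℝ) (z : ℂ) : ((Real.exp w : ℝ) : ℂ) ^ z = Complex.exp (w * z) := by
  rw [Complex.cpow_def_of_ne_zero (by exact_mod_cast (Real.exp_pos w).ne'),
    ← Complex.ofReal_log (Real.exp_pos w).le, Real.log_exp]

theorem RI_eq (x σ t : ℝ) (hx : 0 < x) :
    RI x (pt σ t) = 𝓕 (g x σ) (t / (2 * Real.pi)) := by
  have himg : Real.exp '' Ioi (Real.log x) = Ioi x := by
    ext y
    constructor
    · rintro ⟨w, hw, rfl⟩
      exact (Real.log_lt_iff_lt_exp hx).1 hw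
    · intro hy
      have hy0 : 0 < y := hx.trans hy
      exact ⟨Real.log y, Real.log_lt_log hx hy, Real.exp_log hy0⟩
  unfold RI
  rw [← himg, integral_image_eq_integral_abs_deriv_smul measurableSet_Ioi
    (fun w _ => (Real.hasDerivAt_exp w).hasDerivWithinAt) Real.exp_injective.injOn,
    Real.fourier_real_eq_integral_exp_smul, ← integral_indicator measurableSet_Ioi]
  refine integral_congr_ae (Eventually.of_forall fun w => ?_)
  simp only [g]
  by_cases hw : w ∈ Ioi (Real.log x)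
  · rw [indicator_of_mem hw, indicator_of_mem hw, abs_of_pos (Real.exp_pos _), cpow_exp,
      Complex.real_smul, smul_eq_mul]
    unfold pt
    have hpi : (2 * Real.pi) ≠ 0 := by positivity
    have e1 : -2 * Real.pi * w * (t / (2 * Real.pi)) = -(t * w) := by
      field_simp
    rw [e1]
    push_cast
    have e2 : Complex.exp ((w : ℂ) * (-((σ : ℂ) + (t : ℂ) * I) - 1)) * Complex.exp w =
        Complex.exp (-((t : ℂ) * w) * I) * Complex.exp (-((σ : ℂ) * w)) := by
      rw [← Complex.exp_add, ← Complex.exp_add]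
      congr 1
      ring
    linear_combination (1 - ((Int.fract (Real.exp w) : ℝ) : ℂ)) * e2
  · rw [indicator_of_notMem hw, indicator_of_notMem hw, smul_zero]

end PLC_

open PLC_ in
theorem p_PLC : T_PLC := by
  refine ⟨4 * Real.pi, by positivity, fun x σ T hx hσ hT => ?_⟩
  have hx0 : 0 < x := by linarith
  have hσ0 : 0 < σ := by linarith
  have hpi : 0 < 2 * Real.pi := by positivity
  have e1 : (∫ t in T..(2 * T), ‖RI x (pt σ t)‖ ^ 2) =
      ∫ t in T..(2 * T), (fun u => ‖𝓕 (g x σ) u‖ ^ 2) (t / (2 * Real.pi)) := by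
    refine intervalIntegral.integral_congr fun t _ => ?_
    simp only [RI_eq x σ t hx0]
  rw [e1, intervalIntegral.integral_comp_div (fun u => ‖𝓕 (g x σ) u‖ ^ 2) hpi.ne', smul_eq_mul]
  have hle : T / (2 * Real.pi) ≤ 2 * T / (2 * Real.pi) := by
    apply div_le_div_of_nonneg_right _ hpi.le
    linarith
  have e2 : (∫ u in (T / (2 * Real.pi))..(2 * T / (2 * Real.pi)), ‖𝓕 (g x σ) u‖ ^ 2) ≤
      ∫ u, ‖𝓕 (g x σ) u‖ ^ 2 := by
    rw [intervalIntegral.integral_of_le hle]
    exact setIntegral_le_integral (four_sq_int x hσ0) (Eventually.of_forall fun u => by positivity)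
  have e3 : ∫ w, ‖g x σ w‖ ^ 2 ≤ ∫ w, m x (2 * σ) w :=
    integral_mono (g_sq_int x hσ0) (m_int x (by linarith)) (g_sq_le x σ)
  rw [m_val x hx0 hσ0] at e3
  rw [four_sq x hσ0] at e2
  have e4 : x ^ (-(2 * σ)) / (2 * σ) ≤ 2 * x ^ (-(2 * σ)) := by
    rw [div_le_iff₀ (by linarith)]
    have := Real.rpow_nonneg hx0.le (-(2 * σ))
    nlinarith
  calc 2 * Real.pi * _ ≤ 2 * Real.pi * (2 * x ^ (-(2 * σ))) :=
        mul_le_mul_of_nonneg_left (e2.trans (e3.trans e4)) hpi.le
    _ = 4 * Real.pi * x ^ (-(2 * σ)) := by ring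

end Pool.Agent.DBA
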