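import Pool.Agent.DBA.Targets

/-!
# DBA-REM: mean square of zeta minus a Dirichlet polynomial
-/

set_option autoImplicit false

namespace Pool.Agent.DBA

open Complex MeasureTheory Set Filter

namespace REM_

theorem pt_re (x y : ℝ) : (pt x y).re = x := by
  unfold pt
  simp

theorem pt_im (x y : ℝ) : (pt x y).im = y := by
  unfold pt
  simp

theorem cont_pt (x : ℝ) : Continuous (fun y : ℝ => pt x y) := by
  unfold pt
  fun_prop

theorem cont_Dp (N : ℕ) : Continuous (Dp N) := by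
  unfold Dp
  refine continuous_finsetSum _ fun n hn => ?_
  refine Continuous.const_cpow continuous_neg (Or.inl ?_)
  rw [Finset.mem_Icc] at hn
  exact_mod_cast (by omega : n ≠ 0)

theorem ne_one {σ t : ℝ} (ht : 1 ≤ t) : pt σ t ≠ 1 := by
  intro h
  have := congrArg Complex.im h
  rw [pt_im, Complex.one_im] at this
  linarith

/-- powers of a number between `T` and `9 T` -/
theorem pow_le (x T a : ℝ) (hT : 1 ≤ T) (h1 : T ≤ x) (h2 : x ≤ 9 * T) (ha : a ≤ 2) :
    x ^ a ≤ 81 * T ^ a := by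
  have hT0 : 0 < T := by linarith
  have hx0 : 0 < x := by linarith
  by_cases h : 0 ≤ a
  · calc x ^ a ≤ (9 * T) ^ a := Real.rpow_le_rpow hx0.le h2 h
      _ = 9 ^ a * T ^ a := Real.mul_rpow (by norm_num) hT0.le
      _ ≤ 81 * T ^ a := by
        refine mul_le_mul_of_nonneg_right ?_ (by positivity)
        calc (9 : ℝ) ^ a ≤ 9 ^ (2 : ℝ) := Real.rpow_le_rpow_of_exponent_le (by norm_num) ha
          _ = 81 := by norm_num
  · have h3 : x ^ a ≤ T ^ a := Real.rpow_le_rpow_of_nonpos hT0 h1 (by linarith)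
    have h4 : 0 ≤ T ^ a := by positivity
    linarith

end REM_

open REM_ in
theorem p_REM (h1 : T_EMF) (h2 : T_PLC) : T_REM := by
  obtain ⟨C, hC, hP⟩ := h2
  refine ⟨162 + 50 * C, by positivity, ?_⟩
  intro T σ N hT hTN hN8 hσ hσ3
  have hT0 : 0 < T := by linarith
  have hTT : T ≤ 2 * T := by linarith
  have hN0 : 0 < (N : ℝ) + 1 := by positivity
  have hN9 : (N : ℝ) + 1 ≤ 9 * T := by linarith
  have hTN1 : T ≤ (N : ℝ) + 1 := by linarith
  have hne : ∀ t ∈ Icc T (2 * T), pt σ t ≠ 1 := fun t ht => ne_one (hT.trans ht.1)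
  have hne0 : ∀ t ∈ Icc T (2 * T), pt σ t ≠ 0 := by
    intro t ht h
    have := congrArg Complex.re h
    rw [pt_re, Complex.zero_re] at this
    linarith
  -- continuity
  have cζ : ContinuousOn (fun t : ℝ => riemannZeta (pt σ t)) (Icc T (2 * T)) := fun t ht =>
    ((differentiableAt_riemannZeta (hne t ht)).continuousAt.comp
      (cont_pt σ).continuousAt).continuousWithinAt
  have cD : ContinuousOn (fun t : ℝ => Dp N (pt σ t)) (Icc T (2 * T)) :=
    ((cont_Dp N).comp (cont_pt σ)).continuousOn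
  have cA : ContinuousOn (fun t : ℝ => (((N : ℝ) + 1 : ℝ) : ℂ) ^ (1 - pt σ t) /
      (pt σ t - 1)) (Icc T (2 * T)) := by
    refine ContinuousOn.div ?_ ((cont_pt σ).sub continuous_const).continuousOn ?_
    · refine (Continuous.const_cpow (continuous_const.sub (cont_pt σ)) (Or.inl ?_)).continuousOn
      exact_mod_cast hN0.ne'
    · intro t ht
      exact sub_ne_zero.mpr (hne t ht)
  have hEM : ∀ t ∈ Icc T (2 * T), riemannZeta (pt σ t) - Dp N (pt σ t) =
      (((N : ℝ) + 1 : ℝ) : ℂ) ^ (1 - pt σ t) / (pt σ t - 1) +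
        pt σ t * RI ((N : ℝ) + 1) (pt σ t) := by
    intro t ht
    have := h1 (pt σ t) N (by rw [pt_re]; linarith) (hne t ht)
    rw [this]
    ring
  have cR : ContinuousOn (fun t : ℝ => RI ((N : ℝ) + 1) (pt σ t)) (Icc T (2 * T)) := by
    have c1 : ContinuousOn (fun t : ℝ => ((riemannZeta (pt σ t) - Dp N (pt σ t)) -
        (((N : ℝ) + 1 : ℝ) : ℂ) ^ (1 - pt σ t) / (pt σ t - 1)) / pt σ t) (Icc T (2 * T)) :=
      ((cζ.sub cD).sub cA).div (cont_pt σ).continuousOn hne0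
    refine c1.congr fun t ht => ?_
    have h3 := hne0 t ht
    simp only
    rw [hEM t ht, add_sub_cancel_left, mul_div_cancel_left₀ _ h3]
  -- the pointwise bound
  have hpt : ∀ t ∈ Icc T (2 * T), ‖riemannZeta (pt σ t) - Dp N (pt σ t)‖ ^ 2 ≤
      2 * (((N : ℝ) + 1) ^ (2 - 2 * σ) / T ^ 2) +
        50 * T ^ 2 * ‖RI ((N : ℝ) + 1) (pt σ t)‖ ^ 2 := by
    intro t ht
    rw [hEM t ht]
    have e1 : ‖(((N : ℝ) + 1 : ℝ) : ℂ) ^ (1 - pt σ t) / (pt σ t - 1)‖ ^ 2 ≤
        ((N : ℝ) + 1) ^ (2 - 2 * σ) / T ^ 2 := by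
      rw [norm_div, Complex.norm_cpow_eq_rpow_re_of_pos hN0, div_pow]
      have e2 : (1 - pt σ t).re = 1 - σ := by
        rw [Complex.sub_re, Complex.one_re, pt_re]
      have e3 : T ≤ ‖pt σ t - 1‖ := by
        have e4 := Complex.abs_im_le_norm (pt σ t - 1)
        rw [Complex.sub_im, Complex.one_im, pt_im, sub_zero] at e4
        exact (ht.1.trans (le_abs_self t)).trans e4
      rw [e2, ← Real.rpow_natCast (((N : ℝ) + 1) ^ (1 - σ)) 2, ← Real.rpow_mul hN0.le]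
      have e5 : (1 - σ) * ((2 : ℕ) : ℝ) = 2 - 2 * σ := by
        push_cast
        ring
      rw [e5]
      refine div_le_div_of_nonneg_left (by positivity) (by positivity) ?_
      exact pow_le_pow_left₀ hT0.le e3 2
    have e6 : ‖pt σ t * RI ((N : ℝ) + 1) (pt σ t)‖ ^ 2 ≤
        25 * T ^ 2 * ‖RI ((N : ℝ) + 1) (pt σ t)‖ ^ 2 := by
      rw [norm_mul, mul_pow]
      refine mul_le_mul_of_nonneg_right ?_ (by positivity)
      have e7 : ‖pt σ t‖ ≤ 5 * T := by
        refine (Complex.norm_le_abs_re_add_abs_im _).trans ?_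
        rw [pt_re, pt_im, abs_of_nonneg (by linarith), abs_of_nonneg (by linarith [ht.1])]
        linarith [ht.2]
      calc ‖pt σ t‖ ^ 2 ≤ (5 * T) ^ 2 := pow_le_pow_left₀ (norm_nonneg _) e7 2
        _ = 25 * T ^ 2 := by ring
    have e8 := norm_add_le ((((N : ℝ) + 1 : ℝ) : ℂ) ^ (1 - pt σ t) / (pt σ t - 1))
      (pt σ t * RI ((N : ℝ) + 1) (pt σ t))
    have e9 : ∀ u a b : ℝ, 0 ≤ u → u ≤ a + b → u ^ 2 ≤ 2 * a ^ 2 + 2 * b ^ 2 := by
      intro u a b hu hab
      nlinarith [sq_nonneg (a - b), mul_self_le_mul_self hu hab]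
    have e10 := e9 _ _ _ (norm_nonneg _) e8
    linarith
  have hPC := hP ((N : ℝ) + 1) σ T (by linarith) hσ hT0.le
  have uI : uIcc T (2 * T) = Icc T (2 * T) := uIcc_of_le hTT
  have i1 : IntervalIntegrable (fun t : ℝ => ‖riemannZeta (pt σ t) - Dp N (pt σ t)‖ ^ 2)
      volume T (2 * T) := by
    refine ContinuousOn.intervalIntegrable ?_
    rw [uI]
    exact ((cζ.sub cD).norm).pow 2
  have i2 : IntervalIntegrable (fun t : ℝ => 50 * T ^ 2 * ‖RI ((N : ℝ) + 1) (pt σ t)‖ ^ 2)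
      volume T (2 * T) := by
    refine ContinuousOn.intervalIntegrable ?_
    rw [uI]
    exact continuousOn_const.mul (cR.norm.pow 2)
  have i3 : IntervalIntegrable (fun _ : ℝ => 2 * (((N : ℝ) + 1) ^ (2 - 2 * σ) / T ^ 2))
      volume T (2 * T) := intervalIntegrable_const
  have hm := intervalIntegral.integral_mono_on hTT i1 (i3.add i2) hpt
  refine hm.trans ?_
  rw [intervalIntegral.integral_add i3 i2, intervalIntegral.integral_const,
    intervalIntegral.integral_const_mul, smul_eq_mul]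
  have b1 : ((N : ℝ) + 1) ^ (2 - 2 * σ) ≤ 81 * T ^ (2 - 2 * σ) :=
    pow_le _ T _ hT hTN1 hN9 (by linarith)
  have b2 : ((N : ℝ) + 1) ^ (-(2 * σ)) ≤ T ^ (-(2 * σ)) :=
    Real.rpow_le_rpow_of_nonpos hT0 hTN1 (by linarith)
  have b3 : T ^ 2 * T ^ (-(2 * σ)) = T ^ (2 - 2 * σ) := by
    rw [← Real.rpow_natCast T 2, ← Real.rpow_add hT0]
    congr 1
  have b4 : (2 * T - T) * (2 * (((N : ℝ) + 1) ^ (2 - 2 * σ) / T ^ 2)) ≤
      162 * T ^ (2 - 2 * σ) := by
    have b5 : (2 * T - T) * (2 * (((N : ℝ) + 1) ^ (2 - 2 * σ) / T ^ 2)) =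
        2 * ((N : ℝ) + 1) ^ (2 - 2 * σ) / T := by
      field_simp
      ring
    rw [b5, div_le_iff₀ hT0]
    have b6 : 0 ≤ T ^ (2 - 2 * σ) := by positivity
    nlinarith [mul_le_mul_of_nonneg_left hT b6]
  have b7 : 50 * T ^ 2 * ∫ t in T..(2 * T), ‖RI ((N : ℝ) + 1) (pt σ t)‖ ^ 2 ≤
      50 * C * T ^ (2 - 2 * σ) := by
    have b8 : 50 * T ^ 2 * ∫ t in T..(2 * T), ‖RI ((N : ℝ) + 1) (pt σ t)‖ ^ 2 ≤
        50 * T ^ 2 * (C * T ^ (-(2 * σ))) := by
      refine mul_le_mul_of_nonneg_left (hPC.trans ?_) (by positivity)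
      exact mul_le_mul_of_nonneg_left b2 hC.le
    refine b8.trans (le_of_eq ?_)
    rw [← b3]
    ring
  linarith

end Pool.Agent.DBA
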