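import Pool.Agent.DBA.Targets

/-! # DBA, target SMA: at almost all heights zeta is small -/

set_option autoImplicit false

namespace Pool.Agent.DBA

open Complex MeasureTheory Set Filter

namespace SMA_

/-- a bound in the half-plane `Re s ≥ 2` -/
lemma zeta_upper {s : ℂ} (hs2 : 2 ≤ s.re) : ‖riemannZeta s‖ ≤ 2 := by
  have hs : (1 : ℝ) < s.re := by linarith
  have hterm : ∀ n : ℕ, ‖(1 : ℂ) / ((n : ℂ) + 1) ^ s‖ ≤ 1 / ((n : ℝ) + 1) ^ 2 := by
    intro n
    have h1 : ((n : ℂ) + 1) = (((n : ℝ) + 1 : ℝ) : ℂ) := by push_cast; ring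
    have hpos : (0 : ℝ) < (n : ℝ) + 1 := by positivity
    have h1' : (1 : ℝ) ≤ (n : ℝ) + 1 := by
      have : (0 : ℝ) ≤ n := Nat.cast_nonneg n
      linarith
    rw [norm_div, norm_one, h1, Complex.norm_cpow_eq_rpow_re_of_pos hpos]
    apply one_div_le_one_div_of_le (by positivity)
    calc ((n : ℝ) + 1) ^ 2 = ((n : ℝ) + 1) ^ (2 : ℝ) := by norm_num
      _ ≤ ((n : ℝ) + 1) ^ s.re := Real.rpow_le_rpow_of_exponent_le h1' hs2
  rw [zeta_eq_tsum_one_div_nat_add_one_cpow hs]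
  have hz := hasSum_zeta_two
  have hsq : Summable (fun n : ℕ => 1 / ((n : ℝ) + 1) ^ 2) := by
    have h := (summable_nat_add_iff 1).2 hz.summable
    refine h.congr ?_
    intro n
    push_cast
    rfl
  have hsum0 : Summable (fun n : ℕ => ‖(1 : ℂ) / ((n : ℂ) + 1) ^ s‖) :=
    Summable.of_nonneg_of_le (fun n => norm_nonneg _) hterm hsq
  have hval : ∑' n : ℕ, 1 / ((n : ℝ) + 1) ^ 2 = Real.pi ^ 2 / 6 := by
    have h1 := hz.tsum_eq
    rw [hz.summable.tsum_eq_zero_add] at h1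
    simp only [Nat.cast_zero, ne_eq, OfNat.ofNat_ne_zero, not_false_eq_true, zero_pow, div_zero,
      zero_add, Nat.cast_add, Nat.cast_one] at h1
    exact h1
  refine (norm_tsum_le_tsum_norm hsum0).trans ((hsum0.tsum_le_tsum hterm hsq).trans ?_)
  rw [hval]
  have h1 := Real.pi_lt_d2
  have h2 := Real.pi_pos
  nlinarith

lemma pt_re (x y : ℝ) : (pt x y).re = x := by simp [pt]

lemma pt_im (x y : ℝ) : (pt x y).im = y := by simp [pt]

lemma cont_pt : Continuous (fun z : ℝ × ℝ => pt z.1 z.2) := by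
  unfold pt
  fun_prop

/-- the integral over a small box is at most the integral over a large box -/
lemma box_mono (g : ℂ → ℂ) (a b c d a' b' c' d' : ℝ) (ha : a ≤ a') (hab : a' ≤ b')
    (hb : b' ≤ b) (hc : c ≤ c') (hcd : c' ≤ d') (hd : d' ≤ d)
    (hg : ∀ s : ℂ, a ≤ s.re → s.re ≤ b → c ≤ s.im → s.im ≤ d → ContinuousAt g s) :
    (∫ u in a'..b', ∫ v in c'..d', ‖g (pt u v)‖ ^ 2) ≤
      ∫ u in a..b, ∫ v in c..d, ‖g (pt u v)‖ ^ 2 := by
  have hF : ContinuousOn (fun z : ℝ × ℝ => ‖g (pt z.1 z.2)‖ ^ 2) (Icc a b ×ˢ Icc c d) := by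
    intro z hz
    have h1 : ContinuousAt g (pt z.1 z.2) := by
      apply hg
      · rw [pt_re]; exact hz.1.1
      · rw [pt_re]; exact hz.1.2
      · rw [pt_im]; exact hz.2.1
      · rw [pt_im]; exact hz.2.2
    have h2 : ContinuousAt (fun z : ℝ × ℝ => g (pt z.1 z.2)) z :=
      ContinuousAt.comp (f := fun z : ℝ × ℝ => pt z.1 z.2) (g := g) h1 cont_pt.continuousAt
    exact (h2.norm.pow 2).continuousWithinAt
  have hint : IntegrableOn (fun z : ℝ × ℝ => ‖g (pt z.1 z.2)‖ ^ 2) (Icc a b ×ˢ Icc c d)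
      (volume.prod volume) := by
    rw [← Measure.volume_eq_prod]
    exact hF.integrableOn_compact (isCompact_Icc.prod isCompact_Icc)
  have hint2 : IntegrableOn (fun z : ℝ × ℝ => ‖g (pt z.1 z.2)‖ ^ 2) (Ioc a b ×ˢ Ioc c d)
      (volume.prod volume) :=
    hint.mono_set (prod_mono Ioc_subset_Icc_self Ioc_subset_Icc_self)
  have hss : Ioc a' b' ×ˢ Ioc c' d' ⊆ Ioc a b ×ˢ Ioc c d :=
    prod_mono (Ioc_subset_Ioc ha hb) (Ioc_subset_Ioc hc hd)
  have hint1 : IntegrableOn (fun z : ℝ × ℝ => ‖g (pt z.1 z.2)‖ ^ 2) (Ioc a' b' ×ˢ Ioc c' d')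
      (volume.prod volume) := hint2.mono_set hss
  have e1 : (∫ u in a'..b', ∫ v in c'..d', ‖g (pt u v)‖ ^ 2) =
      ∫ z in Ioc a' b' ×ˢ Ioc c' d', ‖g (pt z.1 z.2)‖ ^ 2 ∂(volume.prod volume) := by
    rw [setIntegral_prod _ hint1, intervalIntegral.integral_of_le hab]
    simp only [intervalIntegral.integral_of_le hcd]
  have e2 : (∫ u in a..b, ∫ v in c..d, ‖g (pt u v)‖ ^ 2) =
      ∫ z in Ioc a b ×ˢ Ioc c d, ‖g (pt z.1 z.2)‖ ^ 2 ∂(volume.prod volume) := by
    rw [setIntegral_prod _ hint2, intervalIntegral.integral_of_le (by linarith)]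
    simp only [intervalIntegral.integral_of_le (show c ≤ d by linarith)]
  rw [e1, e2]
  refine setIntegral_mono_set hint2 ?_ (HasSubset.Subset.eventuallyLE hss)
  exact Eventually.of_forall fun z => by positivity

/-- large `X` for a power -/
lemma large (C p : ℝ) (hp : 0 < p) : ∃ X₀ : ℝ, 1 ≤ X₀ ∧ ∀ X : ℝ, X₀ ≤ X → C ≤ X ^ p := by
  have h1 := (tendsto_rpow_atTop hp).eventually_ge_atTop C
  obtain ⟨X₁, hX₁⟩ := eventually_atTop.1 h1
  exact ⟨max X₁ 1, le_max_right _ _, fun X hX => hX₁ X ((le_max_left _ _).trans hX)⟩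

lemma cont_zeta (s : ℂ) (h : 0 < s.im) : DifferentiableAt ℂ riemannZeta s := by
  apply differentiableAt_riemannZeta
  intro h1
  rw [h1] at h
  simp at h

end SMA_

open SMA_

theorem p_SMA (h1 : T_ZMS) (h2 : T_DSC) (h3 : T_MRK) : T_SMA := by
  intro e K he hK
  obtain ⟨C1, hC1, hZ⟩ := h1 (e / 4) (by linarith)
  obtain ⟨C2, hC2, hD⟩ := h2
  set r : ℝ := min (e / 4) (1 / 8) with hr
  have hr0 : 0 < r := lt_min (by linarith) (by norm_num)
  have hr1 : r ≤ e / 4 := min_le_left _ _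
  have hr2 : r ≤ 1 / 8 := min_le_right _ _
  set a : ℝ := 1 / 2 - 2 * r with ha
  have ha1 : 1 / 4 ≤ a := by rw [ha]; linarith
  have ha3 : a ≤ 3 := by rw [ha]; linarith
  set K1 : ℝ := K + 1 with hK1
  have hK10 : 0 < K1 := by rw [hK1]; linarith
  -- the constant
  set κ : ℝ := 1 + 5 * e / 4 with hκ
  set C3 : ℝ := 6 * K1 * (3 - a) * (C1 * 2 ^ κ) * C2 / r ^ 2 with hC3
  obtain ⟨X1, hX11, hX1⟩ := large C3 (e / 4) (by linarith)
  obtain ⟨X2, hX21, hX2⟩ := large 2 e he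
  refine ⟨r, e / 2, max (max X1 X2) (max 2 (2 * K1 + 2)), hr0, by linarith,
    (le_max_left _ _).trans (le_max_right _ _), ?_⟩
  intro X hX
  have hXa : X1 ≤ X := ((le_max_left _ _).trans (le_max_left _ _)).trans hX
  have hXb : X2 ≤ X := ((le_max_right _ _).trans (le_max_left _ _)).trans hX
  have hXc : 2 ≤ X := ((le_max_left _ _).trans (le_max_right _ _)).trans hX
  have hXd : 2 * K1 + 2 ≤ X := ((le_max_right _ _).trans (le_max_right _ _)).trans hX
  have hX0 : 0 < X := by linarith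
  set lam : ℝ := r ^ 2 * X ^ (2 * e) / C2 with hlam
  have hlam0 : 0 < lam := by positivity
  set V : ℝ := C1 * (2 * X) ^ κ with hV
  have hV0 : 0 ≤ V := by positivity
  have hcont : ∀ s : ℂ, a ≤ s.re → s.re ≤ 3 → X / 2 ≤ s.im → ContinuousAt riemannZeta s := by
    intro s _ _ h6
    exact (cont_zeta s (by linarith)).continuousAt
  have hbd : ∀ x, a ≤ x → x ≤ 3 → ∀ T, (T = X / 2 ∨ T = X ∨ T = 2 * X) →
      (∫ t in T..(2 * T), ‖riemannZeta (pt x t)‖ ^ 2) ≤ V := by
    intro x hx1 hx3 T hT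
    have hT1 : 1 ≤ T := by rcases hT with h | h | h <;> rw [h] <;> linarith
    have hT2 : T ≤ 2 * X := by rcases hT with h | h | h <;> rw [h] <;> linarith
    refine (hZ T x hT1 (by linarith) hx3).trans ?_
    rw [hV]
    refine mul_le_mul_of_nonneg_left ?_ hC1.le
    have e1 : 1 + 2 * max 0 (1 / 2 - x) + e / 4 ≤ κ := by
      have e2 : max 0 (1 / 2 - x) ≤ 2 * r := max_le (by linarith) (by rw [ha] at hx1; linarith)
      rw [hκ]
      linarith
    calc T ^ (1 + 2 * max 0 (1 / 2 - x) + e / 4) ≤ T ^ κ :=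
          Real.rpow_le_rpow_of_exponent_le hT1 e1
      _ ≤ (2 * X) ^ κ := Real.rpow_le_rpow (by linarith) hT2 (by rw [hκ]; linarith)
  obtain ⟨B, hBm, hBs, hBv, hB⟩ := h3 riemannZeta a 3 K1 X V lam ha3 hK10 (by linarith) hlam0 hV0
    hcont hbd
  refine ⟨B, hBm, hBs, hBv.trans (ENNReal.ofReal_le_ofReal ?_), ?_⟩
  · -- the measure
    have e1 : 6 * K1 * (3 - a) * V / lam = C3 * X ^ (κ - 2 * e) := by
      rw [hV, hlam, hC3, Real.mul_rpow (by norm_num) hX0.le, Real.rpow_sub hX0]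
      have hXe : X ^ (2 * e) ≠ 0 := (Real.rpow_pos_of_pos hX0 _).ne'
      field_simp
    rw [e1]
    calc C3 * X ^ (κ - 2 * e) ≤ X ^ (e / 4) * X ^ (κ - 2 * e) :=
          mul_le_mul_of_nonneg_right (hX1 X hXa) (by positivity)
      _ = X ^ (1 - e / 2) := by
          rw [← Real.rpow_add hX0]
          congr 1
          rw [hκ]
          ring
  · intro T hT hTB s hs1 hs2
    rcases le_total 2 s.re with h5 | h5
    · exact (zeta_upper h5).trans (hX2 X hXb)
    have hlt := hB T hT hTB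
    have him := abs_le.1 hs1
    have hs3 : s = pt s.re s.im := by simp [pt]
    have hdiff : ∀ w : ℂ, |w.re - s.re| ≤ r → |w.im - s.im| ≤ r →
        DifferentiableAt ℂ riemannZeta w := by
      intro w _ hw
      have hw' := abs_le.1 hw
      exact cont_zeta w (by linarith [hT.1])
    have hmain := hD riemannZeta s.re s.im r hr0 hdiff
    have hbox : (∫ u in (s.re - r)..(s.re + r), ∫ v in (s.im - r)..(s.im + r),
        ‖riemannZeta (pt u v)‖ ^ 2) ≤ bx riemannZeta a 3 K1 T := by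
      unfold bx
      refine box_mono riemannZeta a 3 (T - K1) (T + K1) _ _ _ _ ?_ ?_ ?_ ?_ ?_ ?_ ?_
      · rw [ha]; linarith
      · linarith
      · linarith
      · rw [hK1]; linarith
      · linarith
      · rw [hK1]; linarith
      · intro w _ _ hw _
        exact (cont_zeta w (by linarith [hT.1])).continuousAt
    have e1 : r ^ 2 * ‖riemannZeta (pt s.re s.im)‖ ^ 2 < r ^ 2 * X ^ (2 * e) := by
      calc r ^ 2 * ‖riemannZeta (pt s.re s.im)‖ ^ 2 ≤ C2 * bx riemannZeta a 3 K1 T :=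
            hmain.trans (mul_le_mul_of_nonneg_left hbox hC2.le)
        _ < C2 * lam := mul_lt_mul_of_pos_left hlt hC2
        _ = r ^ 2 * X ^ (2 * e) := by rw [hlam]; field_simp
    rw [← hs3] at e1
    have e2 : ‖riemannZeta s‖ ^ 2 ≤ (X ^ e) ^ 2 := by
      have e3 : (X ^ e) ^ 2 = X ^ (2 * e) := by
        rw [← Real.rpow_natCast, ← Real.rpow_mul hX0.le]
        congr 1
        push_cast
        ring
      rw [e3]
      exact (lt_of_mul_lt_mul_left e1 (by positivity)).le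
    exact (pow_le_pow_iff_left₀ (norm_nonneg _) (by positivity) (by norm_num)).1 e2

end Pool.Agent.DBA
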