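import Pool.Agent.DBA.Targets

/-!
# The mean square of `ζ M - 1` (target ZMO)
-/

set_option autoImplicit false

namespace Pool.Agent.DBA

open Complex MeasureTheory Set Filter

namespace ZMO_

theorem pt_re (σ t : ℝ) : (pt σ t).re = σ := by simp [pt]

theorem pt_im (σ t : ℝ) : (pt σ t).im = t := by simp [pt]

theorem cont_pt (σ : ℝ) : Continuous (fun t : ℝ => pt σ t) := by
  unfold pt
  fun_prop

theorem cont_pow (σ : ℝ) {n : ℕ} (hn : 1 ≤ n) :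
    Continuous (fun t : ℝ => (n : ℂ) ^ (-(pt σ t))) := by
  have hn' : (n : ℂ) ≠ 0 := by
    have h : n ≠ 0 := by omega
    exact_mod_cast h
  exact (cont_pt σ).neg.const_cpow (Or.inl hn')

theorem cont_D (N : ℕ) (σ : ℝ) : Continuous (fun t : ℝ => Dp N (pt σ t)) := by
  unfold Dp
  exact continuous_finsetSum _ fun n hn => cont_pow σ (Finset.mem_Icc.1 hn).1

theorem cont_M (Y : ℕ) (σ : ℝ) : Continuous (fun t : ℝ => Mp Y (pt σ t)) := by
  unfold Mp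
  exact continuous_finsetSum _ fun n hn =>
    continuous_const.mul (cont_pow σ (Finset.mem_Icc.1 hn).1)

theorem cont_Z (σ : ℝ) {T : ℝ} (hT : 1 ≤ T) :
    ContinuousOn (fun t : ℝ => riemannZeta (pt σ t)) (Icc T (2 * T)) := by
  intro t ht
  have h1 : pt σ t ≠ 1 := by
    intro h
    have h2 : (pt σ t).im = 0 := by rw [h]; rfl
    rw [pt_im] at h2
    linarith [ht.1]
  exact ((differentiableAt_riemannZeta h1).continuousAt.comp
    (cont_pt σ).continuousAt).continuousWithinAt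

theorem norm_pow (σ t : ℝ) {n : ℕ} (hn : 1 ≤ n) :
    ‖(n : ℂ) ^ (-(pt σ t))‖ = (n : ℝ) ^ (-σ) := by
  rw [Complex.norm_natCast_cpow_of_pos (by omega), neg_re, pt_re]

theorem norm_M (Y : ℕ) (σ t : ℝ) (hσ : 0 ≤ σ) : ‖Mp Y (pt σ t)‖ ≤ Y := by
  unfold Mp
  refine (norm_sum_le _ _).trans ?_
  have h1 : ∀ n ∈ Finset.Icc 1 Y, ‖((ArithmeticFunction.moebius n : ℤ) : ℂ) *
      (n : ℂ) ^ (-(pt σ t))‖ ≤ 1 := by
    intro n hn
    have hn1 := (Finset.mem_Icc.1 hn).1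
    rw [norm_mul, norm_pow σ t hn1, Complex.norm_intCast]
    have h2 : |((ArithmeticFunction.moebius n : ℤ) : ℝ)| ≤ 1 := by
      have h := ArithmeticFunction.abs_moebius_le_one (n := n)
      exact_mod_cast h
    have h3 : (n : ℝ) ^ (-σ) ≤ 1 :=
      Real.rpow_le_one_of_one_le_of_nonpos (by exact_mod_cast hn1) (by linarith)
    calc |((ArithmeticFunction.moebius n : ℤ) : ℝ)| * (n : ℝ) ^ (-σ) ≤ 1 * 1 :=
          mul_le_mul h2 h3 (Real.rpow_nonneg (Nat.cast_nonneg _) _) zero_le_one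
      _ = 1 := one_mul 1
  refine (Finset.sum_le_sum h1).trans ?_
  rw [Finset.sum_const, Nat.card_Icc, nsmul_eq_mul, mul_one]
  simp

theorem split_pow (σ t : ℝ) {n : ℕ} (hn : 1 ≤ n) :
    (n : ℂ) ^ (-(pt σ t)) = (((n : ℝ) ^ (-σ) : ℝ) : ℂ) * (n : ℂ) ^ (-((t : ℂ) * I)) := by
  have hn' : (n : ℂ) ≠ 0 := by
    have h : n ≠ 0 := by omega
    exact_mod_cast h
  have e : -(pt σ t) = ((-σ : ℝ) : ℂ) + -((t : ℂ) * I) := by
    unfold pt
    push_cast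
    ring
  rw [e, Complex.cpow_add _ _ hn', Complex.ofReal_cpow (Nat.cast_nonneg n)]
  simp

/-- the coefficients of `D M - 1` -/
noncomputable def cf (N Y : ℕ) (σ : ℝ) (n : ℕ) : ℝ :=
  if n = 1 then 0 else (bc N Y n : ℝ) * (n : ℝ) ^ (-σ)

theorem DM_eq (h3 : T_BCO) {N Y : ℕ} (hN : 1 ≤ N) (hY : 1 ≤ Y) (σ t : ℝ) :
    Dp N (pt σ t) * Mp Y (pt σ t) - 1 =
      ∑ n ∈ Finset.Icc 1 (N * Y), (cf N Y σ n : ℂ) * (n : ℂ) ^ (-((t : ℂ) * I)) := by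
  have h1 : (1 : ℂ) = ∑ n ∈ Finset.Icc 1 (N * Y), if n = 1 then (1 : ℂ) else 0 := by
    rw [Finset.sum_ite_eq', if_pos]
    exact Finset.mem_Icc.2 ⟨le_rfl, Nat.mul_pos hN hY⟩
  rw [h3.1 N Y (pt σ t)]
  conv_lhs => rw [h1]
  rw [← Finset.sum_sub_distrib]
  refine Finset.sum_congr rfl fun n hn => ?_
  have hn1 := (Finset.mem_Icc.1 hn).1
  unfold cf
  by_cases h : n = 1
  · subst h
    rw [if_pos rfl, if_pos rfl, h3.2.1 N Y hN hY]
    simp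
  · rw [if_neg h, if_neg h, split_pow σ t hn1]
    push_cast
    ring

/-- the bound for the coefficients -/
theorem cf_bound (h3 : T_BCO) {η C3 X T σ : ℝ} (hη : 0 < η) (hη4 : η ≤ 1 / 4) (hC3 : 0 < C3)
    (hC : ∀ N Y n : ℕ, 1 ≤ n → |(bc N Y n : ℝ)| ≤ C3 * (n : ℝ) ^ (η / 4))
    (hX : 4 ≤ X) (hXT : X ≤ 4 * T) (hTX : T ≤ 4 * X) (hσ : 1 / 2 + η ≤ σ) {N : ℕ}
    (hN : (N : ℝ) ≤ 8 * T) (hYN : ⌊X ^ (η / 4)⌋₊ ≤ N) (n : ℕ) (hn1 : 1 ≤ n)
    (hn : n ≤ N * ⌊X ^ (η / 4)⌋₊) :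
    cf N ⌊X ^ (η / 4)⌋₊ σ n ^ 2 * n * (T + n) ≤ 36 * C3 ^ 2 * X ^ (1 - 3 * η ^ 2 / 8) := by
  have hX0 : 0 < X := by linarith
  have hX1 : 1 ≤ X := by linarith
  have hT0 : 0 < T := by linarith
  have hHn : 0 ≤ 36 * C3 ^ 2 * X ^ (1 - 3 * η ^ 2 / 8) := by positivity
  set Y : ℕ := ⌊X ^ (η / 4)⌋₊ with hY
  have hYX : (Y : ℝ) ≤ X ^ (η / 4) := Nat.floor_le (by positivity)
  by_cases h1 : n = 1
  · have h : cf N Y σ n = 0 := by
      unfold cf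
      rw [if_pos h1]
    rw [h]
    simpa using hHn
  by_cases h2 : n ≤ Y
  · have h : cf N Y σ n = 0 := by
      unfold cf
      rw [if_neg h1, h3.2.2.1 N Y n (by omega) (by omega) h2]
      simp
    rw [h]
    simpa using hHn
  have hx1 : (1 : ℝ) ≤ n := by exact_mod_cast hn1
  have hx0 : (0 : ℝ) < n := by linarith
  have hc : cf N Y σ n = (bc N Y n : ℝ) * (n : ℝ) ^ (-σ) := by
    unfold cf
    rw [if_neg h1]
  have hb : |cf N Y σ n| ≤ C3 * (n : ℝ) ^ (η / 4 - σ) := by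
    rw [hc, abs_mul, abs_of_nonneg (Real.rpow_nonneg hx0.le _)]
    calc |(bc N Y n : ℝ)| * (n : ℝ) ^ (-σ) ≤ C3 * (n : ℝ) ^ (η / 4) * (n : ℝ) ^ (-σ) :=
          mul_le_mul_of_nonneg_right (hC N Y n hn1) (Real.rpow_nonneg hx0.le _)
      _ = C3 * (n : ℝ) ^ (η / 4 - σ) := by
          rw [mul_assoc, ← Real.rpow_add hx0]
          rfl
  have hb2 : cf N Y σ n ^ 2 * n ≤ C3 ^ 2 * (n : ℝ) ^ (-(3 * η / 2)) := by
    have h4 : cf N Y σ n ^ 2 ≤ (C3 * (n : ℝ) ^ (η / 4 - σ)) ^ 2 := by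
      rw [← sq_abs]
      exact pow_le_pow_left₀ (abs_nonneg _) hb 2
    calc cf N Y σ n ^ 2 * n ≤ (C3 * (n : ℝ) ^ (η / 4 - σ)) ^ 2 * n :=
          mul_le_mul_of_nonneg_right h4 hx0.le
      _ = C3 ^ 2 * (n : ℝ) ^ ((η / 4 - σ) + (η / 4 - σ) + 1) := by
          rw [Real.rpow_add_one hx0.ne', Real.rpow_add hx0]
          ring
      _ ≤ C3 ^ 2 * (n : ℝ) ^ (-(3 * η / 2)) := by
          refine mul_le_mul_of_nonneg_left ?_ (by positivity)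
          exact Real.rpow_le_rpow_of_exponent_le hx1 (by linarith)
  -- the two parts
  have hXn : X ^ (η / 4) ≤ n := by
    have h5 : (Y : ℝ) + 1 ≤ n := by
      have h6 : Y + 1 ≤ n := by omega
      exact_mod_cast h6
    exact (Nat.lt_floor_add_one _).le.trans h5
  have hp1 : (n : ℝ) ^ (-(3 * η / 2)) ≤ X ^ (-(3 * η ^ 2 / 8)) := by
    calc (n : ℝ) ^ (-(3 * η / 2)) ≤ (X ^ (η / 4)) ^ (-(3 * η / 2)) :=
          Real.rpow_le_rpow_of_nonpos (by positivity) hXn (by linarith)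
      _ = X ^ (-(3 * η ^ 2 / 8)) := by
          rw [← Real.rpow_mul hX0.le]
          congr 1
          ring
  have hq1 : (n : ℝ) ^ (-(3 * η / 2)) * T ≤ 4 * X ^ (1 - 3 * η ^ 2 / 8) := by
    calc (n : ℝ) ^ (-(3 * η / 2)) * T ≤ X ^ (-(3 * η ^ 2 / 8)) * (4 * X) :=
          mul_le_mul hp1 hTX hT0.le (by positivity)
      _ = 4 * X ^ (1 - 3 * η ^ 2 / 8) := by
          have h7 : X ^ (1 - 3 * η ^ 2 / 8) = X ^ (-(3 * η ^ 2 / 8)) * X := by
            rw [← Real.rpow_add_one hX0.ne']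
            congr 1
            ring
          rw [h7]
          ring
  have hnX : (n : ℝ) ≤ 32 * X ^ (1 + η / 4) := by
    have h8 : (n : ℝ) ≤ N * Y := by exact_mod_cast hn
    have h9 : X ^ (1 + η / 4) = X * X ^ (η / 4) := by
      rw [Real.rpow_add hX0, Real.rpow_one]
    calc (n : ℝ) ≤ N * Y := h8
      _ ≤ (32 * X) * X ^ (η / 4) :=
          mul_le_mul (by linarith) hYX (Nat.cast_nonneg _) (by linarith)
      _ = 32 * X ^ (1 + η / 4) := by rw [h9]; ring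
  have hq2 : (n : ℝ) ^ (-(3 * η / 2)) * n ≤ 32 * X ^ (1 - 3 * η ^ 2 / 8) := by
    have h10 : (0 : ℝ) ≤ -(3 * η / 2) + 1 := by linarith
    have h11 : -(3 * η / 2) + 1 ≤ (1 : ℝ) := by linarith
    calc (n : ℝ) ^ (-(3 * η / 2)) * n = (n : ℝ) ^ (-(3 * η / 2) + 1) :=
          (Real.rpow_add_one hx0.ne' _).symm
      _ ≤ (32 * X ^ (1 + η / 4)) ^ (-(3 * η / 2) + 1) :=
          Real.rpow_le_rpow hx0.le hnX h10
      _ = 32 ^ (-(3 * η / 2) + 1) * X ^ ((1 + η / 4) * (-(3 * η / 2) + 1)) := by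
          rw [Real.mul_rpow (by norm_num) (by positivity), ← Real.rpow_mul hX0.le]
      _ ≤ 32 ^ (1 : ℝ) * X ^ (1 - 3 * η ^ 2 / 8) := by
          refine mul_le_mul (Real.rpow_le_rpow_of_exponent_le (by norm_num) h11) ?_
            (by positivity) (by positivity)
          refine Real.rpow_le_rpow_of_exponent_le hX1 ?_
          nlinarith
      _ = 32 * X ^ (1 - 3 * η ^ 2 / 8) := by rw [Real.rpow_one]
  have hTn : 0 ≤ T + n := by linarith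
  calc cf N Y σ n ^ 2 * n * (T + n) ≤ C3 ^ 2 * (n : ℝ) ^ (-(3 * η / 2)) * (T + n) :=
        mul_le_mul_of_nonneg_right hb2 hTn
    _ = C3 ^ 2 * ((n : ℝ) ^ (-(3 * η / 2)) * T + (n : ℝ) ^ (-(3 * η / 2)) * n) := by ring
    _ ≤ C3 ^ 2 * (4 * X ^ (1 - 3 * η ^ 2 / 8) + 32 * X ^ (1 - 3 * η ^ 2 / 8)) :=
        mul_le_mul_of_nonneg_left (add_le_add hq1 hq2) (by positivity)
    _ = 36 * C3 ^ 2 * X ^ (1 - 3 * η ^ 2 / 8) := by ring

/-- the power of the logarithm -/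
theorem log_bound {ν X : ℝ} (hν : 0 < ν) (hX : 4 ≤ X) {m : ℕ} (hm : 1 ≤ m)
    (hmX : (m : ℝ) ≤ 32 * X ^ 2) :
    (1 + Real.log m) ^ 3 ≤ ((1 + 1 / ν) * 32 ^ ν) ^ 3 * X ^ (6 * ν) := by
  have hX0 : 0 < X := by linarith
  have hm1 : (1 : ℝ) ≤ m := by exact_mod_cast hm
  have hm0 : (0 : ℝ) < m := by linarith
  have h0 : 0 ≤ Real.log m := Real.log_nonneg hm1
  have h1 : Real.log m ≤ (m : ℝ) ^ ν / ν := Real.log_le_rpow_div hm0.le hν
  have h2 : (1 : ℝ) ≤ (m : ℝ) ^ ν := Real.one_le_rpow hm1 hν.le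
  have h3 : (m : ℝ) ^ ν ≤ 32 ^ ν * X ^ (2 * ν) := by
    calc (m : ℝ) ^ ν ≤ (32 * X ^ 2) ^ ν := Real.rpow_le_rpow hm0.le hmX hν.le
      _ = 32 ^ ν * X ^ (2 * ν) := by
          rw [Real.mul_rpow (by norm_num) (by positivity), Real.rpow_mul hX0.le,
            Real.rpow_two]
  have h4 : 1 + Real.log m ≤ (1 + 1 / ν) * 32 ^ ν * X ^ (2 * ν) := by
    calc 1 + Real.log m ≤ (m : ℝ) ^ ν + (m : ℝ) ^ ν / ν := add_le_add h2 h1
      _ = (1 + 1 / ν) * (m : ℝ) ^ ν := by ring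
      _ ≤ (1 + 1 / ν) * (32 ^ ν * X ^ (2 * ν)) :=
          mul_le_mul_of_nonneg_left h3 (by positivity)
      _ = (1 + 1 / ν) * 32 ^ ν * X ^ (2 * ν) := by ring
  calc (1 + Real.log m) ^ 3 ≤ ((1 + 1 / ν) * 32 ^ ν * X ^ (2 * ν)) ^ 3 :=
        pow_le_pow_left₀ (by linarith) h4 3
    _ = ((1 + 1 / ν) * 32 ^ ν) ^ 3 * X ^ (6 * ν) := by
        rw [mul_pow]
        congr 1
        rw [← Real.rpow_natCast, ← Real.rpow_mul hX0.le]
        congr 1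
        push_cast
        ring

theorem norm_sq_le (a b : ℂ) : ‖a + b‖ ^ 2 ≤ 2 * ‖a‖ ^ 2 + 2 * ‖b‖ ^ 2 := by
  have h1 := norm_add_le a b
  have h2 : ‖a + b‖ ^ 2 ≤ (‖a‖ + ‖b‖) ^ 2 := pow_le_pow_left₀ (norm_nonneg _) h1 2
  nlinarith [sq_nonneg (‖a‖ - ‖b‖)]

end ZMO_

open ZMO_ in
/-- **ZMO** -/
theorem p_ZMO (h1 : T_REM) (h2 : T_MVS) (h3 : T_BCO) : T_ZMO := by
  intro η hη hη4
  obtain ⟨C1, hC1, hR⟩ := h1
  obtain ⟨C2, hC2, hM⟩ := h2
  obtain ⟨C3, hC3, hB⟩ := h3.2.2.2 (η / 4) (by linarith)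
  set ν : ℝ := η ^ 2 / 48 with hν
  have hν0 : 0 < ν := by positivity
  set C4 : ℝ := ((1 + 1 / ν) * 32 ^ ν) ^ 3 with hC4
  have hC40 : 0 < C4 := by positivity
  refine ⟨η / 4, η ^ 2 / 4, 8 * C1 + 72 * C2 * C3 ^ 2 * C4, by linarith, by linarith,
    by positivity, by positivity, ?_⟩
  intro X T σ hX hXT hTX hσ hσ3
  have hX0 : 0 < X := by linarith
  have hX1 : 1 ≤ X := by linarith
  have hT1 : 1 ≤ T := by linarith
  have hT0 : 0 < T := by linarith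
  set Y : ℕ := ⌊X ^ (η / 4)⌋₊ with hY
  have hYX : (Y : ℝ) ≤ X ^ (η / 4) := Nat.floor_le (by positivity)
  have hY1 : 1 ≤ Y := by
    rw [hY, Nat.one_le_floor_iff]
    exact Real.one_le_rpow hX1 (by linarith)
  set N : ℕ := ⌈4 * T⌉₊ with hN
  have hN4 : 4 * T ≤ N := Nat.le_ceil _
  have hN8 : (N : ℝ) ≤ 8 * T := by
    have h := (Nat.ceil_lt_add_one (by linarith : (0 : ℝ) ≤ 4 * T)).le
    rw [← hN] at h
    linarith
  have hYN : Y ≤ N := by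
    have h : (Y : ℝ) ≤ N := by
      refine hYX.trans (le_trans ?_ (hXT.trans hN4))
      calc X ^ (η / 4) ≤ X ^ (1 : ℝ) :=
            Real.rpow_le_rpow_of_exponent_le hX1 (by linarith)
        _ = X := Real.rpow_one X
    exact_mod_cast h
  have hN1 : 1 ≤ N := hY1.trans hYN
  have hσ0 : 0 ≤ σ := by linarith
  have hTT : T ≤ 2 * T := by linarith
  -- the two parts
  have hcD := cont_D N σ
  have hcM := cont_M Y σ
  have hcZ := cont_Z σ hT1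
  have hi1 : IntervalIntegrable (fun t : ℝ =>
      ‖riemannZeta (pt σ t) - Dp N (pt σ t)‖ ^ 2) volume T (2 * T) := by
    refine ContinuousOn.intervalIntegrable ?_
    rw [uIcc_of_le hTT]
    exact ((hcZ.sub hcD.continuousOn).norm).pow 2
  have hi2 : IntervalIntegrable (fun t : ℝ =>
      ‖Dp N (pt σ t) * Mp Y (pt σ t) - 1‖ ^ 2) volume T (2 * T) := by
    refine Continuous.intervalIntegrable ?_ _ _
    exact (((hcD.mul hcM).sub continuous_const).norm).pow 2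
  have hi3 : IntervalIntegrable (fun t : ℝ =>
      ‖riemannZeta (pt σ t) * Mp Y (pt σ t) - 1‖ ^ 2) volume T (2 * T) := by
    refine ContinuousOn.intervalIntegrable ?_
    rw [uIcc_of_le hTT]
    exact (((hcZ.mul hcM.continuousOn).sub continuousOn_const).norm).pow 2
  have hp : ∀ t ∈ Icc T (2 * T), ‖riemannZeta (pt σ t) * Mp Y (pt σ t) - 1‖ ^ 2 ≤
      2 * (X ^ (η / 4)) ^ 2 * ‖riemannZeta (pt σ t) - Dp N (pt σ t)‖ ^ 2 +
        2 * ‖Dp N (pt σ t) * Mp Y (pt σ t) - 1‖ ^ 2 := by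
    intro t _
    have e : riemannZeta (pt σ t) * Mp Y (pt σ t) - 1 =
        (riemannZeta (pt σ t) - Dp N (pt σ t)) * Mp Y (pt σ t) +
          (Dp N (pt σ t) * Mp Y (pt σ t) - 1) := by ring
    rw [e]
    refine (norm_sq_le _ _).trans ?_
    have h4 : ‖Mp Y (pt σ t)‖ ^ 2 ≤ (X ^ (η / 4)) ^ 2 :=
      pow_le_pow_left₀ (norm_nonneg _) ((norm_M Y σ t hσ0).trans hYX) 2
    rw [norm_mul, mul_pow]
    have h5 := mul_le_mul_of_nonneg_left h4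
      (sq_nonneg ‖riemannZeta (pt σ t) - Dp N (pt σ t)‖)
    nlinarith
  have hint := intervalIntegral.integral_mono_on hTT hi3
    ((hi1.const_mul (2 * (X ^ (η / 4)) ^ 2)).add (hi2.const_mul 2)) hp
  rw [intervalIntegral.integral_add (hi1.const_mul _) (hi2.const_mul _),
    intervalIntegral.integral_const_mul, intervalIntegral.integral_const_mul] at hint
  -- first part
  have hA := hR T σ N hT1 (by linarith) hN8 (by linarith) hσ3
  have hA2 : T ^ (2 - 2 * σ) ≤ 4 * X ^ (1 - 2 * η) := by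
    calc T ^ (2 - 2 * σ) ≤ T ^ (1 - 2 * η) :=
          Real.rpow_le_rpow_of_exponent_le hT1 (by linarith)
      _ ≤ (4 * X) ^ (1 - 2 * η) := Real.rpow_le_rpow hT0.le hTX (by linarith)
      _ = 4 ^ (1 - 2 * η) * X ^ (1 - 2 * η) := Real.mul_rpow (by norm_num) hX0.le
      _ ≤ 4 ^ (1 : ℝ) * X ^ (1 - 2 * η) := by
          refine mul_le_mul_of_nonneg_right ?_ (by positivity)
          exact Real.rpow_le_rpow_of_exponent_le (by norm_num) (by linarith)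
      _ = 4 * X ^ (1 - 2 * η) := by rw [Real.rpow_one]
  have hA3 : 2 * (X ^ (η / 4)) ^ 2 *
      (∫ t in T..(2 * T), ‖riemannZeta (pt σ t) - Dp N (pt σ t)‖ ^ 2) ≤
      8 * C1 * X ^ (1 - η ^ 2 / 4) := by
    have h6 : (X ^ (η / 4)) ^ 2 * X ^ (1 - 2 * η) = X ^ (1 - 3 * η / 2) := by
      rw [← Real.rpow_natCast, ← Real.rpow_mul hX0.le, ← Real.rpow_add hX0]
      congr 1
      push_cast
      ring
    have h7 : X ^ (1 - 3 * η / 2) ≤ X ^ (1 - η ^ 2 / 4) :=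
      Real.rpow_le_rpow_of_exponent_le hX1 (by nlinarith)
    calc 2 * (X ^ (η / 4)) ^ 2 *
          (∫ t in T..(2 * T), ‖riemannZeta (pt σ t) - Dp N (pt σ t)‖ ^ 2)
        ≤ 2 * (X ^ (η / 4)) ^ 2 * (C1 * (4 * X ^ (1 - 2 * η))) := by
          refine mul_le_mul_of_nonneg_left (hA.trans ?_) (by positivity)
          exact mul_le_mul_of_nonneg_left hA2 hC1.le
      _ = 8 * C1 * ((X ^ (η / 4)) ^ 2 * X ^ (1 - 2 * η)) := by ring
      _ ≤ 8 * C1 * X ^ (1 - η ^ 2 / 4) := by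
          rw [h6]
          exact mul_le_mul_of_nonneg_left h7 (by positivity)
  -- second part
  have hNY : 1 ≤ N * Y := Nat.mul_pos hN1 hY1
  have hD := hM (N * Y) (cf N Y σ) (36 * C3 ^ 2 * X ^ (1 - 3 * η ^ 2 / 8)) T (by positivity)
    hT0 hNY (fun n hn1 hn => cf_bound h3 hη hη4 hC3 hB hX hXT hTX hσ hN8 hYN n hn1 hn)
  have hE : (∫ t in T..(2 * T), ‖Dp N (pt σ t) * Mp Y (pt σ t) - 1‖ ^ 2) =
      ∫ t in T..(2 * T), ‖∑ n ∈ Finset.Icc 1 (N * Y), (cf N Y σ n : ℂ) *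
        (n : ℂ) ^ (-((t : ℂ) * I))‖ ^ 2 := by
    refine intervalIntegral.integral_congr fun t _ => ?_
    rw [DM_eq h3 hN1 hY1 σ t]
  have hL := log_bound (ν := ν) hν0 hX hNY (by
    have h8 : (Y : ℝ) ≤ X := by
      refine hYX.trans ?_
      calc X ^ (η / 4) ≤ X ^ (1 : ℝ) :=
            Real.rpow_le_rpow_of_exponent_le hX1 (by linarith)
        _ = X := Real.rpow_one X
    push_cast
    calc (N : ℝ) * Y ≤ (32 * X) * X :=
          mul_le_mul (by linarith) h8 (Nat.cast_nonneg _) (by linarith)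
      _ = 32 * X ^ 2 := by ring)
  have hD2 : 2 * (∫ t in T..(2 * T), ‖Dp N (pt σ t) * Mp Y (pt σ t) - 1‖ ^ 2) ≤
      72 * C2 * C3 ^ 2 * C4 * X ^ (1 - η ^ 2 / 4) := by
    have h9 : X ^ (1 - 3 * η ^ 2 / 8) * X ^ (6 * ν) = X ^ (1 - η ^ 2 / 4) := by
      rw [← Real.rpow_add hX0]
      congr 1
      rw [hν]
      ring
    rw [hE]
    calc 2 * (∫ t in T..(2 * T), ‖∑ n ∈ Finset.Icc 1 (N * Y), (cf N Y σ n : ℂ) *
          (n : ℂ) ^ (-((t : ℂ) * I))‖ ^ 2)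
        ≤ 2 * (C2 * (36 * C3 ^ 2 * X ^ (1 - 3 * η ^ 2 / 8)) *
            (1 + Real.log ((N * Y : ℕ) : ℝ)) ^ 3) := by linarith
      _ ≤ 2 * (C2 * (36 * C3 ^ 2 * X ^ (1 - 3 * η ^ 2 / 8)) * (C4 * X ^ (6 * ν))) := by
          refine mul_le_mul_of_nonneg_left ?_ (by norm_num)
          exact mul_le_mul_of_nonneg_left hL (by positivity)
      _ = 72 * C2 * C3 ^ 2 * C4 * (X ^ (1 - 3 * η ^ 2 / 8) * X ^ (6 * ν)) := by ring
      _ = 72 * C2 * C3 ^ 2 * C4 * X ^ (1 - η ^ 2 / 4) := by rw [h9]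
  calc (∫ t in T..(2 * T), ‖riemannZeta (pt σ t) * Mp Y (pt σ t) - 1‖ ^ 2)
      ≤ _ := hint
    _ ≤ 8 * C1 * X ^ (1 - η ^ 2 / 4) + 72 * C2 * C3 ^ 2 * C4 * X ^ (1 - η ^ 2 / 4) :=
        add_le_add hA3 hD2
    _ = (8 * C1 + 72 * C2 * C3 ^ 2 * C4) * X ^ (1 - η ^ 2 / 4) := by ring

end Pool.Agent.DBA
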