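import Pool.Agent.DBA.Targets

/-!
# DBA, ZMS: the mean square of zeta
-/

set_option autoImplicit false

namespace Pool.Agent.DBA

open Complex MeasureTheory Set Filter

namespace ZMS_

theorem pt_cont (σ : ℝ) : Continuous fun t : ℝ => pt σ t := by
  unfold pt
  fun_prop

theorem cont_zeta (σ T : ℝ) (hT : 1 ≤ T) :
    ContinuousOn (fun t : ℝ => riemannZeta (pt σ t)) (Set.uIcc T (2 * T)) := by
  intro t ht
  rw [Set.uIcc_of_le (by linarith)] at ht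
  have hne : pt σ t ≠ 1 := by
    intro h
    have h1 := congrArg Complex.im h
    unfold pt at h1
    simp at h1
    linarith [ht.1]
  have h1 : ContinuousAt riemannZeta (pt σ t) := (differentiableAt_riemannZeta hne).continuousAt
  have h2 : ContinuousAt (fun t : ℝ => pt σ t) t := (pt_cont σ).continuousAt
  exact (ContinuousAt.comp (f := fun t : ℝ => pt σ t) (g := riemannZeta) h1 h2).continuousWithinAt

theorem dp_eq (N : ℕ) (σ t : ℝ) : Dp N (pt σ t) =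
    ∑ n ∈ Finset.Icc 1 N, (((n : ℝ) ^ (-σ) : ℝ) : ℂ) * (n : ℂ) ^ (-((t : ℂ) * I)) := by
  unfold Dp pt
  refine Finset.sum_congr rfl fun n hn => ?_
  have hn0 : (n : ℂ) ≠ 0 := by
    have h1 := (Finset.mem_Icc.1 hn).1
    exact_mod_cast (by omega : n ≠ 0)
  rw [neg_add, Complex.cpow_add _ _ hn0, Complex.ofReal_cpow (Nat.cast_nonneg n)]
  push_cast
  rfl

theorem cont_dp (N : ℕ) (σ : ℝ) : Continuous fun t : ℝ => Dp N (pt σ t) := by
  unfold Dp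
  refine continuous_finsetSum _ fun n hn => ?_
  have hn0 : (n : ℂ) ≠ 0 := by
    have h1 := (Finset.mem_Icc.1 hn).1
    exact_mod_cast (by omega : n ≠ 0)
  exact Continuous.const_cpow (pt_cont σ).neg (Or.inl hn0)

theorem coef (σ T : ℝ) (hT : 1 ≤ T) (hσ : 1 / 4 ≤ σ) (n N : ℕ) (hn : 1 ≤ n) (hnN : n ≤ N)
    (hN : (N : ℝ) ≤ 2 * T) :
    ((n : ℝ) ^ (-σ)) ^ 2 * n * (T + n) ≤ 6 * T ^ (1 + 2 * max 0 (1 / 2 - σ)) := by
  have hn1 : (1 : ℝ) ≤ n := by exact_mod_cast hn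
  have hnT : (n : ℝ) ≤ 2 * T := le_trans (by exact_mod_cast hnN) hN
  have hT0 : 0 < T := by linarith
  have e1 : ((n : ℝ) ^ (-σ)) ^ 2 * n = (n : ℝ) ^ (1 - 2 * σ) := by
    rw [← Real.rpow_natCast, ← Real.rpow_mul (by linarith), ← Real.rpow_add_one (by linarith)]
    congr 1
    push_cast
    ring
  rw [e1]
  have h1 : (n : ℝ) ^ (1 - 2 * σ) ≤ 2 * T ^ (2 * max 0 (1 / 2 - σ)) := by
    rcases le_total (1 / 2) σ with h | h
    · have h2 : (n : ℝ) ^ (1 - 2 * σ) ≤ 1 := Real.rpow_le_one_of_one_le_of_nonpos hn1 (by linarith)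
      have h3 : (1 : ℝ) ≤ T ^ (2 * max 0 (1 / 2 - σ)) :=
        Real.one_le_rpow hT (by have := le_max_left 0 (1 / 2 - σ); linarith)
      linarith
    · rw [max_eq_right (by linarith)]
      have h2 : (n : ℝ) ^ (1 - 2 * σ) ≤ (2 * T) ^ (1 - 2 * σ) :=
        Real.rpow_le_rpow (by linarith) hnT (by linarith)
      have h3 : (2 * T) ^ (1 - 2 * σ) = 2 ^ (1 - 2 * σ) * T ^ (1 - 2 * σ) :=
        Real.mul_rpow (by norm_num) hT0.le
      have h4 : (2 : ℝ) ^ (1 - 2 * σ) ≤ 2 := by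
        have := Real.rpow_le_rpow_of_exponent_le (show (1 : ℝ) ≤ 2 by norm_num)
          (show 1 - 2 * σ ≤ 1 by linarith)
        rwa [Real.rpow_one] at this
      have h5 : 0 ≤ T ^ (1 - 2 * σ) := Real.rpow_nonneg hT0.le _
      have h6 : 2 * (1 / 2 - σ) = 1 - 2 * σ := by ring
      rw [h6]
      calc (n : ℝ) ^ (1 - 2 * σ) ≤ 2 ^ (1 - 2 * σ) * T ^ (1 - 2 * σ) := h2.trans h3.le
        _ ≤ 2 * T ^ (1 - 2 * σ) := mul_le_mul_of_nonneg_right h4 h5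
  have h2 : T + n ≤ 3 * T := by linarith
  have h3 : T ^ (1 + 2 * max 0 (1 / 2 - σ)) = T * T ^ (2 * max 0 (1 / 2 - σ)) := by
    rw [Real.rpow_add hT0, Real.rpow_one]
  rw [h3]
  calc (n : ℝ) ^ (1 - 2 * σ) * (T + n) ≤ (2 * T ^ (2 * max 0 (1 / 2 - σ))) * (3 * T) :=
        mul_le_mul h1 h2 (by linarith) (by positivity)
    _ = 6 * (T * T ^ (2 * max 0 (1 / 2 - σ))) := by ring

theorem logs (ε T : ℝ) (hε : 0 < ε) (hT : 1 ≤ T) (N : ℕ) (hN1 : 1 ≤ N) (hN : (N : ℝ) ≤ 2 * T) :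
    (1 + Real.log N) ^ 3 ≤ (2 + 3 / ε) ^ 3 * T ^ ε := by
  have hT0 : 0 < T := by linarith
  have hN0 : (1 : ℝ) ≤ N := by exact_mod_cast hN1
  have h1 : Real.log N ≤ Real.log 2 + Real.log T := by
    rw [← Real.log_mul (by norm_num) hT0.ne']
    exact Real.log_le_log (by linarith) hN
  have h2 : Real.log 2 ≤ 1 := by
    have := Real.log_two_lt_d9
    linarith
  have h3 : Real.log T ≤ T ^ (ε / 3) / (ε / 3) := Real.log_le_rpow_div hT0.le (by positivity)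
  have h4 : (1 : ℝ) ≤ T ^ (ε / 3) := Real.one_le_rpow hT (by positivity)
  have h5 : T ^ (ε / 3) / (ε / 3) = 3 / ε * T ^ (ε / 3) := by
    field_simp
  have h6 : 1 + Real.log N ≤ (2 + 3 / ε) * T ^ (ε / 3) := by
    rw [h5] at h3
    nlinarith
  have h7 : 0 ≤ 1 + Real.log N := by
    have := Real.log_nonneg hN0
    linarith
  calc (1 + Real.log N) ^ 3 ≤ ((2 + 3 / ε) * T ^ (ε / 3)) ^ 3 := pow_le_pow_left₀ h7 h6 3
    _ = (2 + 3 / ε) ^ 3 * T ^ ε := by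
      rw [mul_pow, ← Real.rpow_natCast (T ^ (ε / 3)) 3, ← Real.rpow_mul hT0.le]
      congr 2
      push_cast
      ring

end ZMS_

open ZMS_ in
theorem p_ZMS (h1 : T_REM) (h2 : T_MVS) : T_ZMS := by
  intro ε hε
  obtain ⟨C1, hC1, H1⟩ := h1
  obtain ⟨C2, hC2, H2⟩ := h2
  refine ⟨2 * C1 + 2 * (C2 * 6 * (2 + 3 / ε) ^ 3), by positivity, fun T σ hT hσ hσ3 => ?_⟩
  have hT0 : 0 < T := by linarith
  obtain ⟨N, hN1, hN2⟩ : ∃ N : ℕ, T ≤ N ∧ (N : ℝ) ≤ 2 * T :=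
    ⟨⌈T⌉₊, Nat.le_ceil T, by have := (Nat.ceil_lt_add_one hT0.le).le; linarith⟩
  have hN1' : 1 ≤ N := by
    have : (1 : ℝ) ≤ N := hT.trans hN1
    exact_mod_cast this
  have hle : T ≤ 2 * T := by linarith
  have A1 := H1 T σ N hT hN1 (by linarith) hσ hσ3
  have A2 := H2 N (fun n => (n : ℝ) ^ (-σ)) (6 * T ^ (1 + 2 * max 0 (1 / 2 - σ))) T
    (by positivity) hT0 hN1' fun n hn hnN => coef σ T hT hσ n N hn hnN hN2
  simp only [← dp_eq] at A2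
  have i1 : IntervalIntegrable (fun t : ℝ => ‖riemannZeta (pt σ t) - Dp N (pt σ t)‖ ^ 2)
      volume T (2 * T) :=
    (((cont_zeta σ T hT).sub (cont_dp N σ).continuousOn).norm.pow 2).intervalIntegrable
  have i2 : IntervalIntegrable (fun t : ℝ => ‖Dp N (pt σ t)‖ ^ 2) volume T (2 * T) :=
    ((cont_dp N σ).norm.pow 2).intervalIntegrable _ _
  have i3 : IntervalIntegrable (fun t : ℝ => ‖riemannZeta (pt σ t)‖ ^ 2) volume T (2 * T) :=
    ((cont_zeta σ T hT).norm.pow 2).intervalIntegrable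
  have B1 : (∫ t in T..(2 * T), ‖riemannZeta (pt σ t)‖ ^ 2) ≤
      ∫ t in T..(2 * T), (2 * ‖riemannZeta (pt σ t) - Dp N (pt σ t)‖ ^ 2 +
        2 * ‖Dp N (pt σ t)‖ ^ 2) := by
    refine intervalIntegral.integral_mono_on hle i3 ((i1.const_mul 2).add (i2.const_mul 2))
      fun t _ => ?_
    have h3 : ‖riemannZeta (pt σ t)‖ ≤
        ‖riemannZeta (pt σ t) - Dp N (pt σ t)‖ + ‖Dp N (pt σ t)‖ := by
      have := norm_add_le (riemannZeta (pt σ t) - Dp N (pt σ t)) (Dp N (pt σ t))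
      rwa [sub_add_cancel] at this
    have h4 := norm_nonneg (riemannZeta (pt σ t))
    nlinarith [sq_nonneg (‖riemannZeta (pt σ t) - Dp N (pt σ t)‖ - ‖Dp N (pt σ t)‖)]
  rw [intervalIntegral.integral_add (i1.const_mul 2) (i2.const_mul 2),
    intervalIntegral.integral_const_mul, intervalIntegral.integral_const_mul] at B1
  have hm : 0 ≤ max 0 (1 / 2 - σ) := le_max_left _ _
  have hm' : 1 / 2 - σ ≤ max 0 (1 / 2 - σ) := le_max_right _ _
  have B2 : T ^ (2 - 2 * σ) ≤ T ^ (1 + 2 * max 0 (1 / 2 - σ) + ε) :=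
    Real.rpow_le_rpow_of_exponent_le hT (by linarith)
  have B3 := logs ε T hε hT N hN1' hN2
  have B4 : T ^ (1 + 2 * max 0 (1 / 2 - σ) + ε) =
      T ^ (1 + 2 * max 0 (1 / 2 - σ)) * T ^ ε := Real.rpow_add hT0 _ _
  have B5 : C2 * (6 * T ^ (1 + 2 * max 0 (1 / 2 - σ))) * (1 + Real.log N) ^ 3 ≤
      C2 * 6 * (2 + 3 / ε) ^ 3 * T ^ (1 + 2 * max 0 (1 / 2 - σ) + ε) := by
    rw [B4]
    have h5 : 0 ≤ C2 * (6 * T ^ (1 + 2 * max 0 (1 / 2 - σ))) := by positivity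
    calc C2 * (6 * T ^ (1 + 2 * max 0 (1 / 2 - σ))) * (1 + Real.log N) ^ 3
        ≤ C2 * (6 * T ^ (1 + 2 * max 0 (1 / 2 - σ))) * ((2 + 3 / ε) ^ 3 * T ^ ε) :=
          mul_le_mul_of_nonneg_left B3 h5
      _ = _ := by ring
  have B6 : C1 * T ^ (2 - 2 * σ) ≤ C1 * T ^ (1 + 2 * max 0 (1 / 2 - σ) + ε) :=
    mul_le_mul_of_nonneg_left B2 hC1.le
  calc (∫ t in T..(2 * T), ‖riemannZeta (pt σ t)‖ ^ 2)
      ≤ 2 * (C1 * T ^ (1 + 2 * max 0 (1 / 2 - σ) + ε)) + 2 * (C2 * 6 * (2 + 3 / ε) ^ 3 *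
        T ^ (1 + 2 * max 0 (1 / 2 - σ) + ε)) := by linarith
    _ = _ := by ring

end Pool.Agent.DBA
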