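import Pool.Agent.DBA.P_EMF
import Pool.Agent.DBA.P_PLC
import Pool.Agent.DBA.P_REM
import Pool.Agent.DBA.P_MVD
import Pool.Agent.DBA.P_MVS34
import Pool.Agent.DBA.P_BCO
import Pool.Agent.DBA.P_ZMS
import Pool.Agent.DBA.P_ZMO
import Pool.Agent.DBA.P_DSC
import Pool.Agent.DBA.P_MRK
import Pool.Agent.DBA.P_SMA
import Pool.Agent.DBA.P_NZR
import Pool.Agent.DBA.P_FIN
import Pool.Agent.DBA.P_LZG
import Pool.Agent.DBA.P_GDN
import Pool.Agent.DBC.Q_BCL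

/-!
# DBA: all targets together
-/

set_option autoImplicit false

namespace Pool.Agent.DBA

theorem rem' : T_REM := p_REM p_EMF p_PLC

theorem lzg' : T_LZG := p_LZG Pool.Agent.DBC.q_BCL

theorem fin_of (h : T_MVS) : T_FIN :=
  p_FIN (p_SMA (p_ZMS rem' h) p_DSC p_MRK) (p_NZR (p_ZMO rem' h p_BCO) p_DSC p_MRK)

theorem gdn_of (h : T_MVS) : T_GDN := p_GDN (fin_of h) lzg'

theorem fin : T_FIN := fin_of (p_MVS34 p_MVD)

theorem gdn : T_GDN := gdn_of (p_MVS34 p_MVD)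

end Pool.Agent.DBA
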