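import Pool.Agent.DBA.Targets3

/-!
# DBA part 3, CNF: the number of exceptional zeros
-/

set_option autoImplicit false

namespace Pool.Agent.DBA

open Complex MeasureTheory Set Filter
open Pool.Agent.DBN Pool.Agent.DBC

namespace CNF_

/-- `log X` is smaller than a small power of `X`. -/
theorem log_small (B δ : ℝ) (hδ : 0 < δ) : ∃ X₀ : ℝ, 2 ≤ X₀ ∧ ∀ X : ℝ, X₀ ≤ X →
    B * Real.log X ≤ X ^ δ := by
  have h := (isLittleO_log_rpow_atTop hδ).bound (c := 1 / (|B| + 1)) (by positivity)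
  obtain ⟨X₁, h1⟩ := eventually_atTop.1 h
  refine ⟨max X₁ 2, le_max_right _ _, ?_⟩
  intro X hX
  have hX1 : X₁ ≤ X := (le_max_left _ _).trans hX
  have hX2 : 2 ≤ X := (le_max_right _ _).trans hX
  have h2 := h1 X hX1
  have hl : 0 ≤ Real.log X := Real.log_nonneg (by linarith)
  have hp : 0 ≤ X ^ δ := Real.rpow_nonneg (by linarith) _
  rw [Real.norm_of_nonneg hl, Real.norm_of_nonneg hp] at h2
  have hB : 0 < |B| + 1 := by positivity
  have h3 : (|B| + 1) * Real.log X ≤ X ^ δ := by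
    have := mul_le_mul_of_nonneg_left h2 hB.le
    have e : (|B| + 1) * (1 / (|B| + 1) * X ^ δ) = X ^ δ := by
      field_simp
    linarith
  have h4 : B * Real.log X ≤ (|B| + 1) * Real.log X :=
    mul_le_mul_of_nonneg_right (by linarith [le_abs_self B]) hl
  linarith

end CNF_

theorem p_CNF (h1 : T_CVJ) (h2 : T_MAX) (h3 : T_CIA) (h4 : T_ORD) (h5 : T_JNX) : T_CNF := by
  intro c₁ c₂ hc₁ hc hAA K hK
  obtain ⟨δ₀, X₁, hδ₀, hδ₁, hX₁, hM⟩ := h2 (c₁ / 2) (2 * c₂) hAA (K + 2) 1 (by linarith)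
    one_pos
  obtain ⟨X₂, hX₂, hI⟩ := h3 c₁ c₂ K hc₁ hc hK
  obtain ⟨C, T₀, hC, hT₀, hJ⟩ := h5 (c₁ / 2) (2 * c₂) (K + 1) (by linarith) (by linarith)
    (by linarith)
  obtain ⟨X₃, hX₃, hL⟩ := CNF_.log_small (16 * C) (δ₀ / 2) (by linarith)
  refine ⟨δ₀ / 2, max (max X₁ X₂) (max X₃ (max (2 * T₀) 4)), by linarith, ?_⟩
  intro t X hX ht1 ht2 F hF
  have g1 : X₁ ≤ X := ((le_max_left _ _).trans (le_max_left _ _)).trans hX
  have g2 : X₂ ≤ X := ((le_max_right _ _).trans (le_max_left _ _)).trans hX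
  have g3 : X₃ ≤ X := ((le_max_left _ _).trans (le_max_right _ _)).trans hX
  have g4 : 2 * T₀ ≤ X :=
    (((le_max_left _ _).trans (le_max_right _ _)).trans (le_max_right _ _)).trans hX
  have g5 : 4 ≤ X :=
    (((le_max_right _ _).trans (le_max_right _ _)).trans (le_max_right _ _)).trans hX
  have hX0 : (0 : ℝ) < X := by linarith
  have e4 : Real.log 4 = 2 * Real.log 2 := by
    rw [show (4 : ℝ) = 2 ^ 2 by norm_num, Real.log_pow]
    norm_num
  have hlog2 : 0 < Real.log 2 := Real.log_pos one_lt_two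
  have hl4 : Real.log 4 ≤ Real.log X := Real.log_le_log (by norm_num) g5
  have hlX : 0 < Real.log X := by linarith
  have ht : 0 < t := by
    by_contra h
    push Not at h
    have := mul_nonpos_of_nonpos_of_nonneg h hlX.le
    linarith
  -- the intervals
  set jj : ℂ → ℤ := fun z => ⌈z.re⌉ - 1 with hjj
  have hj1 : ∀ z : ℂ, z.re - 1 ≤ (jj z : ℝ) := by
    intro z
    have := Int.le_ceil z.re
    simp only [hjj]
    push_cast
    linarith
  have hj2 : ∀ z : ℂ, (jj z : ℝ) < z.re := by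
    intro z
    have := Int.ceil_lt_add_one z.re
    simp only [hjj]
    push_cast
    linarith
  have hsub : ∀ j ∈ F.image jj, Ico ((j : ℝ) / 2) (((j : ℝ) + 1) / 2) ⊆
      AX (c₁ / 2) (2 * c₂) (K + 2) 1 X := by
    intro j hj
    obtain ⟨z, hz, rfl⟩ := Finset.mem_image.1 hj
    obtain ⟨a1, a2, a3, a4, a5⟩ := hF z hz
    have b1 := hj1 z
    have b2 := hj2 z
    refine Subset.trans ?_ (hI t X z g2 ht1 ht2 a1 a2 a3 a4 a5)
    intro y hy
    obtain ⟨y1, y2⟩ := hy
    constructor <;> linarith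
  have hV : (0 : ℝ) ≤ 4 * X ^ (1 - δ₀) := by positivity
  have hcard := h1 _ _ (F.image jj) hV hsub (hM X g1)
  -- each interval
  have hone : ∀ j ∈ F.image jj,
      ((∑ z ∈ F.filter (fun z => jj z = j), analyticOrderNatAt (H t) z : ℕ) : ℝ) ≤
        C * (2 * Real.log X) := by
    intro j hj
    obtain ⟨z, hz, hzj⟩ := Finset.mem_image.1 hj
    obtain ⟨a1, a2, a3, a4, a5⟩ := hF z hz
    have b1 := hj1 z
    have b2 := hj2 z
    rw [hzj] at b1 b2
    have k1 : X / 2 ≤ (j : ℝ) / 2 := by linarith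
    have k2 : (j : ℝ) / 2 ≤ 2 * X := by linarith
    have l1 : Real.log X / 2 ≤ Real.log ((j : ℝ) / 2) := by
      have := Real.log_le_log (by positivity) k1
      rw [Real.log_div hX0.ne' two_ne_zero] at this
      linarith
    have l2 : Real.log ((j : ℝ) / 2) ≤ 2 * Real.log X := by
      have := Real.log_le_log (by linarith) k2
      rw [Real.log_mul (by norm_num) hX0.ne'] at this
      linarith
    have m1 := mul_le_mul_of_nonneg_left l1 ht.le
    have m2 := mul_le_mul_of_nonneg_left l2 ht.le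
    have hO := h4 t (j : ℂ) (K + 1) (F.filter (fun z => jj z = j)) (by
      intro w hw
      obtain ⟨hwF, hwj⟩ := Finset.mem_filter.1 hw
      obtain ⟨_, _, _, d4, _⟩ := hF w hwF
      have c1 := hj1 w
      have c2 := hj2 w
      rw [hwj] at c1 c2
      refine (Complex.norm_le_abs_re_add_abs_im _).trans ?_
      have r1 : (w - (j : ℂ)).re = w.re - (j : ℝ) := by simp
      have r2 : (w - (j : ℂ)).im = w.im := by simp
      rw [r1, r2]
      have r3 : |w.re - (j : ℝ)| ≤ 1 := by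
        rw [abs_le]
        constructor <;> linarith
      linarith)
    have hZ := hJ t ((j : ℝ) / 2) (by linarith) (by linarith) (by linarith)
    have e : (2 * (((j : ℝ) / 2 : ℝ) : ℂ)) = (j : ℂ) := by
      push_cast
      ring
    rw [e] at hZ
    have := mul_le_mul_of_nonneg_left l2 hC.le
    linarith
  -- the sum
  have hfib : (∑ z ∈ F, analyticOrderNatAt (H t) z : ℕ) =
      ∑ j ∈ F.image jj, ∑ z ∈ F.filter (fun z => jj z = j), analyticOrderNatAt (H t) z :=
    (Finset.sum_fiberwise_of_maps_to (fun z hz => Finset.mem_image_of_mem jj hz) _).symm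
  have hsum : ((∑ z ∈ F, analyticOrderNatAt (H t) z : ℕ) : ℝ) ≤
      ((F.image jj).card : ℝ) * (C * (2 * Real.log X)) := by
    rw [hfib, Nat.cast_sum, ← nsmul_eq_mul]
    exact Finset.sum_le_card_nsmul _ _ _ hone
  have hCl : 0 ≤ C * (2 * Real.log X) := by positivity
  have hX4 : (0 : ℝ) ≤ X ^ (1 - δ₀) := by positivity
  have hfin := mul_le_mul_of_nonneg_right hcard hCl
  have hL' := mul_le_mul_of_nonneg_left (hL X g3) hX4
  have hpow : X ^ (1 - δ₀) * X ^ (δ₀ / 2) = X ^ (1 - δ₀ / 2) := by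
    rw [← Real.rpow_add hX0]
    congr 1
    ring
  rw [hpow] at hL'
  calc ((∑ z ∈ F, analyticOrderNatAt (H t) z : ℕ) : ℝ)
      ≤ ((F.image jj).card : ℝ) * (C * (2 * Real.log X)) := hsum
    _ ≤ 2 * (4 * X ^ (1 - δ₀)) * (C * (2 * Real.log X)) := hfin
    _ = X ^ (1 - δ₀) * (16 * C * Real.log X) := by ring
    _ ≤ X ^ (1 - δ₀ / 2) := hL'

end Pool.Agent.DBA
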