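import Pool.Agent.DBA.Targets3

/-!
# COV: covering a set of heights by neighbourhoods of intervals of length `1 / 2` in `A`
-/

set_option autoImplicit false

namespace Pool.Agent.DBA

open Complex MeasureTheory Set Filter

namespace COV_

/-- the index of an interval of length `1 / 2` inside `[T' - 1 / 2, T' + 1 / 2]` -/
theorem index_ok (A : Set ℝ) (T T' R : ℝ) (h1 : |T' - T| ≤ R)
    (h2 : Icc (T' - 1 / 2) (T' + 1 / 2) ⊆ A) :
    Ico (((⌈2 * T'⌉ - 1 : ℤ) : ℝ) / 2) ((((⌈2 * T'⌉ - 1 : ℤ) : ℝ) + 1) / 2) ⊆ A ∧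
      T ∈ Icc (((⌈2 * T'⌉ - 1 : ℤ) : ℝ) / 2 - (R + 1 / 2))
        (((⌈2 * T'⌉ - 1 : ℤ) : ℝ) / 2 + (R + 1 / 2)) := by
  have h3 := Int.le_ceil (2 * T')
  have h4 := Int.ceil_lt_add_one (2 * T')
  obtain ⟨h5, h6⟩ := abs_le.1 h1
  push_cast
  refine ⟨fun y hy => h2 ⟨?_, ?_⟩, ?_, ?_⟩
  · have := hy.1
    linarith
  · have := hy.2
    linarith
  · linarith
  · linarith

end COV_

open COV_ in
theorem p_COV (h1 : T_CVJ) : T_COV := by
  intro A S R V hR hV hS hA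
  have hcard : ∀ F : Finset ℤ, (∀ j ∈ F, Ico ((j : ℝ) / 2) (((j : ℝ) + 1) / 2) ⊆ A) →
      (F.card : ℝ) ≤ 2 * V := fun F hF => h1 A V F hV hF hA
  have hfin : {j : ℤ | Ico ((j : ℝ) / 2) (((j : ℝ) + 1) / 2) ⊆ A}.Finite := by
    by_contra hinf
    obtain ⟨F, hF, hF'⟩ := Set.Infinite.exists_subset_card_eq hinf (⌊2 * V⌋₊ + 1)
    have h2 := hcard F fun j hj => hF hj
    rw [hF'] at h2
    have h3 := Nat.lt_floor_add_one (2 * V)
    push_cast at h2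
    linarith
  have hJ : (hfin.toFinset.card : ℝ) ≤ 2 * V :=
    hcard hfin.toFinset fun j hj => (Set.Finite.mem_toFinset hfin).1 hj
  have hsub : S ⊆ ⋃ j ∈ hfin.toFinset,
      Icc ((j : ℝ) / 2 - (R + 1 / 2)) ((j : ℝ) / 2 + (R + 1 / 2)) := by
    intro T hT
    obtain ⟨T', h2, h3⟩ := hS T hT
    obtain ⟨h4, h5⟩ := index_ok A T T' R h2 h3
    exact mem_iUnion₂.2 ⟨⌈2 * T'⌉ - 1, (Set.Finite.mem_toFinset hfin).2 h4, h5⟩
  calc volume S ≤ volume (⋃ j ∈ hfin.toFinset,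
      Icc ((j : ℝ) / 2 - (R + 1 / 2)) ((j : ℝ) / 2 + (R + 1 / 2))) := measure_mono hsub
    _ ≤ ∑ j ∈ hfin.toFinset,
        volume (Icc ((j : ℝ) / 2 - (R + 1 / 2)) ((j : ℝ) / 2 + (R + 1 / 2))) :=
      measure_biUnion_finset_le _ _
    _ = ∑ j ∈ hfin.toFinset, ENNReal.ofReal (2 * R + 1) := by
      refine Finset.sum_congr rfl fun j _ => ?_
      rw [Real.volume_Icc]
      congr 1
      ring
    _ = ENNReal.ofReal (hfin.toFinset.card * (2 * R + 1)) := by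
      rw [Finset.sum_const, nsmul_eq_mul, ENNReal.ofReal_mul (by positivity),
        ENNReal.ofReal_natCast]
    _ ≤ ENNReal.ofReal (4 * (R + 1) * V) := by
      refine ENNReal.ofReal_le_ofReal ?_
      have h7 : (hfin.toFinset.card : ℝ) * (2 * R + 1) ≤ 2 * V * (2 * R + 1) :=
        mul_le_mul_of_nonneg_right hJ (by linarith)
      nlinarith

end Pool.Agent.DBA
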