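import Pool.Agent.DBA.Targets3

/-!
# Elementary inequalities
-/

set_option autoImplicit false

namespace Pool.Agent.DBA

open Complex MeasureTheory Set Filter
open Pool.Agent.DBN Pool.Agent.DBC

namespace INX_

theorem mm_far {y : ℝ} (h : 1 ≤ |y|) : mm 4 y = |y| / 2 := by
  unfold mm
  split_ifs with h1
  · have h2 : |y| = 1 := le_antisymm (by linarith) h
    have h3 : y ^ 2 = 1 := by rw [← sq_abs, h2]; norm_num
    rw [h3, h2]; norm_num
  · rfl

theorem mm_near {y : ℝ} (h : |y| ≤ 1) : mm 4 y ≤ 1 / 2 := by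
  unfold mm
  split_ifs with h1
  · have h3 : y ^ 2 ≤ 1 := by
      rw [← sq_abs]
      nlinarith [abs_nonneg y]
    linarith
  · linarith

theorem complete_sq {c u : ℝ} (hc : 0 < c) :
    u / 2 - u ^ 2 / c = c / 16 - (u - c / 4) ^ 2 / c := by
  field_simp
  ring

end INX_

open INX_ in
theorem p_INX : T_INX := by
  intro c₁ c₂ r hc₁ hc hr
  have hc₂ : 0 < c₂ := by linarith
  set κ : ℝ := min (min (1 / (8 * c₂)) (2 * r ^ 2 / c₂ ^ 3)) (4 / c₂ ^ 2) with hκ
  set g : ℝ := min (min (r ^ 2 / (4 * c₂)) (c₁ / 16)) (1 / 2) with hg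
  have hκ0 : 0 < κ := by positivity
  have hg0 : 0 < g := by positivity
  have k1 : κ ≤ 1 / (8 * c₂) := (min_le_left _ _).trans (min_le_left _ _)
  have k2 : κ ≤ 2 * r ^ 2 / c₂ ^ 3 := (min_le_left _ _).trans (min_le_right _ _)
  have k3 : κ ≤ 4 / c₂ ^ 2 := min_le_right _ _
  have g1 : g ≤ r ^ 2 / (4 * c₂) := (min_le_left _ _).trans (min_le_left _ _)
  have g2 : g ≤ c₁ / 16 := (min_le_left _ _).trans (min_le_right _ _)
  have g3 : g ≤ 1 / 2 := min_le_right _ _
  rw [le_div_iff₀ (by positivity)] at k1 k2 k3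
  refine ⟨g, κ, hg0, hκ0, ?_⟩
  intro c x u hc1 hc2 hx hu
  have hc0 : 0 < c := by linarith
  have hsq := complete_sq (u := u) hc0
  set w : ℝ := (u - c / 4) ^ 2 / c with hw
  have hw0 : 0 ≤ w := by positivity
  have hvw : (u - c / 4) ^ 2 = c * w := by rw [hw]; field_simp
  have hu2 : u ^ 2 ≤ 2 * (c * w) + c ^ 2 / 8 := by
    rw [← hvw]
    nlinarith [sq_nonneg (u - c / 4 - c / 4)]
  have hku : κ * u ^ 2 ≤ κ * (2 * (c * w)) + κ * (c ^ 2 / 8) := by
    rw [← mul_add]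
    exact mul_le_mul_of_nonneg_left hu2 hκ0.le
  have hk1 : κ * (2 * (c * w)) ≤ w / 4 := by
    have h1 : κ * c ≤ 1 / 8 := by nlinarith
    nlinarith
  have hcc : c ^ 2 ≤ c₂ ^ 2 := by nlinarith
  constructor
  · intro hv
    have hr2 : r ^ 2 ≤ c * w := by
      rw [← hvw, ← sq_abs (u - c / 4)]
      nlinarith
    have hr3 : r ^ 2 ≤ c₂ * w := by nlinarith
    have hq : r ^ 2 / c₂ ≤ w := by rw [div_le_iff₀ hc₂]; linarith
    have hg4 : g ≤ w / 4 := by
      have : r ^ 2 / (4 * c₂) = r ^ 2 / c₂ / 4 := by field_simp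
      linarith
    have hk2 : κ * (c ^ 2 / 8) ≤ w / 4 := by
      have h1 : κ * c₂ ^ 2 ≤ 2 * (r ^ 2 / c₂) := by
        rw [← mul_div_assoc, le_div_iff₀ hc₂]
        calc κ * c₂ ^ 2 * c₂ = κ * c₂ ^ 3 := by ring
          _ ≤ _ := k2
      have h2 : κ * c ^ 2 ≤ κ * c₂ ^ 2 := mul_le_mul_of_nonneg_left hcc hκ0.le
      linarith
    have hm : mm 4 (x + u) = (x + u) / 2 := by
      rw [mm_far (by rw [abs_of_nonneg (by linarith)]; linarith), abs_of_nonneg (by linarith)]
    rw [hm]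
    linarith
  · have hA : mm 4 (u - x) ≤ x / 2 →
        mm 4 (u - x) - u ^ 2 / c ≤ c / 16 + x / 2 - g - κ * u ^ 2 := by
      intro h
      have h1 : κ * u ^ 2 ≤ u ^ 2 / c := by
        rw [le_div_iff₀ hc0]
        have h2 : κ * c ≤ 1 := by nlinarith
        nlinarith [sq_nonneg u]
      linarith
    rcases le_total 1 |u - x| with h1 | h1
    · rw [mm_far h1] at hA ⊢
      rcases le_total u x with h2 | h2
      · rw [abs_of_nonpos (by linarith)] at hA ⊢
        exact hA (by linarith)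
      · rw [abs_of_nonneg (by linarith)] at hA ⊢
        have hk4 : κ * (c ^ 2 / 8) ≤ 1 / 2 := by
          have h2 : κ * c ^ 2 ≤ κ * c₂ ^ 2 := mul_le_mul_of_nonneg_left hcc hκ0.le
          linarith
        linarith
    · exact hA ((mm_near h1).trans (by linarith))

end Pool.Agent.DBA
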