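import Pool.Agent.DBA.Targets3
import Pool.Agent.DBN.ZC1
import Pool.Agent.DBN.Z0

/-!
# DBA part 3, block JNX: at most `C log T` zeros of `H_t` near `2 T`
-/

set_option autoImplicit false

namespace Pool.Agent.DBA

open Complex MeasureTheory Set Filter Metric
open Pool.Agent.DBN Pool.Agent.DBC

namespace JNX_

/-- the points of the disc in the coordinates of `DBC.pt` -/
lemma pt_eq (T : ℝ) (w : ℂ) :
    (1 / 2 + (T : ℂ) * I + w : ℂ) = Pool.Agent.DBC.pt w.re (T + w.im) := by
  unfold Pool.Agent.DBC.pt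
  apply Complex.ext
  · simp
  · simp

/-- the exponential factor of the Jensen step -/
lemma exp_eq {S x : ℝ} (hS : 0 < S) :
    Real.exp (1 * (1 / 2 + x - Real.log S)) = Real.exp (1 / 2 + x) / S := by
  rw [one_mul, Real.exp_sub, Real.exp_log hS]

end JNX_

open JNX_ in
theorem p_JNX (h1 : T_LWX) (h2 : T_UPX) : T_JNX := by
  intro c₁ c₂ K hc₁ hc hK
  have hK3 : 0 < K + 3 := by linarith
  obtain ⟨T₁, hT₁, hlow⟩ := h1 c₁ c₂ (K + 3) hc₁ hc hK3
  obtain ⟨A, T₂, hA, hT₂, hup⟩ := h2 c₁ c₂ (K + 3) hc₁ hc hK3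
  have hlogR : 0 < Real.log ((K / 2 + 2) / (K / 2 + 1)) := by
    apply Real.log_pos
    rw [one_lt_div (by linarith)]
    linarith
  refine ⟨2 * (A + K + 4) / Real.log ((K / 2 + 2) / (K / 2 + 1)),
    max (max T₁ T₂) (K + 6), by positivity, le_max_of_le_left (le_max_of_le_left hT₁), ?_⟩
  intro t T hT ht₁ ht₂
  have hT1 : T₁ ≤ T := (le_max_left _ _).trans ((le_max_left _ _).trans hT)
  have hT2 : T₂ ≤ T := (le_max_right _ _).trans ((le_max_left _ _).trans hT)
  have hT3 : K + 6 ≤ T := (le_max_right _ _).trans hT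
  have hTpos : 0 < T := by linarith
  have hsz := size_pos hTpos
  have hL1 : 1 ≤ Real.log T := by
    rw [Real.le_log_iff_exp_le hTpos]
    have := Real.exp_one_lt_three
    linarith
  have hL0 : 0 < Real.log T := by linarith
  set L := Real.log T with hL
  rw [zeroCount_H]
  have hcen : (1 / 2 + I * (2 * (T : ℂ)) / 2 : ℂ) = 1 / 2 + T * I + 0 := by ring
  rw [hcen]
  have hj := ZC1Aux.jensen (t := t) (l := 1) (b₀ := Real.log (size T)) (T := T) (r := K / 2)
    (ρ := K / 2 + 1) (R := K / 2 + 2) (b := (A + K + 4) * L) (w₀ := 0) (w₁ := 1) (by linarith)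
    (by linarith) (by positivity) (by rw [norm_one]; linarith) ?_ ?_ ?_
  · refine hj.trans (le_of_eq ?_)
    ring
  · intro w hw
    rw [mem_closedBall, dist_eq_norm] at hw
    have hre : |w.re - 1| ≤ K / 2 + 2 := by
      have := Complex.abs_re_le_norm (w - 1)
      simp only [Complex.sub_re, Complex.one_re] at this
      exact this.trans hw
    have him : |w.im| ≤ K / 2 + 2 := by
      have := Complex.abs_im_le_norm (w - 1)
      simp only [Complex.sub_im, Complex.one_im, sub_zero] at this
      exact this.trans hw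
    have hre2 := abs_le.mp hre
    have hx : |w.re| ≤ K + 3 := by
      rw [abs_le]
      constructor <;> linarith
    have hτ : |T + w.im - T| ≤ K + 3 := by
      rw [add_sub_cancel_left]
      linarith
    have h3 := hup t T w.re (T + w.im) hT2 ht₁ ht₂ hx hτ
    rw [pt_eq, exp_eq hsz]
    have h4 : Real.exp (1 / 2 + w.re) ≤ Real.exp ((K + 4) * L) := by
      apply Real.exp_le_exp.mpr
      have : (K + 4) * 1 ≤ (K + 4) * L := mul_le_mul_of_nonneg_left hL1 (by linarith)
      linarith
    calc ‖flow t (Pool.Agent.DBC.pt w.re (T + w.im))‖ * (Real.exp (1 / 2 + w.re) / size T)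
        ≤ (size T * T ^ A) * (Real.exp (1 / 2 + w.re) / size T) :=
          mul_le_mul_of_nonneg_right h3 (by positivity)
      _ = T ^ A * Real.exp (1 / 2 + w.re) := by field_simp
      _ ≤ T ^ A * Real.exp ((K + 4) * L) :=
          mul_le_mul_of_nonneg_left h4 (Real.rpow_nonneg hTpos.le _)
      _ = Real.exp ((A + K + 4) * L) := by
          rw [Real.rpow_def_of_pos hTpos, ← Real.exp_add]
          congr 1
          rw [← hL]
          ring
  · have h3 := hlow t T 1 T hT1 ht₁ ht₂ le_rfl (by linarith)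
      (by rw [sub_self, abs_zero]; linarith)
    rw [pt_eq, exp_eq hsz]
    have e1 : (1 : ℂ).re = 1 := Complex.one_re
    have e2 : T + (1 : ℂ).im = T := by rw [Complex.one_im, add_zero]
    rw [e1, e2]
    have h4 : (1 : ℝ) ≤ Real.exp (1 / 2 + 1) := Real.one_le_exp (by norm_num)
    calc Real.exp (-((A + K + 4) * L)) ≤ 1 := by
          apply Real.exp_le_one_iff.mpr
          have : 0 ≤ (A + K + 4) * L := by positivity
          linarith
      _ ≤ Real.exp (1 / 2 + 1) := h4
      _ = size T * (Real.exp (1 / 2 + 1) / size T) := by field_simp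
      _ ≤ ‖flow t (Pool.Agent.DBC.pt 1 T)‖ * (Real.exp (1 / 2 + 1) / size T) :=
          mul_le_mul_of_nonneg_right h3 (by positivity)
  · intro z hz
    rw [mem_closedBall, dist_eq_norm] at hz ⊢
    rw [sub_zero] at hz
    refine (norm_sub_le _ _).trans ?_
    rw [norm_one]
    linarith

end Pool.Agent.DBA
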