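import Pool.Agent.DBA.Targets3
import Pool.Agent.DBC.P_SAD

/-!
DBA, LWX: uniform lower bound for the flow to the right of the strip.
-/

set_option autoImplicit false

namespace Pool.Agent.DBA

open Complex MeasureTheory Set Filter
open Pool.Agent.DBN Pool.Agent.DBC

namespace LWX_

theorem one_sub_pt (x τ : ℝ) :
    1 - Pool.Agent.DBC.pt x τ = (starRingEnd ℂ) (Pool.Agent.DBC.pt (-x) τ) := by
  unfold Pool.Agent.DBC.pt
  apply Complex.ext
  · simp
    ring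
  · simp

end LWX_

open LWX_ in
theorem p_LWX (h1 : Pool.Agent.DBC.T_SPL) (h2 : Pool.Agent.DBC.T_CNJ)
    (h3 : Pool.Agent.DBC.T_IGR) (h4 : T_NEX) (h5 : T_OFX) (h6 : T_OBX) : T_LWX := by
  intro c₁ c₂ K hc₁ hc₂ hK
  obtain ⟨r, hr, hr4, hN⟩ := h4 c₁ c₂ K hc₁ hc₂ hK
  obtain ⟨g, C, T₂, hg, hC, hT₂, hO⟩ := h5 c₁ c₂ K r hc₁ hc₂ hK hr
  obtain ⟨g', C', T₅, hg', hC', hT₅, hB⟩ := h6 c₁ c₂ K hc₁ hc₂ hK
  obtain ⟨e, he⟩ : ∃ e : ℝ, e = min (min (g / 2) (g' / 2)) (1 / 4) := ⟨_, rfl⟩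
  have he0 : 0 < e := by
    rw [he]
    exact lt_min (lt_min (by linarith) (by linarith)) (by norm_num)
  have he1 : e ≤ g / 2 := by
    rw [he]
    exact (min_le_left _ _).trans (min_le_left _ _)
  have he2 : e ≤ g' / 2 := by
    rw [he]
    exact (min_le_left _ _).trans (min_le_right _ _)
  have he3 : e ≤ 1 / 4 := by
    rw [he]
    exact min_le_right _ _
  obtain ⟨T₁, hT₁, hN1⟩ := hN e he0
  obtain ⟨T₃, hT₃, hA⟩ := SAD_.absorb C (g / 2) (1 / 4) (by linarith) (by norm_num)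
  obtain ⟨T₄, hT₄, hA'⟩ := SAD_.absorb C' (g' / 2) (1 / 4) (by linarith) (by norm_num)
  obtain ⟨T₀, hT₀⟩ : ∃ T₀ : ℝ, T₀ = T₁ + T₂ + T₃ + T₄ + T₅ + 16 +
    Real.exp (Real.pi * c₂) := ⟨_, rfl⟩
  have hexp : 0 < Real.exp (Real.pi * c₂) := Real.exp_pos _
  refine ⟨T₀, by linarith, ?_⟩
  intro t T x τ hT hc1 hc2 hx1 hx2 hτ
  have n1 := hN1 t T x τ (by linarith) hc1 hc2 hx1 hx2 hτ
  have o1 := hO t T x τ (by linarith) hc1 hc2 hx1 hx2 hτ
  have b1 := hB t T x τ (by linarith) hc1 hc2 hx1 hx2 hτ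
  have a1 := hA T (by linarith)
  have a2 := hA' T (by linarith)
  have hT16 : 16 ≤ T := by linarith
  have hTpos : 0 < T := by linarith
  have hlog : 0 < Real.log T := Real.log_pos (by linarith)
  have ht : 0 < t := by
    by_contra hn
    have h0 : t * Real.log T ≤ 0 := mul_nonpos_of_nonpos_of_nonneg (not_lt.1 hn) hlog.le
    linarith
  have hsd : r < sd t T := by
    unfold sd
    linarith
  have hs : 0 < size T := by
    unfold size
    positivity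
  obtain ⟨A, hAdef⟩ : ∃ A : ℝ, A = t * Real.log T / 16 + x / 2 := ⟨_, rfl⟩
  rw [← hAdef] at n1 o1 b1
  obtain ⟨s, hsdef⟩ : ∃ s : ℂ, s = Pool.Agent.DBC.pt x τ := ⟨_, rfl⟩
  have hone := one_sub_pt x τ
  rw [← hsdef] at n1 o1 hone ⊢
  obtain ⟨i1, -, -⟩ := h3 t s ht
  have hsub : Ioo (sd t T - r) (sd t T + r) ⊆ Ioi (0 : ℝ) := fun u hu => by
    have := hu.1
    show 0 < u
    linarith
  have hnorm : ∀ u : ℝ, ‖((Real.exp (-(u ^ 2 / t)) : ℝ) : ℂ) * xi (s + u)‖ =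
      Real.exp (-(u ^ 2 / t)) * ‖xi (s + u)‖ := fun u => by
    rw [norm_mul, norm_real, Real.norm_eq_abs, abs_of_pos (Real.exp_pos _)]
  have hG : IntegrableOn (fun u : ℝ => Real.exp (-(u ^ 2 / t)) * ‖xi (s + u)‖)
      (Ioi (0 : ℝ) \ Ioo (sd t T - r) (sd t T + r)) :=
    ((i1.norm).congr (Eventually.of_forall hnorm)).integrableOn
  have s1 := SAD_.split
    (P := ∫ u in Ioo (sd t T - r) (sd t T + r),
      ((Real.exp (-(u ^ 2 / t)) : ℝ) : ℂ) * xi (s + u)) (a := 0)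
    measurableSet_Ioo hsub i1 hG (fun u _ => (hnorm u).le) (by simp) o1
  have s2 : ‖∫ u in Ioo (sd t T - r) (sd t T + r),
      ((Real.exp (-(u ^ 2 / t)) : ℝ) : ℂ) * xi (s + u)‖ ≤
      ‖W t s‖ + C * (size T * T ^ (A - g)) := by
    rw [zero_add] at s1
    have s3 := norm_sub_rev (W t s) (∫ u in Ioo (sd t T - r) (sd t T + r),
      ((Real.exp (-(u ^ 2 / t)) : ℝ) : ℂ) * xi (s + u))
    have s4 := norm_sub_norm_le (∫ u in Ioo (sd t T - r) (sd t T + r),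
      ((Real.exp (-(u ^ 2 / t)) : ℝ) : ℂ) * xi (s + u)) (W t s)
    have s5 : ‖W t s - ∫ u in Ioo (sd t T - r) (sd t T + r),
      ((Real.exp (-(u ^ 2 / t)) : ℝ) : ℂ) * xi (s + u)‖ ≤ C * (size T * T ^ (A - g)) := s1
    linarith
  have hsm : ∀ C₀ g₀ : ℝ, e ≤ g₀ / 2 → C₀ * T ^ (-(g₀ / 2)) ≤ 1 / 4 →
      C₀ * (size T * T ^ (A - g₀)) ≤ 1 / 4 * (size T * T ^ (A - e)) := by
    intro C₀ g₀ hg₀ hC₀
    have hpow : T ^ (A - g₀) = T ^ (-(g₀ / 2)) * T ^ (A - g₀ / 2) := by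
      rw [← Real.rpow_add hTpos]
      congr 1
      ring
    have hmono : T ^ (A - g₀ / 2) ≤ T ^ (A - e) :=
      Real.rpow_le_rpow_of_exponent_le (by linarith) (by linarith)
    have e1 : C₀ * (size T * T ^ (A - g₀)) =
        (C₀ * T ^ (-(g₀ / 2))) * (size T * T ^ (A - g₀ / 2)) := by
      rw [hpow]
      ring
    rw [e1]
    exact mul_le_mul hC₀ (mul_le_mul_of_nonneg_left hmono hs.le) (by positivity)
      (by norm_num)
  have k1 := hsm C g he1 a1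
  have k2 := hsm C' g' he2 a2
  have hW1 : 3 / 4 * (size T * T ^ (A - e)) ≤ ‖W t s‖ := by linarith
  have hW2 : ‖W t (1 - s)‖ ≤ 1 / 4 * (size T * T ^ (A - e)) := by
    rw [hone, h2, Complex.norm_conj]
    exact b1.trans k2
  have hsum : 1 / 2 * (size T * T ^ (A - e)) ≤ ‖W t s + W t (1 - s)‖ := by
    have := norm_sub_le_norm_add (W t s) (W t (1 - s))
    linarith
  have hTA : 2 ≤ T ^ (A - e) := by
    have e1 : (1 / 4 : ℝ) ≤ A - e := by
      have h0 : 0 ≤ t * Real.log T := by positivity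
      rw [hAdef]
      linarith
    calc (2 : ℝ) = (16 : ℝ) ^ (1 / 4 : ℝ) := by
          rw [show (16 : ℝ) = 2 ^ (4 : ℝ) by norm_num, ← Real.rpow_mul (by norm_num)]
          norm_num
      _ ≤ T ^ (1 / 4 : ℝ) := Real.rpow_le_rpow (by norm_num) hT16 (by norm_num)
      _ ≤ T ^ (A - e) := Real.rpow_le_rpow_of_exponent_le (by linarith) e1
  have hroot : 1 ≤ (√(Real.pi * t))⁻¹ := by
    have h7 : Real.pi * c₂ ≤ Real.log T := by
      rw [← Real.log_exp (Real.pi * c₂)]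
      exact Real.log_le_log hexp (by linarith)
    have h8 : Real.pi * t ≤ 1 := by
      have h9 : Real.pi * t * Real.log T ≤ 1 * Real.log T := by
        calc Real.pi * t * Real.log T = Real.pi * (t * Real.log T) := by ring
          _ ≤ Real.pi * c₂ := mul_le_mul_of_nonneg_left hc2 Real.pi_pos.le
          _ ≤ 1 * Real.log T := by linarith
      exact le_of_mul_le_mul_right h9 hlog
    have h10 : 0 < √(Real.pi * t) := Real.sqrt_pos.2 (by positivity)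
    have h11 : √(Real.pi * t) ≤ 1 := Real.sqrt_le_one.2 h8
    exact (one_le_inv₀ h10).2 h11
  rw [h1 t s ht, norm_mul, norm_real, Real.norm_of_nonneg (by positivity)]
  calc size T = 1 * (1 / 2 * (size T * 2)) := by ring
    _ ≤ 1 * (1 / 2 * (size T * T ^ (A - e))) := by
        have := mul_le_mul_of_nonneg_left hTA hs.le
        linarith
    _ ≤ (√(Real.pi * t))⁻¹ * (1 / 2 * (size T * T ^ (A - e))) :=
        mul_le_mul_of_nonneg_right hroot (by positivity)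
    _ ≤ (√(Real.pi * t))⁻¹ * ‖W t s + W t (1 - s)‖ :=
        mul_le_mul_of_nonneg_left hsum (by positivity)

end Pool.Agent.DBA
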