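import Pool.Agent.DBA.Targets3

/-!
# DBA part 3, target `T_MAX`: measure of the bad heights in `[X / 2, 4 X]`
-/

set_option autoImplicit false

namespace Pool.Agent.DBA

open Complex MeasureTheory Set Filter
open Pool.Agent.DBN Pool.Agent.DBC

theorem p_MAX : T_MAX := by
  intro c₁ c₂ hA K ε hK hε
  obtain ⟨δ₀, X₀, hδ, h⟩ := hA K ε hK hε
  refine ⟨min δ₀ 1, max (2 * |X₀|) 2, lt_min hδ one_pos, min_le_right _ _, le_max_right _ _, ?_⟩
  intro X hX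
  obtain ⟨δ, hδe⟩ : ∃ δ, δ = min δ₀ 1 := ⟨_, rfl⟩
  rw [← hδe]
  have hd0 : δ ≤ δ₀ := by rw [hδe]; exact min_le_left _ _
  have hd1 : δ ≤ 1 := by rw [hδe]; exact min_le_right _ _
  have hX2 : 2 ≤ X := (le_max_right _ _).trans hX
  have hX3 : 2 * |X₀| ≤ X := (le_max_left _ _).trans hX
  have hX4 : X₀ ≤ |X₀| := le_abs_self _
  have hX5 : 0 ≤ |X₀| := abs_nonneg _
  have key : ∀ Y : ℝ, 1 ≤ Y → X₀ ≤ Y →
      volume {T : ℝ | Y ≤ T ∧ T ≤ 2 * Y ∧ ∃ t : ℝ, c₁ ≤ t * Real.log T ∧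
        t * Real.log T ≤ c₂ ∧ ¬ CrysAt K ε t T} ≤ ENNReal.ofReal (Y ^ (1 - δ)) := by
    intro Y h1 h2
    refine (h Y h2).trans (ENNReal.ofReal_le_ofReal ?_)
    exact Real.rpow_le_rpow_of_exponent_le h1 (by linarith)
  have hs : AX c₁ c₂ K ε X ⊆
      ({T : ℝ | X / 2 ≤ T ∧ T ≤ 2 * (X / 2) ∧ ∃ t : ℝ, c₁ ≤ t * Real.log T ∧
        t * Real.log T ≤ c₂ ∧ ¬ CrysAt K ε t T} ∪
      {T : ℝ | X ≤ T ∧ T ≤ 2 * X ∧ ∃ t : ℝ, c₁ ≤ t * Real.log T ∧
        t * Real.log T ≤ c₂ ∧ ¬ CrysAt K ε t T}) ∪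
      {T : ℝ | 2 * X ≤ T ∧ T ≤ 2 * (2 * X) ∧ ∃ t : ℝ, c₁ ≤ t * Real.log T ∧
        t * Real.log T ≤ c₂ ∧ ¬ CrysAt K ε t T} := by
    intro T hT
    obtain ⟨h1, h2, h3⟩ := hT
    rcases le_total T X with h4 | h4
    · exact Or.inl (Or.inl ⟨h1, by linarith, h3⟩)
    · rcases le_total T (2 * X) with h5 | h5
      · exact Or.inl (Or.inr ⟨h4, h5, h3⟩)
      · exact Or.inr ⟨h5, by linarith, h3⟩
  have e1 : (X / 2) ^ (1 - δ) ≤ X ^ (1 - δ) :=
    Real.rpow_le_rpow (by linarith) (by linarith) (by linarith)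
  have e2 : (2 * X) ^ (1 - δ) ≤ 2 * X ^ (1 - δ) := by
    rw [Real.mul_rpow (by norm_num) (by linarith)]
    refine mul_le_mul_of_nonneg_right ?_ (Real.rpow_nonneg (by linarith) _)
    have h6 : (2 : ℝ) ^ (1 - δ) ≤ (2 : ℝ) ^ (1 : ℝ) := by
      have h7 : 0 < δ := by rw [hδe]; exact lt_min hδ one_pos
      exact Real.rpow_le_rpow_of_exponent_le (by norm_num) (by linarith)
    rwa [Real.rpow_one] at h6
  have p0 : 0 ≤ X ^ (1 - δ) := Real.rpow_nonneg (by linarith) _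
  have p1 : 0 ≤ (X / 2) ^ (1 - δ) := Real.rpow_nonneg (by linarith) _
  have p2 : 0 ≤ (2 * X) ^ (1 - δ) := Real.rpow_nonneg (by linarith) _
  refine (measure_mono hs).trans ((measure_union_le _ _).trans
    ((add_le_add (measure_union_le _ _) le_rfl).trans
    ((add_le_add (add_le_add (key (X / 2) (by linarith) (by linarith))
      (key X (by linarith) (by linarith))) (key (2 * X) (by linarith) (by linarith))).trans ?_)))
  rw [← ENNReal.ofReal_add p1 p0, ← ENNReal.ofReal_add (by linarith) p2]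
  exact ENNReal.ofReal_le_ofReal (by linarith)

end Pool.Agent.DBA
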