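import Pool.Agent.DBA.Targets3
import Pool.Agent.DBC.P_NEA

/-!
# Target NEX: the saddle point, far to the right
-/

set_option autoImplicit false

namespace Pool.Agent.DBA

open Complex MeasureTheory Set Filter Topology
open Pool.Agent.DBN Pool.Agent.DBC

namespace NEX_

lemma low_q {t L c₁ : ℝ} (ht : 0 < t) (hL : 1 ≤ L) (h0 : 0 < c₁) (h : c₁ ≤ t * L)
    (hc : 1 / c₁ ≤ L) : 1 ≤ √(Real.pi * t) * L := by
  have h1 : 1 ≤ c₁ * L := by
    rw [div_le_iff₀ h0] at hc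
    linarith
  have h2 : c₁ * L ≤ t * L * L := by gcongr
  have h3 : 1 ≤ t * L ^ 2 := by nlinarith
  have h4 : 1 ≤ Real.pi * t * L ^ 2 := by
    have h14 := Real.pi_gt_three
    nlinarith
  have h5 : 0 ≤ √(Real.pi * t) * L := by positivity
  rw [← one_le_sq_iff₀ h5, mul_pow, Real.sq_sqrt (by positivity)]
  exact h4

end NEX_

open NEX_

theorem p_NEX (h1 : Pool.Agent.DBC.T_LOC) (h2 : Pool.Agent.DBC.T_GAU) : T_NEX := by
  intro c₁ c₂ K hc hcc hK
  obtain ⟨r₀, C, T₁, hr₀, hC, hT₁, hloc⟩ := h1 (1 / 2) (K + c₂ + 1) (by norm_num) (by linarith)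
  set r : ℝ := min r₀ (min (1 / 4) (c₁ / 8)) with hr
  have hr0 : 0 < r := lt_min hr₀ (lt_min (by norm_num) (by linarith))
  have hrc : r ≤ c₁ / 8 := (min_le_right _ _).trans (min_le_right _ _)
  refine ⟨r, hr0, by linarith, fun ε hε => ?_⟩
  obtain ⟨t₀, ht₀, hsm⟩ := Pool.Agent.DBC.NEA_.small_err hr0 hC (by norm_num : (0 : ℝ) < 1 / 2)
  have hC2 : 0 < 2 * C := by linarith
  obtain ⟨T₂, hT₂⟩ : ∃ T₂ : ℝ, ∀ T : ℝ, T₂ ≤ T → 2 * C * Real.log T ≤ T ^ ε := by
    have h3 := (isLittleO_log_rpow_atTop hε).bound (inv_pos.mpr hC2)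
    obtain ⟨T₂, h4⟩ := eventually_atTop.mp h3
    refine ⟨max T₂ 1, fun T hT => ?_⟩
    have h5 := h4 T ((le_max_left _ _).trans hT)
    have hT1 : 1 ≤ T := (le_max_right _ _).trans hT
    rw [Real.norm_of_nonneg (Real.log_nonneg hT1),
      Real.norm_of_nonneg (by positivity)] at h5
    calc 2 * C * Real.log T ≤ 2 * C * ((2 * C)⁻¹ * T ^ ε) := by gcongr
      _ = T ^ ε := by field_simp
  refine ⟨max (max T₁ T₂) (Real.exp (max (max 1 (1 / c₁)) (c₂ / t₀))), ?_, ?_⟩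
  · exact hT₁.trans ((le_max_left _ _).trans (le_max_left _ _))
  intro t T x τ hT h3 h4 h5 h6 h7
  have hTa : T₁ ≤ T := ((le_max_left _ _).trans (le_max_left _ _)).trans hT
  have hTb : T₂ ≤ T := ((le_max_right _ _).trans (le_max_left _ _)).trans hT
  have hTc : Real.exp (max (max 1 (1 / c₁)) (c₂ / t₀)) ≤ T := (le_max_right _ _).trans hT
  have hT0 : 0 < T := by linarith
  have hL : max (max 1 (1 / c₁)) (c₂ / t₀) ≤ Real.log T := by
    rwa [Real.le_log_iff_exp_le hT0]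
  have hL1 : 1 ≤ Real.log T := ((le_max_left _ _).trans (le_max_left _ _)).trans hL
  have hL3 : 1 / c₁ ≤ Real.log T := ((le_max_right _ _).trans (le_max_left _ _)).trans hL
  have hL2 : c₂ / t₀ ≤ Real.log T := (le_max_right _ _).trans hL
  have hL0 : 0 < Real.log T := by linarith
  have ht0 : 0 < t := by
    by_contra hcon
    push Not at hcon
    have := mul_nonpos_of_nonpos_of_nonneg hcon hL0.le
    linarith
  have htt : t ≤ t₀ := by
    rw [div_le_iff₀ ht₀] at hL2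
    refine le_of_mul_le_mul_right (?_ : t * Real.log T ≤ t₀ * Real.log T) hL0
    rw [mul_comm t₀]
    exact h4.trans hL2
  obtain ⟨hs1, -⟩ := hsm t ht0 htt
  obtain ⟨hg1, hg2, hg3⟩ := h2 r t hr0 ht0
  set s : ℂ := Pool.Agent.DBC.pt x τ with hs
  set X : ℂ := xi (s + sd t T) with hX
  have hsre : s.re = 1 / 2 + x := by rw [hs, Pool.Agent.DBC.pt]; simp
  have hsim : s.im = τ := by rw [hs, Pool.Agent.DBC.pt]; simp
  have hre : (s + sd t T).re = 1 / 2 + x + t * Real.log T / 4 := by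
    rw [add_re, hsre, ofReal_re, sd]
  have him : (s + sd t T).im = τ := by
    rw [add_im, hsim, ofReal_im, add_zero]
  obtain ⟨h8, h9⟩ := hloc T (s + sd t T) hTa (by rw [hre]; linarith) (by rw [hre]; linarith)
    (by rw [him]; linarith)
  rw [← hX] at h8 h9
  obtain ⟨l1, -⟩ := Pool.Agent.DBC.NEA_.local_est (s := s) (X := X) ht0 hT0 hr0 hC
    (fun v hv => h9 v (hv.trans (min_le_left _ _)))
  set A := Real.exp (-(sd t T ^ 2 / t)) with hA
  have hA0 : 0 < A := Real.exp_pos _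
  set q := √(Real.pi * t) with hq
  have hq0 : 0 < q := Real.sqrt_pos.mpr (by positivity)
  set G := ∫ v in Ioo (-r) r, Real.exp (-(v ^ 2 / t)) with hG
  set M := ∫ v in Ioo (-r) r, |v| * Real.exp (-(v ^ 2 / t)) with hM
  set I1 := ∫ u in Ioo (sd t T - r) (sd t T + r),
      ((Real.exp (-(u ^ 2 / t)) : ℝ) : ℂ) * xi (s + u) with hI1
  clear_value I1 G M A q X
  have k1 : ‖I1 - ((A * q : ℝ) : ℂ) * X‖ ≤ A * q * ‖X‖ / 2 := by
    have e1 : I1 - ((A * q : ℝ) : ℂ) * X =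
        (I1 - ((A * G : ℝ) : ℂ) * X) + ((A * (G - q) : ℝ) : ℂ) * X := by
      push_cast
      ring
    have h10 : |G - q| ≤ 2 * q * Real.exp (-(r ^ 2 / (2 * t))) := by
      rw [abs_le]
      constructor
      · linarith
      · have : 0 ≤ 2 * q * Real.exp (-(r ^ 2 / (2 * t))) := by positivity
        linarith
    have h11 : ‖((A * (G - q) : ℝ) : ℂ) * X‖ ≤
        A * (2 * q * Real.exp (-(r ^ 2 / (2 * t)))) * ‖X‖ := by
      rw [norm_mul, Complex.norm_real, Real.norm_eq_abs, abs_mul, abs_of_pos hA0]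
      gcongr
    rw [e1]
    calc ‖(I1 - ((A * G : ℝ) : ℂ) * X) + ((A * (G - q) : ℝ) : ℂ) * X‖
        ≤ ‖I1 - ((A * G : ℝ) : ℂ) * X‖ + ‖((A * (G - q) : ℝ) : ℂ) * X‖ := norm_add_le _ _
      _ ≤ A * ‖X‖ * C * M + A * (2 * q * Real.exp (-(r ^ 2 / (2 * t)))) * ‖X‖ :=
          add_le_add l1 h11
      _ ≤ A * ‖X‖ * C * t + A * (2 * q * Real.exp (-(r ^ 2 / (2 * t)))) * ‖X‖ := by gcongr
      _ = A * ‖X‖ * (2 * q * Real.exp (-(r ^ 2 / (2 * t))) + C * t) := by ring
      _ ≤ A * ‖X‖ * (1 / 2 * q) := by gcongr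
      _ = _ := by ring
  have k2 : A * q * ‖X‖ / 2 ≤ ‖I1‖ := by
    have e1 : ‖((A * q : ℝ) : ℂ) * X‖ = A * q * ‖X‖ := by
      rw [norm_mul, Complex.norm_real, Real.norm_of_nonneg (by positivity)]
    have e2 := norm_le_norm_add_norm_sub' (((A * q : ℝ) : ℂ) * X) I1
    rw [norm_sub_rev, e1] at e2
    linarith
  refine le_trans ?_ k2
  have e2 : A = T ^ (-(t * Real.log T / 16)) := by
    rw [hA, Real.rpow_def_of_pos hT0]
    congr 1
    unfold sd
    field_simp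
    ring
  have e3 : ((s + sd t T).re - 1 / 2) / 2 = x / 2 + t * Real.log T / 8 := by
    rw [hre]
    ring
  rw [e3] at h8
  have hlow : 1 ≤ q * Real.log T := by
    rw [hq]
    exact NEX_.low_q ht0 hL1 hc h3 hL3
  have h17 : 2 * C ≤ q * T ^ ε := by
    have h18 := hT₂ T hTb
    calc 2 * C = 2 * C * 1 := (mul_one _).symm
      _ ≤ 2 * C * (q * Real.log T) := by gcongr
      _ = q * (2 * C * Real.log T) := by ring
      _ ≤ q * T ^ ε := by gcongr
  have hsz : 0 ≤ size T := by unfold size; positivity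
  have e4 : T ^ (t * Real.log T / 16 + x / 2 - ε) * T ^ ε =
      A * T ^ (x / 2 + t * Real.log T / 8) := by
    rw [e2, ← Real.rpow_add hT0, ← Real.rpow_add hT0]
    congr 1
    ring
  have hTε : 0 < T ^ ε := by positivity
  have h19 : size T * T ^ (t * Real.log T / 16 + x / 2 - ε) * T ^ ε ≤
      A * q * ‖X‖ / 2 * T ^ ε := by
    calc size T * T ^ (t * Real.log T / 16 + x / 2 - ε) * T ^ ε
        = A * (size T * T ^ (x / 2 + t * Real.log T / 8)) := by
          rw [mul_assoc, e4]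
          ring
      _ ≤ A * (C * ‖X‖) := by gcongr
      _ = A * (2 * C * ‖X‖) / 2 := by ring
      _ ≤ A * (q * T ^ ε * ‖X‖) / 2 := by gcongr
      _ = _ := by ring
  exact le_of_mul_le_mul_right h19 hTε

end Pool.Agent.DBA
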