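import Pool.Agent.DBA.Targets3
import Pool.Agent.DBC.P_OFA
import Pool.Agent.DBC.Q_OA2

/-!
# DBA, target `T_OFX`: away from the saddle point, to the right of the critical strip
-/

set_option autoImplicit false

namespace Pool.Agent.DBA

open Complex MeasureTheory Set Filter Topology
open Pool.Agent.DBN Pool.Agent.DBC

theorem p_OFX (h1 : T_XI4) (h2 : T_INX) : T_OFX := by
  intro c₁ c₂ K r hc1 hcc hK hr
  obtain ⟨g, κ, hg, hκ, h⟩ := h2 c₁ c₂ r hc1 hcc hr
  obtain ⟨C, hC, hb⟩ := Pool.Agent.DBC.OFA_.bound (l := 4) h1 hκ hg hK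
  obtain ⟨J, hJ⟩ : ∃ J, J = ∫ u : ℝ, Real.exp (-(κ / 4) * u ^ 2) := ⟨_, rfl⟩
  have hJ0 : 0 ≤ J := by
    rw [hJ]
    exact integral_nonneg fun u => by positivity
  refine ⟨g / 2, C * J, 2, by positivity, by positivity, le_rfl, ?_⟩
  intro t T x τ hT h1 h2 h3 h4 h5
  have hL := Pool.Agent.DBC.OFA_.log_ge hT
  have hc : 0 < t * Real.log T := by linarith
  have ht : 0 < t := by
    by_contra h6
    have : t * Real.log T ≤ 0 := mul_nonpos_of_nonpos_of_nonneg (by linarith) (by linarith)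
    linarith
  have hx2 : |x| ≤ K := abs_le.2 ⟨by linarith, h4⟩
  have hA : 0 ≤ size T * T ^ (t * Real.log T / 16 + x / 2 - g / 2) := by
    have := Pool.Agent.DBC.OFA_.size_nonneg' hT
    have : 0 ≤ T := by linarith
    positivity
  have hp : ∀ u : ℝ, 0 ≤ u → r ≤ |u - t * Real.log T / 4| →
      Real.exp (-(u ^ 2 / t)) * ‖xi (Pool.Agent.DBC.pt x τ + u)‖ ≤
        C * (size T * T ^ (t * Real.log T / 16 + x / 2 - g / 2)) *
          Real.exp (-(κ / 4) * u ^ 2) := by
    intro u hu hru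
    exact hb t T x τ u (t * Real.log T / 16 + x / 2) hT ht hx2 h5
      ((h (t * Real.log T) x u h1 h2 h3 hu).1 hru)
  have h6 := Pool.Agent.DBC.OA22_.int_bound (κ := κ / 4)
    (A := C * (size T * T ^ (t * Real.log T / 16 + x / 2 - g / 2)))
    (S := Ioi (0 : ℝ) \ Ioo (sd t T - r) (sd t T + r))
    (f := fun u => Real.exp (-(u ^ 2 / t)) * ‖xi (Pool.Agent.DBC.pt x τ + u)‖)
    (by positivity) (by positivity) (measurableSet_Ioi.diff measurableSet_Ioo)
    (fun u => by positivity) (by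
      rintro u ⟨hu1, hu2⟩
      refine hp u (le_of_lt hu1) ?_
      by_contra h7
      push Not at h7
      rw [abs_lt] at h7
      exact hu2 ⟨by unfold sd; linarith, by unfold sd; linarith⟩)
  rw [← hJ] at h6
  refine h6.trans (le_of_eq ?_)
  ring

end Pool.Agent.DBA
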