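import Pool.Agent.DBA.Targets3
import Pool.Agent.DBN.PhiC
import Pool.Agent.DBN.FlowReg

/-!
# DBA: the sum of the orders of zeros in a disc is at most `zeroCount`
-/

set_option autoImplicit false

namespace Pool.Agent.DBA

open Complex MeasureTheory Set Filter
open Pool.Agent.DBN Pool.Agent.DBC

namespace ORD_

open Metric

theorem differentiable_H (t : ℝ) : Differentiable ℂ (H t) := by
  have h1 : H t = fun z => (1 / 8 : ℂ) * flow t (I / 2 * z + 1 / 2) := by
    funext z
    rw [H_eq_flow]
    have : (1 / 2 + I * z / 2 : ℂ) = I / 2 * z + 1 / 2 := by ring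
    rw [this]
    ring
  rw [h1]
  refine Differentiable.const_mul ?_ _
  exact (differentiable_flow t).comp ((differentiable_id.const_mul (I / 2)).add_const (1 / 2))

theorem divisor_eq {f : ℂ → ℂ} (hf : Differentiable ℂ f) {s a : ℂ} {r : ℝ}
    (ha : a ∈ closedBall s r) :
    MeromorphicOn.divisor f (closedBall s r) a = (analyticOrderNatAt f a : ℤ) := by
  have hana : AnalyticOnNhd ℂ f (closedBall s r) := fun z _ => hf.analyticAt z
  rw [MeromorphicOn.AnalyticOnNhd.divisor_apply hana ha]
  unfold analyticOrderNatAt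
  by_cases h : analyticOrderAt f a = ⊤
  · rw [h]
    simp
  · obtain ⟨n, hn⟩ := ENat.ne_top_iff_exists.1 h
    rw [← hn]
    simp

theorem gen {f : ℂ → ℂ} (hf : Differentiable ℂ f) (s : ℂ) (r : ℝ) (F : Finset ℂ)
    (hF : ∀ z ∈ F, ‖z - s‖ ≤ r) :
    ((∑ z ∈ F, analyticOrderNatAt f z : ℕ) : ℤ) ≤ zeroCount f s r := by
  classical
  have hana : AnalyticOnNhd ℂ f (closedBall s r) := fun z _ => hf.analyticAt z
  have hnn : ∀ z, 0 ≤ MeromorphicOn.divisor f (closedBall s r) z :=
    fun z => (MeromorphicOn.AnalyticOnNhd.divisor_nonneg hana) z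
  have hfin : (Function.support (fun z => MeromorphicOn.divisor f (closedBall s r) z)).Finite :=
    (MeromorphicOn.divisor f (closedBall s r)).finiteSupport (isCompact_closedBall s r)
  unfold zeroCount
  push_cast
  calc ∑ z ∈ F, (analyticOrderNatAt f z : ℤ)
      = ∑ z ∈ F, MeromorphicOn.divisor f (closedBall s r) z := by
        refine Finset.sum_congr rfl fun z hz => ?_
        rw [divisor_eq hf (mem_closedBall_iff_norm.2 (hF z hz))]
    _ ≤ ∑ z ∈ F ∪ hfin.toFinset, MeromorphicOn.divisor f (closedBall s r) z :=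
        Finset.sum_le_sum_of_subset_of_nonneg Finset.subset_union_left fun a _ _ => hnn a
    _ = ∑ᶠ u, MeromorphicOn.divisor f (closedBall s r) u := by
        rw [finsum_eq_sum_of_support_subset]
        intro u hu
        simp only [Finset.coe_union, Set.mem_union]
        right
        simpa using hu

end ORD_

theorem p_ORD : T_ORD := by
  intro t s r F hF
  have h := ORD_.gen (ORD_.differentiable_H t) s r F hF
  exact_mod_cast h

end Pool.Agent.DBA
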