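import Pool.Agent.DBA.Targets3
import Pool.Agent.DBC.Q_UP2
import Pool.Agent.DBC.P_ZER

/-!
# DBA part 3, target `T_UPX`: uniform crude upper bound for the flow
-/

set_option autoImplicit false

namespace Pool.Agent.DBA

open Complex MeasureTheory Set Filter Topology
open Pool.Agent.DBN Pool.Agent.DBC

namespace UPX_

theorem mm_le (y : ℝ) : mm 4 y ≤ |y| / 2 + 1 / 2 := by
  unfold mm
  split_ifs with h
  · have h1 : |y| ≤ 1 := by linarith
    have h2 : y ^ 2 ≤ 1 := by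
      rw [← sq_abs]
      nlinarith [abs_nonneg y]
    have := abs_nonneg y
    linarith
  · linarith

theorem expo {c₁ c₂ K c x u : ℝ} (hc₁ : 0 < c₁) (h1 : c₁ ≤ c) (h2 : c ≤ c₂) (hx : |x| ≤ K)
    (hu : 0 ≤ u) :
    mm 4 (x + u) - u ^ 2 / c ≤ (K / 2 + 3 / 2 + c₂ / 8) - 1 - (1 / (2 * c₂)) * u ^ 2 := by
  have hc : 0 < c := by linarith
  have hc2 : 0 < c₂ := by linarith
  have h3 := mm_le (x + u)
  have h4 : |x + u| ≤ K + u := by
    calc |x + u| ≤ |x| + |u| := abs_add_le x u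
      _ ≤ K + u := by rw [abs_of_nonneg hu]; linarith
  have h5 : u ^ 2 / c₂ ≤ u ^ 2 / c := by
    apply div_le_div_of_nonneg_left (by positivity) hc h2
  have h6 : u / 2 ≤ (1 / (2 * c₂)) * u ^ 2 + c₂ / 8 := by
    have h7 : (1 / (2 * c₂)) * u ^ 2 + c₂ / 8 - u / 2 = (u - c₂ / 2) ^ 2 / (2 * c₂) := by
      field_simp
      ring
    have h8 : 0 ≤ (u - c₂ / 2) ^ 2 / (2 * c₂) := by positivity
    linarith
  have h9 : u ^ 2 / c₂ = (1 / (2 * c₂)) * u ^ 2 + (1 / (2 * c₂)) * u ^ 2 := by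
    field_simp
    ring
  linarith

end UPX_

open OFA_ UP22_ UPX_ in
theorem p_UPX (h1 : Pool.Agent.DBC.T_SPL) (h2 : Pool.Agent.DBC.T_CNJ) (h3 : T_XI4) : T_UPX := by
  intro c₁ c₂ K hc₁ hcc hK
  have hc₂ : 0 < c₂ := by linarith
  obtain ⟨B, hB⟩ : ∃ B : ℝ, B = K / 2 + 3 / 2 + c₂ / 8 := ⟨_, rfl⟩
  obtain ⟨κ, hκe⟩ : ∃ κ : ℝ, κ = 1 / (2 * c₂) := ⟨_, rfl⟩
  have hκ : 0 < κ := by
    rw [hκe]
    positivity
  obtain ⟨C, hC, hb⟩ := bound (g₀ := 1) h3 hκ one_pos hK
  obtain ⟨J, hJ⟩ : ∃ J, J = ∫ u : ℝ, (1 + |u|) * Real.exp (-(κ / 4) * u ^ 2) := ⟨_, rfl⟩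
  have hJ0 : 0 ≤ J := by
    rw [hJ]
    exact integral_nonneg fun u => by positivity
  refine ⟨B + 2, max 2 (max (Real.exp (1 / c₁)) (2 * J * C)), ?_, le_max_left _ _, ?_⟩
  · rw [hB]
    positivity
  intro t T x τ hTm h4 h5 h6 h7
  have hT : 2 ≤ T := (le_max_left _ _).trans hTm
  have hT1 : Real.exp (1 / c₁) ≤ T := (le_max_left _ _).trans ((le_max_right _ _).trans hTm)
  have hT2 : 2 * J * C ≤ T := (le_max_right _ _).trans ((le_max_right _ _).trans hTm)
  have hT0 : 0 < T := by linarith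
  have hL := log_ge hT
  have hL1 : 1 / c₁ ≤ Real.log T := by
    have := Real.log_le_log (Real.exp_pos _) hT1
    rwa [Real.log_exp] at this
  have hc : 0 < t * Real.log T := by linarith
  have ht : 0 < t := by
    by_contra h8
    have : t * Real.log T ≤ 0 := mul_nonpos_of_nonpos_of_nonneg (by linarith) (by linarith)
    linarith
  have hs := size_nonneg' hT
  obtain ⟨A, hAe⟩ : ∃ A, A = size T * T ^ (B - 1 / 2) := ⟨_, rfl⟩
  have hA : 0 ≤ A := by
    rw [hAe]
    positivity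
  have hW : ∀ y : ℝ, |y| ≤ K → ‖W t (Pool.Agent.DBC.pt y τ)‖ ≤ J * (C * A) := by
    intro y hy
    have hp : ∀ u : ℝ, 0 ≤ u →
        ‖((Real.exp (-(u ^ 2 / t)) : ℝ) : ℂ) * xi (Pool.Agent.DBC.pt y τ + u)‖ ≤
        C * A * Real.exp (-(κ / 4) * u ^ 2) := by
      intro u hu
      rw [norm_mul, Complex.norm_real, Real.norm_of_nonneg (Real.exp_pos _).le, hAe]
      refine hb t T y τ u B hT ht hy h7 ?_
      rw [hB, hκe]
      exact expo hc₁ h4 h5 hy hu
    rw [hJ]
    exact int_le (κ := κ / 4) (by positivity) (by positivity) hp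
  have hW1 := hW x h6
  have hW2 : ‖W t (1 - Pool.Agent.DBC.pt x τ)‖ ≤ J * (C * A) := by
    rw [ZER_.one_sub_pt, h2, Complex.norm_conj]
    exact hW (-x) (by rwa [abs_neg])
  have hsq : (√(Real.pi * t))⁻¹ ≤ Real.log T := by
    have hLp : 0 < Real.log T := by linarith
    rw [inv_le_comm₀ (by positivity) hLp]
    apply Real.le_sqrt_of_sq_le
    have h8 : c₁ / Real.log T ≤ t := by
      rw [div_le_iff₀ hLp]
      exact h4
    have h9 : (Real.log T)⁻¹ ≤ c₁ := by
      rw [inv_le_comm₀ hLp hc₁]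
      rwa [one_div] at hL1
    calc (Real.log T)⁻¹ ^ 2 = (Real.log T)⁻¹ * (Real.log T)⁻¹ := by ring
      _ ≤ c₁ * (Real.log T)⁻¹ := by gcongr
      _ = c₁ / Real.log T := by rw [div_eq_mul_inv]
      _ ≤ t := h8
      _ = 1 * t := by ring
      _ ≤ Real.pi * t := by
          have := Real.pi_gt_three
          gcongr
          linarith
  have hLT : Real.log T ≤ T := (Real.log_le_sub_one_of_pos hT0).trans (by linarith)
  have hsum : ‖W t (Pool.Agent.DBC.pt x τ) + W t (1 - Pool.Agent.DBC.pt x τ)‖ ≤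
      2 * J * C * A := by
    refine (norm_add_le _ _).trans ?_
    linarith
  rw [h1 t _ ht, norm_mul, Complex.norm_real, Real.norm_of_nonneg (by positivity)]
  calc (√(Real.pi * t))⁻¹ * ‖W t (Pool.Agent.DBC.pt x τ) + W t (1 - Pool.Agent.DBC.pt x τ)‖
      ≤ Real.log T * (2 * J * C * A) := by
        apply mul_le_mul hsq hsum (norm_nonneg _) (by linarith)
    _ ≤ T * (T * A) := by
        apply mul_le_mul hLT _ (by positivity) hT0.le
        exact mul_le_mul_of_nonneg_right hT2 hA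
    _ = size T * T ^ (B + 3 / 2) := by
        have e1 : T ^ (B + 3 / 2) = T ^ (2 : ℝ) * T ^ (B - 1 / 2) := by
          rw [← Real.rpow_add hT0]
          congr 1
          ring
        rw [e1, hAe, Real.rpow_two]
        ring
    _ ≤ size T * T ^ (B + 2) := by
        refine mul_le_mul_of_nonneg_left ?_ hs
        exact Real.rpow_le_rpow_of_exponent_le (by linarith) (by linarith)

end Pool.Agent.DBA
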