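import Pool.Agent.DBA.Targets3

/-!
# WIA: a bad long window contains a unit interval of bad heights
-/

set_option autoImplicit false

namespace Pool.Agent.DBA

open Complex MeasureTheory Set Filter
open Pool.Agent.DBN Pool.Agent.DBC

namespace WIA_

theorem pow_small (η δ X : ℝ) (hη : 0 < η) (hδ : 0 < δ) (hδ' : δ ≤ 1 / 4) (hX : 1 ≤ X)
    (hX1 : 8 / η ^ 2 ≤ X) (hX2 : 2 / η ≤ X) : (2 * X) ^ δ + 1 ≤ η * X := by
  have h1 : (2 * X) ^ δ ≤ Real.sqrt (2 * X) := by
    rw [Real.sqrt_eq_rpow]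
    exact Real.rpow_le_rpow_of_exponent_le (by linarith) (by linarith)
  have h2 : Real.sqrt (2 * X) ≤ η / 2 * X := by
    apply Real.sqrt_le_iff.2
    constructor
    · positivity
    · have h3 : 8 ≤ X * η ^ 2 := by
        rwa [div_le_iff₀ (by positivity)] at hX1
      nlinarith
  have h4 : 2 ≤ X * η := by
    rwa [div_le_iff₀ hη] at hX2
  nlinarith

theorem near (ε δ M : ℝ) (hε : 0 < ε) (hδ : 0 < δ) (hδ' : δ ≤ 1 / 4) : ∃ X₀ : ℝ, 2 ≤ X₀ ∧
    ∀ X T T' : ℝ, X₀ ≤ X → X ≤ T → T ≤ 2 * X → |T' - T| ≤ (2 * X) ^ δ + 1 →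
      |Real.log T' - Real.log T| ≤ ε / 4 ∧ M ≤ Real.log T' ∧ M ≤ Real.log T ∧
      2 ≤ Real.log T ∧ Real.log T / 2 ≤ Real.log T' ∧ Real.log T' ≤ 2 * Real.log T ∧
      X / 2 ≤ T' ∧ T' ≤ 4 * X := by
  set η := min (1 / 2) (ε / 8) with hη
  have hη0 : 0 < η := lt_min (by norm_num) (by positivity)
  have hη1 : η ≤ 1 / 2 := min_le_left _ _
  have hη2 : η ≤ ε / 8 := min_le_right _ _
  refine ⟨max 2 (max (8 / η ^ 2) (max (2 / η) (max (Real.exp (M + 1)) (Real.exp 2)))),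
    le_max_left _ _, ?_⟩
  intro X T T' hX hT hT2 hTT
  have a1 : 2 ≤ X := le_trans (le_max_left _ _) hX
  have a2 := le_trans (le_max_right _ _) hX
  have a3 : 8 / η ^ 2 ≤ X := le_trans (le_max_left _ _) a2
  have a4 := le_trans (le_max_right _ _) a2
  have a5 : 2 / η ≤ X := le_trans (le_max_left _ _) a4
  have a6 := le_trans (le_max_right _ _) a4
  have a7 : Real.exp (M + 1) ≤ X := le_trans (le_max_left _ _) a6
  have a8 : Real.exp 2 ≤ X := le_trans (le_max_right _ _) a6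
  have b1 := pow_small η δ X hη0 hδ hδ' (by linarith) a3 a5
  have b2 : |T' - T| ≤ η * X := le_trans hTT b1
  have b3 := abs_le.1 b2
  have b4 : η * X ≤ η * T := mul_le_mul_of_nonneg_left hT hη0.le
  have hT0 : 0 < T := by linarith
  have c1 : (1 - η) * T ≤ T' := by nlinarith [b3.1]
  have c2 : T' ≤ (1 + η) * T := by nlinarith [b3.2]
  have c0 : 0 < (1 - η) * T := mul_pos (by linarith) hT0
  have hT'0 : 0 < T' := lt_of_lt_of_le c0 c1
  have d1 : Real.log T' - Real.log T ≤ η := by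
    have e1 := Real.log_le_log hT'0 c2
    rw [Real.log_mul (by linarith) hT0.ne'] at e1
    have e2 := Real.log_le_sub_one_of_pos (show (0 : ℝ) < 1 + η by linarith)
    linarith
  have d2 : Real.log T - Real.log T' ≤ 2 * η := by
    have e1 := Real.log_le_log c0 c1
    rw [Real.log_mul (by linarith) hT0.ne'] at e1
    have e2 := Real.one_sub_inv_le_log_of_pos (show (0 : ℝ) < 1 - η by linarith)
    have e3 : (1 - η)⁻¹ ≤ 1 + 2 * η := by
      rw [inv_le_iff_one_le_mul₀ (by linarith)]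
      nlinarith
    linarith
  have f1 : M + 1 ≤ Real.log X := (Real.le_log_iff_exp_le (by linarith)).2 a7
  have f2 : 2 ≤ Real.log X := (Real.le_log_iff_exp_le (by linarith)).2 a8
  have f3 : Real.log X ≤ Real.log T := Real.log_le_log (by linarith) hT
  have g1 : η * X ≤ 1 / 2 * X := mul_le_mul_of_nonneg_right hη1 (by linarith)
  refine ⟨abs_le.2 ⟨by linarith, by linarith⟩, by linarith, by linarith, by linarith,
    by linarith, by linarith, by linarith [b3.1], by linarith [b3.2]⟩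

end WIA_

theorem p_WIA : T_WIA := by
  intro c₁ c₂ K ε δ hc₁ hcc hK hε hδ hδ'
  obtain ⟨X₀, hX₀, hN⟩ := WIA_.near ε δ (4 * Real.pi + ε + 1) hε hδ hδ'
  refine ⟨X₀, hX₀, ?_⟩
  intro X T hX hT hT2 ⟨t, ht1, ht2, hnc⟩
  have hX2 : 2 ≤ X := le_trans hX₀ hX
  have hT0 : 0 < T := by linarith
  have hpi := Real.pi_pos
  have hpw : T ^ δ ≤ (2 * X) ^ δ := Real.rpow_le_rpow hT0.le hT2 hδ.le
  have hpw0 : 0 < T ^ δ := Real.rpow_pos_of_pos hT0 δ
  have key : ∀ a : ℝ, |a - 2 * T| ≤ T ^ δ →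
      (∀ T'' : ℝ, |T'' - a / 2| ≤ 1 / 2 → |Real.log T'' - Real.log T| ≤ ε / 4 →
        4 * Real.pi + ε + 1 ≤ Real.log T'' → 4 * Real.pi + ε + 1 ≤ Real.log T →
        ¬ CrysAt (K + 2) (ε / 2) t T'') →
      ∃ T' : ℝ, |T' - T| ≤ (2 * X) ^ δ ∧
        Icc (T' - 1 / 2) (T' + 1 / 2) ⊆ AX (c₁ / 2) (2 * c₂) (K + 2) (ε / 2) X := by
    intro a ha h
    have ha' := abs_le.1 ha
    refine ⟨a / 2, abs_le.2 ⟨by linarith, by linarith⟩, ?_⟩
    intro T'' hT''
    have h1 : |T'' - a / 2| ≤ 1 / 2 := abs_le.2 ⟨by linarith [hT''.1], by linarith [hT''.2]⟩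
    have h2 : |T'' - T| ≤ (2 * X) ^ δ + 1 :=
      abs_le.2 ⟨by linarith [hT''.1], by linarith [hT''.2]⟩
    obtain ⟨n1, n2, n3, n4, n5, n6, n7, n8⟩ := hN X T T'' hX hT hT2 h2
    have ht0 : 0 < t := by
      by_contra hcon
      have : t * Real.log T ≤ 0 := mul_nonpos_of_nonpos_of_nonneg (not_lt.1 hcon) (by linarith)
      linarith
    refine ⟨n7, n8, t, ?_, ?_, h T'' h1 n1 n2 n3⟩
    · have := mul_le_mul_of_nonneg_left n5 ht0.le
      linarith
    · have := mul_le_mul_of_nonneg_left n6 ht0.le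
      linarith
  unfold CrysW at hnc
  rw [not_and_or, not_and_or] at hnc
  rcases hnc with h | h | h
  · push_neg at h
    obtain ⟨z, hz1, hz2, hz3, hz4⟩ := h
    refine key z.re hz1 ?_
    intro T'' h1 h2 h3 h4 hC
    have h5 : ‖z - 2 * (T'' : ℂ)‖ ≤ K + 2 := by
      have e1 := Complex.norm_le_abs_re_add_abs_im (z - 2 * (T'' : ℂ))
      have e2 : (z - 2 * (T'' : ℂ)).re = z.re - 2 * T'' := by simp
      have e3 : (z - 2 * (T'' : ℂ)).im = z.im := by simp
      rw [e2, e3] at e1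
      have e4 : |z.re - 2 * T''| ≤ 1 := by
        have := abs_le.1 h1
        exact abs_le.2 ⟨by linarith, by linarith⟩
      linarith
    obtain ⟨q1, q2⟩ := hC.1 z h5 hz3
    exact q2 (hz4 q1)
  · push_neg at h
    obtain ⟨x, y, hx, hy, hxy, hHx, hHy, hlt⟩ := h
    refine key x hx ?_
    intro T'' h1 h2 h3 h4 hC
    have e1 := abs_le.1 h1
    have e2 := abs_le.1 h2
    have hyx : y - x ≤ 1 := by
      by_contra hcon
      have : 1 * (4 * Real.pi + ε + 1) ≤ (y - x) * Real.log T :=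
        mul_le_mul (by linarith) h4 (by linarith) (by linarith)
      linarith
    have h5 := hC.2.1 x y (abs_le.2 ⟨by linarith, by linarith⟩)
      (abs_le.2 ⟨by linarith, by linarith⟩) hxy hHx hHy
    have h6 : (y - x) * Real.log T'' ≤ (y - x) * (Real.log T + ε / 4) :=
      mul_le_mul_of_nonneg_left (by linarith) (by linarith)
    have h7 : (y - x) * (ε / 4) ≤ 1 * (ε / 4) :=
      mul_le_mul_of_nonneg_right hyx (by linarith)
    nlinarith
  · push_neg at h
    obtain ⟨x, hx, hno⟩ := h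
    refine key x hx ?_
    intro T'' h1 h2 h3 h4 hC
    have e1 := abs_le.1 h1
    have e2 := abs_le.1 h2
    obtain ⟨y, hxy, hy, hHy⟩ := hC.2.2 x (abs_le.2 ⟨by linarith, by linarith⟩)
    have hyx : y - x ≤ 1 := by
      by_contra hcon
      have : 1 * (4 * Real.pi + ε + 1) ≤ (y - x) * Real.log T'' :=
        mul_le_mul (by linarith) h3 (by linarith) (by linarith)
      linarith
    have h6 : (y - x) * Real.log T ≤ (y - x) * (Real.log T'' + ε / 4) :=
      mul_le_mul_of_nonneg_left (by linarith) (by linarith)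
    have h7 : (y - x) * (ε / 4) ≤ 1 * (ε / 4) :=
      mul_le_mul_of_nonneg_right hyx (by linarith)
    exact hno y hxy (by nlinarith) hHy

end Pool.Agent.DBA
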