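import Pool.Agent.DBA.Targets3

/-!
# DBA, target WID: long windows, the measure of the exceptional set
-/

set_option autoImplicit false

namespace Pool.Agent.DBA

open Complex MeasureTheory Set Filter
open Pool.Agent.DBN Pool.Agent.DBC

/-- WID -/
theorem p_WID (h1 : T_COV) (h2 : T_MAX) (h3 : T_WIA) : T_WID := by
  intro c₁ c₂ hc1 hc hAA K ε hK hε
  obtain ⟨δ₀, X₁, hδ0, hδ1, hX1, hmax⟩ := h2 _ _ hAA (K + 2) (ε / 2) (by linarith) (by linarith)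
  obtain ⟨X₂, hX2, hwia⟩ := h3 c₁ c₂ K ε (δ₀ / 4) hc1 hc hK hε (by linarith) (by linarith)
  obtain ⟨X₃, hX3⟩ : ∃ X₃ : ℝ, ∀ X : ℝ, X₃ ≤ X → 48 ≤ X ^ (δ₀ / 2) :=
    Filter.eventually_atTop.1 ((tendsto_rpow_atTop (by positivity : (0 : ℝ) < δ₀ / 2))
      |>.eventually_ge_atTop 48)
  refine ⟨δ₀ / 4, max X₁ (max X₂ X₃), by positivity, fun X hX => ?_⟩
  have hXa : X₁ ≤ X := (le_max_left _ _).trans hX
  have hXb : X₂ ≤ X := ((le_max_left _ _).trans (le_max_right _ _)).trans hX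
  have hXc : X₃ ≤ X := ((le_max_right _ _).trans (le_max_right _ _)).trans hX
  have hX1' : 1 ≤ X := by linarith
  have hX0 : 0 < X := by linarith
  have hcov := h1 (AX (c₁ / 2) (2 * c₂) (K + 2) (ε / 2) X)
    {T : ℝ | X ≤ T ∧ T ≤ 2 * X ∧ ∃ t : ℝ, c₁ ≤ t * Real.log T ∧ t * Real.log T ≤ c₂ ∧
      ¬ CrysW K ε (δ₀ / 4) t T} ((2 * X) ^ (δ₀ / 4)) (4 * X ^ (1 - δ₀)) (by positivity)
    (by positivity) (fun T hT => hwia X T hXb hT.1 hT.2.1 hT.2.2) (hmax X hXa)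
  refine hcov.trans (ENNReal.ofReal_le_ofReal ?_)
  have e1 : (2 * X) ^ (δ₀ / 4) ≤ 2 * X ^ (δ₀ / 4) := by
    rw [Real.mul_rpow (by norm_num) hX0.le]
    have : (2 : ℝ) ^ (δ₀ / 4) ≤ 2 ^ (1 : ℝ) :=
      Real.rpow_le_rpow_of_exponent_le (by norm_num) (by linarith)
    rw [Real.rpow_one] at this
    gcongr
  have e2 : 1 ≤ X ^ (δ₀ / 4) := Real.one_le_rpow hX1' (by positivity)
  calc 4 * ((2 * X) ^ (δ₀ / 4) + 1) * (4 * X ^ (1 - δ₀))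
      ≤ 4 * (2 * X ^ (δ₀ / 4) + X ^ (δ₀ / 4)) * (4 * X ^ (1 - δ₀)) := by gcongr
    _ = 48 * (X ^ (δ₀ / 4) * X ^ (1 - δ₀)) := by ring
    _ ≤ X ^ (δ₀ / 2) * (X ^ (δ₀ / 4) * X ^ (1 - δ₀)) := by
        gcongr
        exact hX3 X hXc
    _ = X ^ (1 - δ₀ / 4) := by
        rw [← Real.rpow_add hX0, ← Real.rpow_add hX0]
        congr 1
        ring

end Pool.Agent.DBA
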