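import Pool.Agent.DBA.Targets3
import Pool.Agent.DBN.ZA

/-!
# DBA, target XI4 (backup)
-/

set_option autoImplicit false

namespace Pool.Agent.DBA

open Complex MeasureTheory Set Filter
open Pool.Agent.DBN Pool.Agent.DBC

theorem p_XI4B : T_XI4 := by
  intro ε κ hε hκ
  obtain ⟨C, hC, h⟩ := xi_quarter_le ε κ hε hκ
  refine ⟨C, hC, fun T w hT => (h T w hT).trans ?_⟩
  have hm : max (|w.re| / 2) (1 / 4) ≤ mm 4 w.re := by
    unfold mm
    split_ifs with h1
    · have h2 := abs_nonneg w.re
      have h3 : w.re ^ 2 = |w.re| ^ 2 := (sq_abs _).symm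
      refine max_le ?_ ?_
      · rw [h3]
        nlinarith [sq_nonneg (|w.re| - 1)]
      · nlinarith [sq_nonneg w.re]
    · push Not at h1
      refine max_le le_rfl ?_
      linarith
  have hT1 : 1 ≤ T := by linarith
  have hs : 0 ≤ size T := by
    unfold size
    positivity
  gcongr

end Pool.Agent.DBA
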