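import Pool.Agent.DBA.P_CVJ
import Pool.Agent.DBA.P_COV
import Pool.Agent.DBA.P_MAX
import Pool.Agent.DBA.P_WIA
import Pool.Agent.DBA.P_WID
import Pool.Agent.DBA.P_XI4B
import Pool.Agent.DBA.P_INX
import Pool.Agent.DBA.P_NEX
import Pool.Agent.DBA.P_OFX
import Pool.Agent.DBA.P_OBX
import Pool.Agent.DBA.P_LWX
import Pool.Agent.DBA.P_UPX
import Pool.Agent.DBA.P_JNX
import Pool.Agent.DBA.P_ORD
import Pool.Agent.DBA.P_CIA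
import Pool.Agent.DBA.P_CNF
import Pool.Agent.DBC.P_SPL
import Pool.Agent.DBC.P_CNJ
import Pool.Agent.DBC.P_IGR
import Pool.Agent.DBC.P_LOC
import Pool.Agent.DBC.P_GAU

/-!
# DBA part 3: all targets together
-/

set_option autoImplicit false

namespace Pool.Agent.DBA

open Pool.Agent.DBC

theorem wid : T_WID := p_WID (p_COV p_CVJ) p_MAX p_WIA

theorem lwx : T_LWX :=
  p_LWX p_SPL p_CNJ p_IGR (p_NEX p_LOC p_GAU) (p_OFX p_XI4B p_INX) (p_OBX p_XI4B p_INX)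

theorem jnx : T_JNX := p_JNX lwx (p_UPX p_SPL p_CNJ p_XI4B)

theorem cnf : T_CNF := p_CNF p_CVJ p_MAX p_CIA p_ORD jnx

theorem wide (h : ∀ c₁ c₂ : ℝ, 0 < c₁ → c₁ ≤ c₂ → AlmostAll c₁ c₂) :
    ∀ c₁ c₂ : ℝ, 0 < c₁ → c₁ ≤ c₂ → Wide c₁ c₂ := fun c₁ c₂ h₁ h₂ =>
  wid c₁ c₂ h₁ h₂ (h _ _ (by positivity) (by linarith))

theorem fewBad (h : ∀ c₁ c₂ : ℝ, 0 < c₁ → c₁ ≤ c₂ → AlmostAll c₁ c₂) :
    ∀ c₁ c₂ : ℝ, 0 < c₁ → c₁ ≤ c₂ → FewBad c₁ c₂ := fun c₁ c₂ h₁ h₂ =>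
  cnf c₁ c₂ h₁ h₂ (h _ _ (by positivity) (by linarith))

end Pool.Agent.DBA
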