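import Pool.Agent.DBC.Defs4

/-!
# Long windows and the number of exceptional zeros: definitions

(MP_4e5e8a_nt, addition to DBNFlow.)
-/

set_option autoImplicit false

namespace Pool.Agent.DBA

open Complex MeasureTheory Set Filter
open Pool.Agent.DBN Pool.Agent.DBC

/-- all zeros `z` of `H_t` with `|Re z - 2 T| ≤ T^δ`, `|Im z| ≤ K` are real and simple, and the real
ones have the distance `(4 π + O(ε)) / log T` -/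
def CrysW (K ε δ t T : ℝ) : Prop :=
  (∀ z : ℂ, |z.re - 2 * T| ≤ T ^ δ → |z.im| ≤ K → H t z = 0 → z.im = 0 ∧ deriv (H t) z ≠ 0) ∧
  (∀ x y : ℝ, |x - 2 * T| ≤ T ^ δ → |y - 2 * T| ≤ T ^ δ → x < y → H t x = 0 → H t y = 0 →
    4 * Real.pi - ε ≤ (y - x) * Real.log T) ∧
  (∀ x : ℝ, |x - 2 * T| ≤ T ^ δ → ∃ y : ℝ, x ≤ y ∧ (y - x) * Real.log T ≤ 4 * Real.pi + ε ∧
    H t y = 0)

/-- at almost all heights `T` (all `T` in `[X, 2 X]` outside a set of measure `X^(1 - δ)`) the zeros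
of `H_t` with `|Re z - 2 T| ≤ T^δ` are real, simple and regularly spaced at all times `t` with
`c₁ ≤ t log T ≤ c₂` -/
def Wide (c₁ c₂ : ℝ) : Prop :=
  ∀ K ε : ℝ, 0 < K → 0 < ε → ∃ δ X₀ : ℝ, 0 < δ ∧ ∀ X : ℝ, X₀ ≤ X →
    volume {T : ℝ | X ≤ T ∧ T ≤ 2 * X ∧ ∃ t : ℝ, c₁ ≤ t * Real.log T ∧ t * Real.log T ≤ c₂ ∧
      ¬ CrysW K ε δ t T} ≤ ENNReal.ofReal (X ^ (1 - δ))

/-- for `c₁ ≤ t log X ≤ c₂` at most `X^(1 - δ)` zeros `z` of `H_t` with `X ≤ Re z / 2 ≤ 2 X`,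
`|Im z| ≤ K` are not real or not simple (counted with multiplicity) -/
def FewBad (c₁ c₂ : ℝ) : Prop :=
  ∀ K : ℝ, 0 < K → ∃ δ X₀ : ℝ, 0 < δ ∧ ∀ t X : ℝ, X₀ ≤ X → c₁ ≤ t * Real.log X →
    t * Real.log X ≤ c₂ → ∀ F : Finset ℂ,
      (∀ z ∈ F, H t z = 0 ∧ X ≤ z.re / 2 ∧ z.re / 2 ≤ 2 * X ∧ |z.im| ≤ K ∧
        (z.im = 0 → deriv (H t) z = 0)) →
      ((∑ z ∈ F, analyticOrderNatAt (H t) z : ℕ) : ℝ) ≤ X ^ (1 - δ)

end Pool.Agent.DBA
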