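import Pool.Agent.DBA.Targets3

set_option autoImplicit false

/-!
# DBA, target CIA: an exceptional zero gives an interval of bad heights
-/

namespace Pool.Agent.DBA

open Complex MeasureTheory Set Filter
open Pool.Agent.DBN Pool.Agent.DBC

theorem p_CIA : T_CIA := by
  intro c₁ c₂ K hc₁ hc hK
  refine ⟨16, by norm_num, ?_⟩
  intro t X z hX h1 h2 hz hz1 hz2 him hd T hT
  obtain ⟨ha, hb⟩ := hT
  have hX0 : (0 : ℝ) < X := by linarith
  have e4 : Real.log 4 = 2 * Real.log 2 := by
    rw [show (4 : ℝ) = 2 ^ 2 by norm_num, Real.log_pow]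
    norm_num
  have hlog2 : 0 < Real.log 2 := Real.log_pos one_lt_two
  have hl4 : Real.log 4 ≤ Real.log X := Real.log_le_log (by norm_num) (by linarith)
  have hlX : 0 < Real.log X := by linarith
  have ht : 0 < t := by
    by_contra h
    push Not at h
    have := mul_nonpos_of_nonpos_of_nonneg h hlX.le
    linarith
  have hT1 : X / 2 ≤ T := by linarith
  have hT2 : T ≤ 4 * X := by linarith
  have l1 : Real.log X / 2 ≤ Real.log T := by
    have := Real.log_le_log (by positivity) hT1
    rw [Real.log_div hX0.ne' two_ne_zero] at this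
    linarith
  have l2 : Real.log T ≤ 2 * Real.log X := by
    have := Real.log_le_log (by linarith) hT2
    rw [Real.log_mul (by norm_num) hX0.ne'] at this
    linarith
  have m1 := mul_le_mul_of_nonneg_left l1 ht.le
  have m2 := mul_le_mul_of_nonneg_left l2 ht.le
  refine ⟨hT1, hT2, t, by linarith, by linarith, fun hC => ?_⟩
  have hn : ‖z - 2 * (T : ℂ)‖ ≤ K + 2 := by
    refine (Complex.norm_le_abs_re_add_abs_im _).trans ?_
    have r1 : (z - 2 * (T : ℂ)).re = z.re - 2 * T := by simp
    have r2 : (z - 2 * (T : ℂ)).im = z.im := by simp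
    rw [r1, r2]
    have r3 : |z.re - 2 * T| ≤ 1 := by
      rw [abs_le]
      constructor <;> linarith
    linarith
  obtain ⟨i1, i2⟩ := hC.1 z hn hz
  exact i2 (hd i1)

end Pool.Agent.DBA
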