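import Pool.Agent.DBA.Targets3

/-!
# DBA part 3, CVJ: disjoint half-open intervals in a set
-/

set_option autoImplicit false

namespace Pool.Agent.DBA

open Complex MeasureTheory Set Filter
open Pool.Agent.DBN Pool.Agent.DBC

namespace CVJ_

theorem disj (i j : ℤ) (h : i ≠ j) :
    Disjoint (Ico ((i : ℝ) / 2) (((i : ℝ) + 1) / 2)) (Ico ((j : ℝ) / 2) (((j : ℝ) + 1) / 2)) := by
  rw [Set.disjoint_left]
  rintro x ⟨h1, h2⟩ ⟨h3, h4⟩
  apply h
  have a : (i : ℝ) < j + 1 := by linarith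
  have b : (j : ℝ) < i + 1 := by linarith
  have a' : i < j + 1 := by exact_mod_cast a
  have b' : j < i + 1 := by exact_mod_cast b
  omega

end CVJ_

theorem p_CVJ : T_CVJ := by
  intro A V J hV hJ hA
  have h1 : volume (⋃ j ∈ J, Ico ((j : ℝ) / 2) (((j : ℝ) + 1) / 2)) =
      ∑ j ∈ J, volume (Ico ((j : ℝ) / 2) (((j : ℝ) + 1) / 2)) :=
    measure_biUnion_finset (fun i _ j _ h => CVJ_.disj i j h) fun j _ => measurableSet_Ico
  have h2 : ∀ j ∈ J, volume (Ico ((j : ℝ) / 2) (((j : ℝ) + 1) / 2)) = ENNReal.ofReal (1 / 2) := by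
    intro j _
    rw [Real.volume_Ico]
    congr 1
    ring
  rw [Finset.sum_congr rfl h2, Finset.sum_const, nsmul_eq_mul] at h1
  have h3 : volume (⋃ j ∈ J, Ico ((j : ℝ) / 2) (((j : ℝ) + 1) / 2)) ≤ volume A :=
    measure_mono (Set.iUnion₂_subset hJ)
  have h4 : ENNReal.ofReal ((J.card : ℝ) * (1 / 2)) ≤ ENNReal.ofReal V := by
    rw [ENNReal.ofReal_mul (Nat.cast_nonneg _), ENNReal.ofReal_natCast, ← h1]
    exact h3.trans hA
  rw [ENNReal.ofReal_le_ofReal_iff hV] at h4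
  linarith

end Pool.Agent.DBA
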