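import Pool.Agent.DBA.Targets

/-!
# DBA, block EMF: zeta = Dirichlet polynomial + tail integral for `Re s > 0`
-/

set_option autoImplicit false

namespace Pool.Agent.DBA

open Complex MeasureTheory Set Filter Topology

namespace EMF_

open Pool.Agent.Lib.ZetaCrude

/-- the integrand -/
noncomputable def a (s : ℂ) (v : ℝ) : ℂ := ((1 - Int.fract v : ℝ) : ℂ) * (v : ℂ) ^ (-s - 1)

lemma deriv_H (s : ℂ) (c : ℝ) {v : ℝ} (hv : 0 < v) :
    HasDerivAt (fun v : ℝ => -((s - 1) * ((c : ℂ) - v) * (v : ℂ) ^ (-s)) + (v : ℂ) ^ (1 - s))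
      (s * (s - 1) * (((c - v : ℝ) : ℂ) * (v : ℂ) ^ (-s - 1))) v := by
  have h1 : HasDerivAt (fun v : ℝ => (v : ℂ) ^ (-s)) ((-s) * (v : ℂ) ^ (-s - 1)) v :=
    hasDerivAt_cpow_real hv (-s)
  have h2 : HasDerivAt (fun v : ℝ => (v : ℂ) ^ (1 - s)) ((1 - s) * (v : ℂ) ^ (1 - s - 1)) v :=
    hasDerivAt_cpow_real hv (1 - s)
  have h3 : HasDerivAt (fun v : ℝ => (s - 1) * ((c : ℂ) - v)) ((s - 1) * (-1)) v := by
    have h4 : HasDerivAt (fun v : ℝ => (v : ℂ)) 1 v := ofRealCLM.hasDerivAt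
    exact (h4.const_sub _).const_mul _
  have h5 := ((h3.mul h1).neg).add h2
  refine h5.congr_deriv ?_
  rw [show (1 - s - 1 : ℂ) = -s by ring]
  push_cast
  ring

lemma int_step (s : ℂ) (n : ℕ) :
    s * (s - 1) * ∫ v in ((n : ℝ) + 1)..((n : ℝ) + 2), a s v = g n s := by
  have hn : (0 : ℝ) ≤ n := Nat.cast_nonneg n
  have hle : (n : ℝ) + 1 ≤ (n : ℝ) + 2 := by linarith
  have e1 : ∫ v in ((n : ℝ) + 1)..((n : ℝ) + 2), a s v =
      ∫ v in ((n : ℝ) + 1)..((n : ℝ) + 2), (((n : ℝ) + 2 - v : ℝ) : ℂ) * (v : ℂ) ^ (-s - 1) := by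
    rw [intervalIntegral.integral_of_le hle, intervalIntegral.integral_of_le hle,
      ← integral_Ico_eq_integral_Ioc, ← integral_Ico_eq_integral_Ioc]
    refine setIntegral_congr_fun measurableSet_Ico fun v hv => ?_
    have hfl : ⌊v⌋ = (n : ℤ) + 1 := by
      rw [Int.floor_eq_iff]
      push_cast
      exact ⟨hv.1, by linarith [hv.2]⟩
    have hfr : Int.fract v = v - ((n : ℝ) + 1) := by
      rw [Int.fract, hfl]
      push_cast
      ring
    simp only [a, hfr]
    congr 2
    ring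
  rw [e1, ← intervalIntegral.integral_const_mul]
  have hpos : ∀ v ∈ uIcc ((n : ℝ) + 1) ((n : ℝ) + 2), 0 < v := by
    intro v hv
    rw [uIcc_of_le hle] at hv
    linarith [hv.1]
  rw [intervalIntegral.integral_eq_sub_of_hasDerivAt
    (f := fun v : ℝ => -((s - 1) * ((((n : ℝ) + 2 : ℝ) : ℂ) - v) * (v : ℂ) ^ (-s)) +
      (v : ℂ) ^ (1 - s)) (fun v hv => deriv_H s _ (hpos v hv))]
  · simp only [g]
    push_cast
    ring
  · refine ContinuousOn.intervalIntegrable fun v hv => ?_
    have hv0 := hpos v hv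
    refine ContinuousAt.continuousWithinAt ?_
    refine continuousAt_const.mul (ContinuousAt.mul ?_ ?_)
    · fun_prop
    · exact (hasDerivAt_cpow_real hv0 (-s - 1)).continuousAt

lemma integrable_a (s : ℂ) (hs : 0 < s.re) {c : ℝ} (hc : 0 < c) :
    IntegrableOn (a s) (Ioi c) := by
  have h1 : IntegrableOn (fun v : ℝ => v ^ (-s.re - 1)) (Ioi c) :=
    integrableOn_Ioi_rpow_of_lt (by linarith) hc
  refine Integrable.mono' h1 ?_ ?_
  · have hm : Measurable (a s) := by
      unfold a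
      refine Measurable.mul ?_ ?_
      · exact Complex.measurable_ofReal.comp (measurable_const.sub measurable_fract)
      · exact Complex.measurable_ofReal.pow_const _
    exact hm.aestronglyMeasurable
  · rw [ae_restrict_iff' measurableSet_Ioi]
    refine Eventually.of_forall fun v hv => ?_
    have hv0 : 0 < v := hc.trans hv
    unfold a
    rw [norm_mul, norm_cpow_eq_rpow_re_of_pos hv0, Complex.norm_real, Real.norm_eq_abs]
    have h2 : |1 - Int.fract v| ≤ 1 := by
      rw [abs_le]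
      constructor
      · linarith [(Int.fract_lt_one v).le]
      · linarith [Int.fract_nonneg v]
    have h3 : (-s - 1).re = -s.re - 1 := by simp
    rw [h3]
    calc |1 - Int.fract v| * v ^ (-s.re - 1) ≤ 1 * v ^ (-s.re - 1) :=
          mul_le_mul_of_nonneg_right h2 (Real.rpow_nonneg hv0.le _)
      _ = v ^ (-s.re - 1) := one_mul _

lemma summable_g (s : ℂ) (hs : 0 < s.re) : Summable fun n => g n s :=
  ((summable_rpow_aux hs).mul_left (‖s - 1‖ * ‖s‖)).of_norm_bounded
    fun n => norm_g_le n s hs.le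

lemma tail (s : ℂ) (N : ℕ) (hs : 0 < s.re) :
    s * (s - 1) * RI ((N : ℝ) + 1) s = ∑' j : ℕ, g (j + N) s := by
  have hN : (0 : ℝ) ≤ N := Nat.cast_nonneg N
  have hI := integrable_a s hs (c := (N : ℝ) + 1) (by linarith)
  have h1 : Tendsto (fun k : ℕ => ∫ v in ((N : ℝ) + 1)..((N : ℝ) + 1 + k), a s v) atTop
      (𝓝 (∫ v in Ioi ((N : ℝ) + 1), a s v)) :=
    intervalIntegral_tendsto_integral_Ioi _ hI
      (tendsto_atTop_add_const_left _ _ tendsto_natCast_atTop_atTop)
  have h2 : ∀ k : ℕ, s * (s - 1) * ∫ v in ((N : ℝ) + 1)..((N : ℝ) + 1 + k), a s v =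
      ∑ j ∈ Finset.range k, g (j + N) s := by
    intro k
    have h3 := intervalIntegral.sum_integral_adjacent_intervals (f := a s) (μ := volume)
      (a := fun j : ℕ => (N : ℝ) + 1 + j) (n := k) (fun j _ => by
        refine IntegrableOn.intervalIntegrable ?_
        refine (integrable_a s hs (c := 1 / 2) (by norm_num)).mono_set fun v hv => ?_
        rw [uIcc_of_le (by push_cast; linarith)] at hv
        have := hv.1
        have hj : (0 : ℝ) ≤ j := Nat.cast_nonneg j
        simp only [mem_Ioi]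
        linarith)
    have h4 : (N : ℝ) + 1 + ((0 : ℕ) : ℝ) = (N : ℝ) + 1 := by push_cast; ring
    simp only [h4] at h3
    rw [← h3, Finset.mul_sum]
    refine Finset.sum_congr rfl fun j _ => ?_
    rw [← int_step s (j + N)]
    congr 2 <;> push_cast <;> ring
  have h5 : Tendsto (fun k : ℕ => ∑ j ∈ Finset.range k, g (j + N) s) atTop
      (𝓝 (s * (s - 1) * ∫ v in Ioi ((N : ℝ) + 1), a s v)) := by
    have := h1.const_mul (s * (s - 1))
    simpa only [h2] using this
  have h6 : Tendsto (fun k : ℕ => ∑ j ∈ Finset.range k, g (j + N) s) atTop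
      (𝓝 (∑' j : ℕ, g (j + N) s)) :=
    ((summable_nat_add_iff N).2 (summable_g s hs)).hasSum.tendsto_sum_nat
  exact tendsto_nhds_unique h5 h6

lemma fin_sum (s : ℂ) (N : ℕ) : 1 + ∑ n ∈ Finset.range N, g n s =
    (s - 1) * Dp N s + ((N + 1 : ℝ) : ℂ) ^ (1 - s) := by
  induction N with
  | zero => simp [Dp]
  | succ N ih =>
    rw [Finset.sum_range_succ, ← add_assoc, ih, Dp, Dp, Finset.sum_Icc_succ_top (by omega), g]
    push_cast
    ring_nf

end EMF_

open EMF_ in
theorem p_EMF : T_EMF := by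
  intro s N hs hs1
  have hne : s - 1 ≠ 0 := sub_ne_zero.2 hs1
  have hG : (s - 1) * riemannZeta s = 1 + ∑' n, Pool.Agent.Lib.ZetaCrude.g n s := by
    have h1 := Pool.Agent.Lib.ZetaCrude.G_eq (s := s) hs
    unfold Pool.Agent.Lib.ZetaCrude.G at h1
    rw [h1, riemannZeta_eq_inv_sub_mul hs1]
    field_simp
  rw [← (summable_g s hs).sum_add_tsum_nat_add N, ← add_assoc, fin_sum s N,
    ← tail s N hs] at hG
  rw [← mul_right_inj' hne, hG]
  field_simp

end Pool.Agent.DBA
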