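import Pool.Agent.DBA.Targets

set_option autoImplicit false

/-! The mean value theorem with weights (target `T_MVS`). -/

namespace Pool.Agent.DBA.MVS_

open Complex MeasureTheory Set Filter

/-- the coefficients of a dyadic block -/
noncomputable def cf (N : ℕ) (a : ℕ → ℝ) (j n : ℕ) : ℝ :=
  if Nat.log 2 n = j ∧ 1 ≤ n ∧ n ≤ N then a n else 0

/-- the sum over a block -/
noncomputable def SB (N : ℕ) (a : ℕ → ℝ) (j : ℕ) (t : ℝ) : ℂ :=
  ∑ n ∈ Finset.Icc 1 (2 ^ (j + 1)), (cf N a j n : ℂ) * (n : ℂ) ^ (-((t : ℂ) * I))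

theorem split (N : ℕ) (a : ℕ → ℝ) (t : ℝ) :
    ∑ n ∈ Finset.Icc 1 N, (a n : ℂ) * (n : ℂ) ^ (-((t : ℂ) * I)) =
      ∑ j ∈ Finset.range (Nat.log 2 N + 1), SB N a j t := by
  rw [← Finset.sum_fiberwise_of_maps_to (s := Finset.Icc 1 N)
    (t := Finset.range (Nat.log 2 N + 1)) (g := fun n => Nat.log 2 n)]
  · refine Finset.sum_congr rfl (fun j _ => ?_)
    unfold SB
    refine Finset.sum_subset_zero_on_sdiff ?_ ?_ ?_
    · intro n hn
      rw [Finset.mem_filter, Finset.mem_Icc] at hn
      rw [Finset.mem_Icc]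
      refine ⟨hn.1.1, ?_⟩
      have h := Nat.lt_pow_succ_log_self (b := 2) (by norm_num) n
      rw [hn.2] at h
      exact h.le
    · intro n hn
      rw [Finset.mem_sdiff, Finset.mem_filter, Finset.mem_Icc] at hn
      have h : ¬ (Nat.log 2 n = j ∧ 1 ≤ n ∧ n ≤ N) := fun hc =>
        hn.2 ⟨Finset.mem_Icc.2 ⟨hc.2.1, hc.2.2⟩, hc.1⟩
      unfold cf
      rw [if_neg h]
      simp
    · intro n hn
      rw [Finset.mem_filter, Finset.mem_Icc] at hn
      unfold cf
      rw [if_pos ⟨hn.2, hn.1.1, hn.1.2⟩]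
  · intro n hn
    rw [Finset.mem_Icc] at hn
    rw [Finset.mem_range]
    exact Nat.lt_succ_of_le (Nat.log_mono_right hn.2)

theorem cont_SB (N : ℕ) (a : ℕ → ℝ) (j : ℕ) : Continuous (SB N a j) := by
  unfold SB
  refine continuous_finsetSum _ (fun n hn => continuous_const.mul ?_)
  rw [Finset.mem_Icc] at hn
  refine Continuous.const_cpow (by fun_prop) (Or.inl ?_)
  have : (n : ℂ) ≠ 0 := by
    have : n ≠ 0 := by omega
    exact_mod_cast this
  exact this

/-- one block -/
theorem block {C : ℝ} (hC : 0 < C) (HD : ∀ (N : ℕ) (a : ℕ → ℝ) (B T : ℝ), 0 ≤ B → 0 ≤ T →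
      (∀ n, |a n| ≤ B) →
      (∫ t in T..(2 * T), ‖∑ n ∈ Finset.Icc 1 N, (a n : ℂ) *
        (n : ℂ) ^ (-((t : ℂ) * I))‖ ^ 2) ≤ C * B ^ 2 * N * (T + N * (1 + Real.log N)))
    (N : ℕ) (a : ℕ → ℝ) (H T : ℝ) (hH : 0 ≤ H) (hT : 0 < T)
    (ha : ∀ n, 1 ≤ n → n ≤ N → a n ^ 2 * n * (T + n) ≤ H) (j : ℕ) (hj : 2 ^ j ≤ N) :
    (∫ t in T..(2 * T), ‖SB N a j t‖ ^ 2) ≤ 8 * C * H * (1 + Real.log N) := by
  set P : ℝ := (2 : ℝ) ^ j with hP
  have hP0 : 0 < P := by positivity
  have hP1 : 1 ≤ P := one_le_pow₀ (by norm_num)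
  have hPN : P ≤ N := by
    rw [hP]
    exact_mod_cast hj
  have hL : 0 ≤ Real.log N := Real.log_natCast_nonneg N
  have hPT : 0 < P * (T + P) := by positivity
  have hB : ∀ n, |cf N a j n| ≤ Real.sqrt (H / (P * (T + P))) := by
    intro n
    unfold cf
    by_cases hc : Nat.log 2 n = j ∧ 1 ≤ n ∧ n ≤ N
    · rw [if_pos hc]
      refine Real.abs_le_sqrt ?_
      rw [le_div_iff₀ hPT]
      have h1 : P ≤ n := by
        have h := Nat.pow_log_le_self 2 (x := n) (by omega)
        rw [hc.1] at h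
        rw [hP]
        exact_mod_cast h
      refine le_trans ?_ (ha n hc.2.1 hc.2.2)
      rw [mul_assoc]
      refine mul_le_mul_of_nonneg_left ?_ (sq_nonneg _)
      exact mul_le_mul h1 (by linarith) (by positivity) (by positivity)
    · rw [if_neg hc, abs_zero]
      exact Real.sqrt_nonneg _
  have key := HD (2 ^ (j + 1)) (cf N a j) (Real.sqrt (H / (P * (T + P)))) T
    (Real.sqrt_nonneg _) hT.le hB
  rw [Real.sq_sqrt (by positivity)] at key
  have hcast : (((2 ^ (j + 1) : ℕ)) : ℝ) = 2 * P := by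
    rw [hP]
    push_cast
    ring
  rw [hcast] at key
  refine le_trans key ?_
  have hlog : Real.log (2 * P) ≤ 1 + Real.log N := by
    rw [Real.log_mul (by norm_num) hP0.ne']
    have h1 : Real.log P ≤ Real.log N := Real.log_le_log hP0 hPN
    have h2 := Real.log_two_lt_d9
    linarith
  have h3 : T + 2 * P * (1 + Real.log (2 * P)) ≤ 4 * (1 + Real.log N) * (T + P) := by
    have h4 : 2 * P * (1 + Real.log (2 * P)) ≤ 2 * P * (2 + Real.log N) :=
      mul_le_mul_of_nonneg_left (by linarith) (by positivity)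
    have h5 : 0 ≤ Real.log N * T := by positivity
    have h6 : 0 ≤ Real.log N * P := by positivity
    nlinarith
  calc C * (H / (P * (T + P))) * (2 * P) * (T + 2 * P * (1 + Real.log (2 * P)))
      ≤ C * (H / (P * (T + P))) * (2 * P) * (4 * (1 + Real.log N) * (T + P)) :=
        mul_le_mul_of_nonneg_left h3 (by positivity)
    _ = 8 * C * H * (1 + Real.log N) := by
        have : T + P ≠ 0 := by positivity
        field_simp
        ring

theorem main (h1 : T_MVD) : T_MVS := by
  obtain ⟨C, hC, HD⟩ := h1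
  refine ⟨32 * C, by positivity, ?_⟩
  intro N a H T hH hT hN ha
  set J : ℕ := Nat.log 2 N with hJ
  have hL : 0 ≤ Real.log N := Real.log_natCast_nonneg N
  have hTT : T ≤ 2 * T := by linarith
  have hJL : (J : ℝ) + 1 ≤ 2 * (1 + Real.log N) := by
    have h2 : 2 ^ J ≤ N := Nat.pow_log_le_self 2 (by omega)
    have h3 : ((2 : ℝ) ^ J) ≤ N := by exact_mod_cast h2
    have h4 := Real.log_le_log (by positivity) h3
    rw [Real.log_pow] at h4
    have h5 := Real.log_two_gt_d9
    have h6 : (0 : ℝ) ≤ J := by positivity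
    nlinarith
  have hint : ∀ j, IntervalIntegrable (fun t => ‖SB N a j t‖ ^ 2) volume T (2 * T) := fun j =>
    ((cont_SB N a j).norm.pow 2).intervalIntegrable _ _
  calc (∫ t in T..(2 * T), ‖∑ n ∈ Finset.Icc 1 N, (a n : ℂ) * (n : ℂ) ^ (-((t : ℂ) * I))‖ ^ 2)
      ≤ ∫ t in T..(2 * T), ((J : ℝ) + 1) *
        ∑ j ∈ Finset.range (J + 1), ‖SB N a j t‖ ^ 2 := by
        refine intervalIntegral.integral_mono_on hTT ?_ ?_ ?_
        · refine Continuous.intervalIntegrable ?_ _ _
          have : (fun t : ℝ => ‖∑ n ∈ Finset.Icc 1 N, (a n : ℂ) *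
              (n : ℂ) ^ (-((t : ℂ) * I))‖ ^ 2) =
              fun t : ℝ => ‖∑ j ∈ Finset.range (Nat.log 2 N + 1), SB N a j t‖ ^ 2 := by
            funext t
            rw [split]
          rw [this]
          exact ((continuous_finsetSum _ (fun j _ => cont_SB N a j)).norm).pow 2
        · refine Continuous.intervalIntegrable ?_ _ _
          exact continuous_const.mul
            (continuous_finsetSum _ (fun j _ => (cont_SB N a j).norm.pow 2))
        · intro t _
          rw [split]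
          refine (pow_le_pow_left₀ (norm_nonneg _) (norm_sum_le _ _) 2).trans ?_
          refine (sq_sum_le_card_mul_sum_sq).trans (le_of_eq ?_)
          rw [Finset.card_range]
          push_cast
          rfl
    _ = ((J : ℝ) + 1) * ∑ j ∈ Finset.range (J + 1), ∫ t in T..(2 * T), ‖SB N a j t‖ ^ 2 := by
        rw [intervalIntegral.integral_const_mul, intervalIntegral.integral_finsetSum]
        intro j _
        exact hint j
    _ ≤ ((J : ℝ) + 1) * ∑ j ∈ Finset.range (J + 1), 8 * C * H * (1 + Real.log N) := by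
        refine mul_le_mul_of_nonneg_left (Finset.sum_le_sum (fun j hj => ?_)) (by positivity)
        rw [Finset.mem_range] at hj
        refine block hC HD N a H T hH hT ha j ?_
        refine le_trans (Nat.pow_le_pow_right (by norm_num) (by omega : j ≤ J)) ?_
        exact Nat.pow_log_le_self 2 (by omega)
    _ = ((J : ℝ) + 1) ^ 2 * (8 * C * H * (1 + Real.log N)) := by
        rw [Finset.sum_const, Finset.card_range, nsmul_eq_mul]
        push_cast
        ring
    _ ≤ (2 * (1 + Real.log N)) ^ 2 * (8 * C * H * (1 + Real.log N)) := by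
        refine mul_le_mul_of_nonneg_right ?_ (by positivity)
        exact pow_le_pow_left₀ (by positivity) hJL 2
    _ = 32 * C * H * (1 + Real.log N) ^ 3 := by ring

end Pool.Agent.DBA.MVS_

namespace Pool.Agent.DBA

theorem p_MVS (h1 : T_MVD) : T_MVS := MVS_.main h1

end Pool.Agent.DBA
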