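import Pool.Agent.DBA.Targets3
import Pool.Agent.DBN.ZA

/-!
# DBA part 3, block XI4

(MP_4e5e8a_nt.) The function `xi` satisfies `XiLe (mm 4)`.
-/

set_option autoImplicit false

namespace Pool.Agent.DBA

open Complex MeasureTheory Set Filter
open Pool.Agent.DBN Pool.Agent.DBC

namespace XI4_

lemma le_mm (y : ℝ) : max (|y| / 2) (1 / 4) ≤ mm 4 y := by
  unfold mm
  have h0 : (0 : ℝ) ≤ |y| := abs_nonneg y
  have h1 : y ^ 2 = |y| ^ 2 := (sq_abs y).symm
  split_ifs with h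
  · rw [h1]
    refine max_le ?_ ?_
    · nlinarith [sq_nonneg (1 - |y|)]
    · nlinarith [sq_nonneg (|y|)]
  · refine max_le le_rfl ?_
    have h2 : (4 : ℝ) / 4 < |y| := not_le.1 h
    linarith

end XI4_

open XI4_ in
theorem p_XI4 : T_XI4 := by
  intro ε κ hε hκ
  obtain ⟨C, hC, h1⟩ := xi_quarter_le ε κ hε hκ
  refine ⟨C, hC, fun T w hT => (h1 T w hT).trans ?_⟩
  have hT1 : (1 : ℝ) ≤ T := by linarith
  have h2 : T ^ (max (|w.re| / 2) (1 / 4) + ε) ≤ T ^ (mm 4 w.re + ε) :=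
    Real.rpow_le_rpow_of_exponent_le hT1 (by linarith [le_mm w.re])
  have h3 : 0 < size T := size_pos (by linarith)
  have h4 : 0 ≤ C * size T := mul_nonneg hC h3.le
  exact mul_le_mul_of_nonneg_right (mul_le_mul_of_nonneg_left h2 h4) (Real.exp_pos _).le

end Pool.Agent.DBA
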