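import Pool.Agent.Ben.P_MTWO
import Pool.Agent.Ben.P_MGF
import Pool.Agent.Lib.ZetaCrude
import Pool.Agent.H25.Plancherel

/-!
# DBA: at almost all heights zeta is small and has no zeros to the right of the critical line
(MP_4e5e8a_nt, addition to DBNFlow): definitions and compiled targets

Mean values of `ζ` and of `ζ M - 1` (`M` a short mollifier), subharmonicity, Markov's inequality.
Every `T_X` has its proof in the docstring; deliver `theorem p_X : T_X` (targets named in brackets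
are hypotheses) in the NEW file `Pool/Agent/DBA/P_X.lean` which imports this file, namespace
`Pool.Agent.DBA`, helper lemmas in the sub-namespace `X_`.
-/

set_option autoImplicit false

namespace Pool.Agent.DBA

open Complex MeasureTheory Set Filter

/-- `∑_{n ≤ N} n ^ (-s)` -/
noncomputable def Dp (N : ℕ) (s : ℂ) : ℂ := ∑ n ∈ Finset.Icc 1 N, (n : ℂ) ^ (-s)

/-- `∑_{n ≤ Y} μ(n) n ^ (-s)` -/
noncomputable def Mp (Y : ℕ) (s : ℂ) : ℂ :=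
  ∑ n ∈ Finset.Icc 1 Y, ((ArithmeticFunction.moebius n : ℤ) : ℂ) * (n : ℂ) ^ (-s)

/-- the tail integral `∫_x^∞ (1 - {v}) v ^ (-s-1) dv` -/
noncomputable def RI (x : ℝ) (s : ℂ) : ℂ :=
  ∫ v in Ioi x, ((1 - Int.fract v : ℝ) : ℂ) * (v : ℂ) ^ (-s - 1)

/-- the coefficient of `n ^ (-s)` in `Dp N s * Mp Y s` -/
def bc (N Y n : ℕ) : ℤ :=
  ∑ k ∈ n.divisors.filter (fun k => k ≤ Y ∧ n / k ≤ N), ArithmeticFunction.moebius k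

/-- the point `x + i y` -/
noncomputable def pt (x y : ℝ) : ℂ := (x : ℂ) + (y : ℂ) * I

/-- the mean of `|g| ^ 2` over the box around the height `T` -/
noncomputable def bx (g : ℂ → ℂ) (a b K T : ℝ) : ℝ :=
  ∫ x in a..b, ∫ y in (T - K)..(T + K), ‖g (pt x y)‖ ^ 2

/-! ### A. Approximation of zeta -/

/-- EMF (30 min). PROOF. `Lib.ZetaCrude`: `G s = (s - 1) ζ(s) = 1 + ∑ g n s` for `Re s > 0` (see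
`PertZ/GID.lean`, lines 100-150, for the use of `G_eq` and of finite sums), so `ζ(s) = ∑_{n ≤ N}
n^(-s) + (N+1)^(1-s)/(s-1) + (∑_{n ≥ N} g n s)/(s-1)` and `g n s / (s - 1) = (n+1)^(-s) -
∫_{n+1}^{n+2} u^(-s) du = s ∫_{n+1}^{n+2} (n+2-v) v^(-s-1) dv` (by parts), `n + 2 - v = 1 - {v}`
on `[n+1, n+2)`. The integrals add up to the integral over `Ioi (N+1)` (absolutely convergent,
`hasSum_integral_iUnion` or `intervalIntegral` limits). -/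
def T_EMF : Prop := ∀ (s : ℂ) (N : ℕ), 0 < s.re → s ≠ 1 →
  riemannZeta s = Dp N s + ((N + 1 : ℝ) : ℂ) ^ (1 - s) / (s - 1) + s * RI (N + 1) s

/-- PLC (45 min). PROOF. `v = e^w`: `RI x (σ + i t) = ∫_{log x}^∞ (1 - {e^w}) e^(-σ w) e^(-i t
w) dw`, the Fourier transform at `t / (2 π)` of an integrable and square integrable function `f`
(zero for `w ≤ log x`); Plancherel (`Pool.Agent.H25.Plancherel.eLpNorm_fourier_eq`): `∫_ℝ |RI|^2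
dt = 2 π ∫ |f|^2 ≤ 2 π ∫_{log x}^∞ e^(-2 σ w) dw = π x^(-2σ)/σ ≤ 4 π x^(-2σ)`. -/
def T_PLC : Prop := ∃ C : ℝ, 0 < C ∧ ∀ x σ T : ℝ, 1 ≤ x → 1 / 4 ≤ σ → 0 ≤ T →
  (∫ t in T..(2 * T), ‖RI x (pt σ t)‖ ^ 2) ≤ C * x ^ (-(2 * σ))

/-- REM (from EMF, PLC; 30 min). PROOF. For `t ∈ [T, 2T]`, `s = σ + i t`: `‖ζ(s) - Dp N s‖^2 ≤
2 ‖(N+1)^(1-s)/(s-1)‖^2 + 2 |s|^2 ‖RI (N+1) s‖^2`; the first is `≤ 2 (N+1)^(2-2σ) T^(-2)` and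
`(N+1)^(2-2σ) ≤ C T^(2-2σ)` (`T ≤ N + 1 ≤ 9T`, `σ ≤ 3`), the second: `|s|^2 ≤ (3 + 2T)^2`, PLC and
`(N+1)^(-2σ) ≤ T^(-2σ)`. (Everything is continuous in `t`, `s ≠ 1` as `T ≥ 1`.) -/
def T_REM : Prop := ∃ C : ℝ, 0 < C ∧ ∀ (T σ : ℝ) (N : ℕ), 1 ≤ T → T ≤ N → (N : ℝ) ≤ 8 * T →
  1 / 4 ≤ σ → σ ≤ 3 →
  (∫ t in T..(2 * T), ‖riemannZeta (pt σ t) - Dp N (pt σ t)‖ ^ 2) ≤ C * T ^ (2 - 2 * σ)

/-! ### B. Mean values of Dirichlet polynomials -/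

/-- MVD (30 min). PROOF. `Pool.Agent.Ben.MTWO_upper` for `a n / B` (`B = 0` is trivial) and the
substitution `t = 2 π u`: `n^(-i t) = conj (e (u log n))`, the norm does not change under
conjugation (real coefficients); `∫_T^{2T} = 2 π ∫_{T/2π}^{2T/2π}`. -/
def T_MVD : Prop := ∃ C : ℝ, 0 < C ∧ ∀ (N : ℕ) (a : ℕ → ℝ) (B T : ℝ), 0 ≤ B → 0 ≤ T →
  (∀ n, |a n| ≤ B) →
  (∫ t in T..(2 * T), ‖∑ n ∈ Finset.Icc 1 N, (a n : ℂ) * (n : ℂ) ^ (-((t : ℂ) * I))‖ ^ 2) ≤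
    C * B ^ 2 * N * (T + N * (1 + Real.log N))

/-- MVS (from MVD; 45 min). PROOF. Split `1..N` in the blocks `2^j ≤ n < 2^(j+1)`, `j ≤ log_2
N`; on a block `|a n|^2 ≤ H / (2^j (T + 2^j))`, so by MVD (coefficients zero outside the block,
length `min N 2^(j+1)`) its mean square is `≤ C H (1 + log N)`; Cauchy-Schwarz with `1 + log_2
N` blocks. -/
def T_MVS : Prop := ∃ C : ℝ, 0 < C ∧ ∀ (N : ℕ) (a : ℕ → ℝ) (H T : ℝ), 0 ≤ H → 0 < T → 1 ≤ N →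
  (∀ n, 1 ≤ n → n ≤ N → a n ^ 2 * n * (T + n) ≤ H) →
  (∫ t in T..(2 * T), ‖∑ n ∈ Finset.Icc 1 N, (a n : ℂ) * (n : ℂ) ^ (-((t : ℂ) * I))‖ ^ 2) ≤
    C * H * (1 + Real.log N) ^ 3

/-- BCO (30 min). PROOF. `Dp N s * Mp Y s = ∑_{m ≤ N, k ≤ Y} μ(k) (m k)^(-s)`, collect `n = m k`
(`n ≤ N Y`, `(m k)^(-s) = m^(-s) k^(-s)` for natural numbers). `bc 1 = 1`. For `2 ≤ n ≤ Y`, `n ≤
N` the conditions hold for all divisors and `∑_{k ∣ n} μ(k) = 0`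
(`ArithmeticFunction.sum_moebius..` / `coe_zeta_mul_moebius`). `|bc| ≤` number of divisors `≤ C
n^ε` (divisor bound in `Ben/P_MGF.lean`, line 43). -/
def T_BCO : Prop := (∀ (N Y : ℕ) (s : ℂ), Dp N s * Mp Y s =
    ∑ n ∈ Finset.Icc 1 (N * Y), ((bc N Y n : ℤ) : ℂ) * (n : ℂ) ^ (-s)) ∧
  (∀ N Y : ℕ, 1 ≤ N → 1 ≤ Y → bc N Y 1 = 1) ∧
  (∀ N Y n : ℕ, 2 ≤ n → n ≤ N → n ≤ Y → bc N Y n = 0) ∧
  ∀ ε : ℝ, 0 < ε → ∃ C : ℝ, 0 < C ∧ ∀ N Y n : ℕ, 1 ≤ n → |(bc N Y n : ℝ)| ≤ C * (n : ℝ) ^ ε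

/-- ZMS (from REM, MVS; 30 min). PROOF. `N = ⌈T⌉`; `‖ζ‖^2 ≤ 2 ‖ζ - Dp N‖^2 + 2 ‖Dp N‖^2`. REM:
`T^(2-2σ) ≤ T^(1 + 2 max 0 (1/2 - σ))` (`T ≥ 1`). MVS with `a n = n^(-σ)`,
`n^(1-2σ) (T + n) ≤ C T^(1 + 2 max 0 (1/2 - σ))` for `n ≤ N ≤ 2 T`; `(1 + log N)^3 ≤ C T^ε`. -/
def T_ZMS : Prop := ∀ ε : ℝ, 0 < ε → ∃ C : ℝ, 0 < C ∧ ∀ T σ : ℝ, 1 ≤ T → 1 / 4 ≤ σ → σ ≤ 3 →
  (∫ t in T..(2 * T), ‖riemannZeta (pt σ t)‖ ^ 2) ≤ C * T ^ (1 + 2 * max 0 (1 / 2 - σ) + ε)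

/-- ZMO (from REM, MVS, BCO; 60 min). PROOF. `a = η/4`, `X ≥ 1`, `Y = ⌊X^a⌋₊ ≥ 1`, `T ∈ [X/4,
4X]`, `N = ⌈4 T⌉₊ + 1` (so `N ≥ Y` as `X ≤ 4 T`, `a ≤ 1`; `N ≤ 8 T` for `T ≥ 1`). `ζ M - 1 = (ζ
- D) M + (D M - 1)`. `|M| ≤ Y ≤ X^a`, REM: first part `≤ C X^(2a) T^(2-2σ) ≤ C X^(1 - 2η + 2a)`.
`D M - 1 = ∑_{Y < n ≤ N Y} bc n^(-s)` (BCO): MVS with `a n = bc n^(-σ)` (`0` for `n ≤ Y`), BCO
with `ε = η/4`: `a n^2 n (T + n) ≤ C n^(2ε + 1 - 2σ) (T + n) ≤ C n^(-3η/2) (T + n)` which is `≤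
C (X Y^(-3η/2) + (N Y)^(1 - 3η/2)) ≤ C (X^(1 - 3η²/8) + X^((1 + η/4)(1 - 3η/2)))` (`3η/2 ≤ 1`).
`(1 + log (N Y))^3 ≤ C X^(η²/8)`. So `δ = η²/4` will do. -/
def T_ZMO : Prop := ∀ η : ℝ, 0 < η → η ≤ 1 / 4 → ∃ a δ C : ℝ, 0 < a ∧ a ≤ 1 ∧ 0 < δ ∧ 0 < C ∧
  ∀ X T σ : ℝ, 4 ≤ X → X ≤ 4 * T → T ≤ 4 * X → 1 / 2 + η ≤ σ → σ ≤ 3 →
  (∫ t in T..(2 * T), ‖riemannZeta (pt σ t) * Mp ⌊X ^ a⌋₊ (pt σ t) - 1‖ ^ 2) ≤ C * X ^ (1 - δ)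

/-! ### C. From mean values to almost all heights -/

/-- DSC (45 min). PROOF. `f²` is analytic, so `f(s₀)²` is its average over every circle `|s -
s₀| = ρ`, `0 < ρ ≤ r` (Mathlib: circle averages / mean value property), hence `|f(s₀)|² r²/2 ≤
(1/2π) ∫_{disc} |f|²` (polar coordinates, `Complex.integral_comp_polarCoord_symm`) `≤ (1/2π)
∫_{square} |f|²`. `C` may be anything. -/
def T_DSC : Prop := ∃ C : ℝ, 0 < C ∧ ∀ (f : ℂ → ℂ) (x y r : ℝ), 0 < r →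
  (∀ s : ℂ, |s.re - x| ≤ r → |s.im - y| ≤ r → DifferentiableAt ℂ f s) →
  r ^ 2 * ‖f (pt x y)‖ ^ 2 ≤
    C * ∫ u in (x - r)..(x + r), ∫ v in (y - r)..(y + r), ‖f (pt u v)‖ ^ 2

/-- MRK (45 min). Markov's inequality for the boxes. PROOF. `F(T) = bx g a b K T` is continuous
and nonnegative in `T` for `T ∈ [X, 2X]` (`g` is continuous on the strip there). `B` = the set
of the `T ∈ [X, 2X]` with `F(T) ≥ λ`, closed, and `λ |B| ≤ ∫_X^{2X} F(T) dT`; Fubini: `∫_X^{2X}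
F = ∫_a^b ∫_{-K}^{K} ∫_X^{2X} |g(x + i (T + v))|² dT dv dx` and `∫_X^{2X} |g(x + i(T + v))|² dT
≤ ∫_{X-K}^{2X+K} ≤ ∫_{X/2}^{X} + ∫_{X}^{2X} + ∫_{2X}^{4X} ≤ 3 V` (`K ≤ X / 2`). So `|B| ≤ 6 K (b
- a) V / λ`. -/
def T_MRK : Prop := ∀ (g : ℂ → ℂ) (a b K X V lam : ℝ), a ≤ b → 0 < K → 2 * K ≤ X → 0 < lam →
  0 ≤ V → (∀ s : ℂ, a ≤ s.re → s.re ≤ b → X / 2 ≤ s.im → ContinuousAt g s) →
  (∀ x, a ≤ x → x ≤ b → ∀ T, (T = X / 2 ∨ T = X ∨ T = 2 * X) →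
    (∫ t in T..(2 * T), ‖g (pt x t)‖ ^ 2) ≤ V) →
  ∃ B : Set ℝ, MeasurableSet B ∧ B ⊆ Icc X (2 * X) ∧
    volume B ≤ ENNReal.ofReal (6 * K * (b - a) * V / lam) ∧
    ∀ T ∈ Icc X (2 * X), T ∉ B → bx g a b K T < lam

/-- SMA (from ZMS, DSC, MRK; 45 min). At almost all heights zeta is small. PROOF. `r = min (e/4)
(1/8)`, `a = 1/2 - 2 r ≥ 1/4`, `b = 3`, window `K + 1`. ZMS with `ε = e/4`: the integrals are `≤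
V = C X^(1 + 4 r + e/4)`, `≤ C X^(1 + 5e/4)`. MRK with `λ = r² X^(2e) / C` (`C` of DSC) gives
`|B| ≤ C' X^(1 - 3e/4) ≤ X^(1 - e/2)` for large `X`. For `T ∉ B`, `1/2 - r ≤ Re s ≤ 2`, `|Im s -
T| ≤ K`: DSC and monotonicity (the square is in the box) give `r² |ζ(s)|² ≤ C bx < r² X^(2e)`;
`ρ = r`. For `Re s ≥ 2` `|ζ(s)| ≤ 2 ≤ X^e` for large `X`. -/
def T_SMA : Prop := ∀ e K : ℝ, 0 < e → 0 < K → ∃ ρ d X₀ : ℝ, 0 < ρ ∧ 0 < d ∧ 2 ≤ X₀ ∧ ∀ X : ℝ,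
  X₀ ≤ X → ∃ B : Set ℝ, MeasurableSet B ∧ B ⊆ Icc X (2 * X) ∧
    volume B ≤ ENNReal.ofReal (X ^ (1 - d)) ∧ ∀ T ∈ Icc X (2 * X), T ∉ B → ∀ s : ℂ,
      |s.im - T| ≤ K → 1 / 2 - ρ ≤ s.re → ‖riemannZeta s‖ ≤ X ^ e

/-- NZR (from ZMO, DSC, MRK; 45 min). At almost all heights there are no zeros. PROOF. We may
assume `e ≤ 1/4` (smaller `e`: stronger). `η = e/2`, `r = e/4`, `f = ζ Mp - 1` with `Y =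
⌊X^a⌋₊`, box `[1/2 + η, 3]`, window `K + 1`; ZMO for `T = X/2, X, 2X`; MRK with `λ = r² / C`
(`C` of DSC): `|B| ≤ C' X^(1 - δ)`. If `T ∉ B` and `ζ(s) = 0`, `1/2 + e ≤ Re s < 1`, `|Im s - T|
≤ K`, then `f(s) = -1` and DSC: `r² ≤ C bx < r²`, a contradiction. `Re s ≥ 1`:
`riemannZeta_ne_zero_of_one_le_re`. -/
def T_NZR : Prop := ∀ e K : ℝ, 0 < e → 0 < K → ∃ d X₀ : ℝ, 0 < d ∧ 2 ≤ X₀ ∧ ∀ X : ℝ,
  X₀ ≤ X → ∃ B : Set ℝ, MeasurableSet B ∧ B ⊆ Icc X (2 * X) ∧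
    volume B ≤ ENNReal.ofReal (X ^ (1 - d)) ∧ ∀ T ∈ Icc X (2 * X), T ∉ B → ∀ s : ℂ,
      |s.im - T| ≤ K → 1 / 2 + e ≤ s.re → riemannZeta s ≠ 0

/-- FIN (from SMA, NZR; 20 min). PROOF. The union of the two sets; `2 X^(1 - d') ≤ X^(1 - d)` with
`d' = min d₁ d₂`, `d = d' / 2` for large `X`. -/
def T_FIN : Prop := ∀ e K : ℝ, 0 < e → 0 < K → ∃ ρ d X₀ : ℝ, 0 < ρ ∧ 0 < d ∧ 2 ≤ X₀ ∧ ∀ X : ℝ,
  X₀ ≤ X → ∃ B : Set ℝ, MeasurableSet B ∧ B ⊆ Icc X (2 * X) ∧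
    volume B ≤ ENNReal.ofReal (X ^ (1 - d)) ∧ ∀ T ∈ Icc X (2 * X), T ∉ B → ∀ s : ℂ,
      |s.im - T| ≤ K → (1 / 2 - ρ ≤ s.re → ‖riemannZeta s‖ ≤ X ^ e) ∧
        (1 / 2 + e ≤ s.re → riemannZeta s ≠ 0)

end Pool.Agent.DBA
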