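import Pool.Agent.DBA.Targets
import Pool.Agent.DBC.Defs4
import Pool.Agent.DBC.Targets2

/-!
# DBA: the bridge between the arithmetic input and the sets `Gd` of good heights: targets

(MP_4e5e8a_nt, addition to DBNFlow.) `T_FIN` is the result of Targets.lean; `UpZ`, `LoZ`, `Gd` are
defined in DBC/Defs4.lean. Deliver `theorem p_X` in the NEW file `Pool/Agent/DBA/P_X.lean` which
imports this file, namespace `Pool.Agent.DBA`.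
-/

set_option autoImplicit false

namespace Pool.Agent.DBA

open Complex MeasureTheory Set Filter

/-- near the height `T` the function `ζ` is at most `T ^ e` for `Re s ≥ 1/2` and has no zeros with
`Re s ≥ 1/2 + e` -/
def Nice (e K T : ℝ) : Prop := ∀ s : ℂ, |s.im - T| ≤ K →
  (1 / 2 ≤ s.re → ‖riemannZeta s‖ ≤ T ^ e) ∧ (1 / 2 + e ≤ s.re → riemannZeta s ≠ 0)

/-- LZG (from BCL; 30 min, edit of DBC/Q_LZE.lean, author is fastest). PROOF. UpZ: `T^e ≤ T^ε` for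
`e ≤ ε`, `K₁ ≥ R`. LoZ: exactly as the lower bound in `q_LZE` with `σ0 = 1/2 + η/2`, `δ = η/2`, `K`
replaced by `R`: `ρ = R + 3 - (σ0 + η/4)`, `K₁ = R + ρ + 1`, `e ≤ η/2` small; on the ball of radius
`ρ` around `s₁ = R + 3 + i Im s` we have `Re ≥ σ0 + η/4 ≥ 1/2 + e`, `|Im - T| ≤ K₁`, so `ζ ≠ 0` and
`‖ζ‖ ≤ T^e` there by `Nice e K₁ T` (in place of `mu_interp` and `ZF`); `‖ζ s₁‖ ≥ c₀`
(`SPZ.s4`), Borel-Caratheodory with `M = 2 e log T`. If `R < 1/2 + η` LoZ is empty. -/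
def T_LZG : Prop := ∀ η ε R : ℝ, 0 < η → 0 < ε → 0 < R → ∃ e K₁ T₀ : ℝ, 0 < e ∧ 0 < K₁ ∧ 2 ≤ T₀ ∧
  ∀ T : ℝ, T₀ ≤ T → Nice e K₁ T → Pool.Agent.DBC.UpZ ε R T ∧ Pool.Agent.DBC.LoZ η ε R T

/-- GDN (from FIN, LZG; 20 min). PROOF. LZG with `ε = 1/(n+1)`, `R = n + 1` gives `e`, `K₁`, `T₀`;
FIN with `e`, `K₁` gives `d`, `X₁` and `B`; for `T` in `[X, 2X]`, `T ∉ B`: `Nice e K₁ T`
(`X^e ≤ T^e`, `1/2 - ρ ≤ 1/2`), so `T ∈ Gd η n` if `X ≥ T₀`. The set is contained in `B`. -/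
def T_GDN : Prop := ∀ (η : ℝ) (n : ℕ), 0 < η → ∃ d X₀ : ℝ, 0 < d ∧ 2 ≤ X₀ ∧ ∀ X : ℝ, X₀ ≤ X →
  volume {T : ℝ | X ≤ T ∧ T ≤ 2 * X ∧ T ∉ Pool.Agent.DBC.Gd η n} ≤ ENNReal.ofReal (X ^ (1 - d))

end Pool.Agent.DBA
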