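import Pool.Agent.DBA.Defs3
import Pool.Agent.DBC.Targets2
import Pool.Agent.DBN.ZDefs

/-!
# DBA part 3: long windows and the number of exceptional zeros: definitions and targets

(MP_4e5e8a_nt, addition to DBNFlow.) From `AlmostAll` (DBC/Defs4.lean): (1) `Wide`: at almost all
heights `T` all zeros of `H_t` with `|Re z - 2 T| ≤ T^δ` are real, simple and regularly spaced;
(2) `FewBad`: at most `X^(1 - δ)` zeros of `H_t` with `X ≤ Re z / 2 ≤ 2 X` are not real or not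
simple. Every `T_X` has its proof in the docstring; deliver `theorem p_X : T_X` (targets named in
brackets are hypotheses) in the NEW file `Pool/Agent/DBA/P_X.lean` which imports this file,
namespace `Pool.Agent.DBA`, helper lemmas in the sub-namespace `X_`. There `L = log T`,
`c = t * L`, `1 / t = L / c`, `e^(-u²/t) = T^(-u²/c)`, `sd t T = c / 4`.
-/

set_option autoImplicit false

namespace Pool.Agent.DBA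

open Complex MeasureTheory Set Filter
open Pool.Agent.DBN Pool.Agent.DBC

/-- the bad heights in `[X / 2, 4 X]` -/
def AX (c₁ c₂ K ε X : ℝ) : Set ℝ :=
  {T : ℝ | X / 2 ≤ T ∧ T ≤ 4 * X ∧ ∃ t : ℝ, c₁ ≤ t * Real.log T ∧ t * Real.log T ≤ c₂ ∧
    ¬ CrysAt K ε t T}

/-! ### A. Covering -/

/-- CVJ (15 min). PROOF. The intervals `[j/2, (j+1)/2)` are disjoint, of measure `1/2`, and
contained in `A`: `card / 2 ≤ volume A ≤ V` (`measure_biUnion_finset`). -/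
def T_CVJ : Prop := ∀ (A : Set ℝ) (V : ℝ) (J : Finset ℤ), 0 ≤ V →
  (∀ j ∈ J, Ico ((j : ℝ) / 2) (((j : ℝ) + 1) / 2) ⊆ A) → volume A ≤ ENNReal.ofReal V →
  (J.card : ℝ) ≤ 2 * V

/-- COV (from CVJ; 25 min). PROOF. Let `J` be the set of all integers `j` with
`[j/2, (j+1)/2) ⊆ A`; by CVJ every finite subset has at most `2 V` elements, so `J` is finite. For
`T ∈ S` and `T'` as in the hypothesis `j = ⌈2 T'⌉ - 1` has `j/2 ≥ T' - 1/2`, `(j+1)/2 ≤ T' + 1/2`,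
so `j ∈ J`, and `|T - j/2| ≤ R + 1/2`. So `S` is contained in the union over `J` of the intervals
`[j/2 - R - 1/2, j/2 + R + 1/2]`, of measure at most `2 V (2 R + 1) ≤ 4 (R + 1) V`. -/
def T_COV : Prop := ∀ (A S : Set ℝ) (R V : ℝ), 0 ≤ R → 0 ≤ V →
  (∀ T ∈ S, ∃ T' : ℝ, |T' - T| ≤ R ∧ Icc (T' - 1 / 2) (T' + 1 / 2) ⊆ A) →
  volume A ≤ ENNReal.ofReal V → volume S ≤ ENNReal.ofReal (4 * (R + 1) * V)

/-- MAX (15 min). PROOF. `AX` is contained in the union of the three sets of `AlmostAll` for `X/2`,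
`X`, `2 X`. With `δ = min δ₀ 1` (`Y^(1 - δ₀) ≤ Y^(1 - δ)` for `Y ≥ 1`):
`(X/2)^(1-δ) + X^(1-δ) + (2 X)^(1-δ) ≤ 4 X^(1-δ)`. -/
def T_MAX : Prop := ∀ c₁ c₂ : ℝ, AlmostAll c₁ c₂ → ∀ K ε : ℝ, 0 < K → 0 < ε →
  ∃ δ X₀ : ℝ, 0 < δ ∧ δ ≤ 1 ∧ 2 ≤ X₀ ∧ ∀ X : ℝ, X₀ ≤ X →
    volume (AX c₁ c₂ K ε X) ≤ ENNReal.ofReal (4 * X ^ (1 - δ))

/-- WIA (45 min). PROOF. `X` large: `|log T'' - log T| ≤ ε/4` and `log T / 2 ≤ log T'' ≤ 2 log T`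
for all `T''` with `|T'' - T| ≤ (2 X)^δ + 1`, and such `T''` are in `[X/2, 4 X]`; so
`c₁/2 ≤ t log T'' ≤ 2 c₂`. One of the three parts of `CrysW` fails. (1) There is a zero `z`, not
real or not simple, `|z.re - 2 T| ≤ T^δ`, `|z.im| ≤ K`: `T' = z.re/2`; for `|T'' - T'| ≤ 1/2`:
`‖z - 2 T''‖ ≤ 1 + K`, so `CrysAt (K+2) (ε/2) t T''` fails. (2) `x < y` zeros with
`(y - x) log T < 4 π - ε`: `T' = x/2`, `y - x ≤ 1` for large `T`, `|x - 2 T''| ≤ 1`,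
`|y - 2 T''| ≤ 2`, `(y - x) log T'' ≤ (y - x) log T + ε/4 < 4 π - ε/2`. (3) `x` without `y`:
`T' = x/2`; if `CrysAt (K+2) (ε/2) t T''` holds then there is `y ≥ x`, `H t y = 0`,
`(y - x) log T'' ≤ 4 π + ε/2`, `y - x ≤ 1` for large `T''`, so `(y - x) log T ≤ 4 π + 3 ε/4`,
a contradiction. Always `|T' - T| ≤ T^δ/2 ≤ (2 X)^δ`. -/
def T_WIA : Prop := ∀ c₁ c₂ K ε δ : ℝ, 0 < c₁ → c₁ ≤ c₂ → 0 < K → 0 < ε → 0 < δ → δ ≤ 1 / 4 →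
  ∃ X₀ : ℝ, 2 ≤ X₀ ∧ ∀ X T : ℝ, X₀ ≤ X → X ≤ T → T ≤ 2 * X →
    (∃ t : ℝ, c₁ ≤ t * Real.log T ∧ t * Real.log T ≤ c₂ ∧ ¬ CrysW K ε δ t T) →
    ∃ T' : ℝ, |T' - T| ≤ (2 * X) ^ δ ∧
      Icc (T' - 1 / 2) (T' + 1 / 2) ⊆ AX (c₁ / 2) (2 * c₂) (K + 2) (ε / 2) X

/-- WID (from COV, MAX, WIA; 25 min). PROOF. MAX for `c₁/2`, `2 c₂`, `K + 2`, `ε/2` gives `δ₀ ≤ 1`;
`δ = δ₀/4`; WIA, COV with `R = (2 X)^δ`, `V = 4 X^(1 - δ₀)`: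
`4 ((2 X)^δ + 1) 4 X^(1 - δ₀) ≤ 48 X^(1 - δ₀ + δ) ≤ X^(1 - δ)` for `X` large. -/
def T_WID : Prop := ∀ c₁ c₂ : ℝ, 0 < c₁ → c₁ ≤ c₂ → AlmostAll (c₁ / 2) (2 * c₂) → Wide c₁ c₂

/-! ### B. The number of zeros near `2 T`, uniformly in `t` -/

/-- XI4 (10 min). PROOF. `xi_quarter_le` (DBN/ZA.lean) and `max (|x|/2) (1/4) ≤ mm 4 x`. -/
def T_XI4 : Prop := XiLe (mm 4)

/-- INX. Elementary inequalities (30 min). PROOF. First: `x + u ≥ 1`, so `mm 4 (x + u) =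
(x + u)/2` and the left side is `c/16 + x/2 - (u - c/4)²/c`; `u² ≤ 2 (u - c/4)² + c²/8`;
`κ ≤ min (1/(4 c₂)) (2 r²/c₂³)`, `g = r²/(4 c₂)`. Second: `mm 4 y ≤ max (|y|/2) (1/2)`, so
`mm 4 (u - x) ≤ x/2` (and the left side is `≤ x/2 - u²/c₂ ≤ c/16 + x/2 - c₁/16 - u²/c₂`) or
`mm 4 (u - x) = (u - x)/2` with `u/2 - u²/c + κ u² ≤ c/16 + κ c²/8` for `κ c ≤ 1/2`, and
`-x/2 + c/16 + κ c²/8 ≤ c/16 + x/2 - g` for `κ ≤ 4/c₂²`, `g ≤ 1/2`. -/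
def T_INX : Prop := ∀ c₁ c₂ r : ℝ, 0 < c₁ → c₁ ≤ c₂ → 0 < r → ∃ g κ : ℝ, 0 < g ∧ 0 < κ ∧
  ∀ c x u : ℝ, c₁ ≤ c → c ≤ c₂ → 1 ≤ x → 0 ≤ u →
    (r ≤ |u - c / 4| → mm 4 (x + u) - u ^ 2 / c ≤ c / 16 + x / 2 - g - κ * u ^ 2) ∧
    mm 4 (u - x) - u ^ 2 / c ≤ c / 16 + x / 2 - g - κ * u ^ 2

/-- NEX (from LOC, GAU; 25 min, edit of DBC/P_NEA.lean). PROOF. As `p_NEA` (only its third part and
the lower bound for `PP`, so `‖∫‖ ≥ ‖PP‖/2`), with `1 ≤ x` in place of `2 < c₁`: there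
`Re (pt x τ + sd t T) = 1/2 + x + c/4 ≥ 1 + 1/2` (`δ = 1/2` in LOC). `r = min r₀ (min (1/4) (c₁/8))`
(`r₀` from LOC). In place of `NEA_.low_q`: `√(π t) L = √(π c L) ≥ 1` for `L ≥ 1/c₁`. -/
def T_NEX : Prop := ∀ c₁ c₂ K : ℝ, 0 < c₁ → c₁ ≤ c₂ → 0 < K → ∃ r : ℝ, 0 < r ∧ r < c₁ / 4 ∧
  ∀ ε : ℝ, 0 < ε → ∃ T₀ : ℝ, 2 ≤ T₀ ∧ ∀ t T x τ : ℝ, T₀ ≤ T → c₁ ≤ t * Real.log T →
    t * Real.log T ≤ c₂ → 1 ≤ x → x ≤ K → |τ - T| ≤ K →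
    size T * T ^ (t * Real.log T / 16 + x / 2 - ε) ≤
      ‖∫ u in Ioo (sd t T - r) (sd t T + r),
        ((Real.exp (-(u ^ 2 / t)) : ℝ) : ℂ) * xi (Pool.Agent.DBC.pt x τ + u)‖

/-- OFX (from XI4, INX; 15 min, edit of DBC/Q_OA2.lean or P_OFA.lean). PROOF. `OFA_.bound` for
`l = 4`, and the first inequality of INX. -/
def T_OFX : Prop := ∀ c₁ c₂ K r : ℝ, 0 < c₁ → c₁ ≤ c₂ → 0 < K → 0 < r →
  ∃ g C T₀ : ℝ, 0 < g ∧ 0 ≤ C ∧ 2 ≤ T₀ ∧ ∀ t T x τ : ℝ, T₀ ≤ T → c₁ ≤ t * Real.log T →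
    t * Real.log T ≤ c₂ → 1 ≤ x → x ≤ K → |τ - T| ≤ K →
    ∫ u in Ioi (0 : ℝ) \ Ioo (sd t T - r) (sd t T + r),
      Real.exp (-(u ^ 2 / t)) * ‖xi (Pool.Agent.DBC.pt x τ + u)‖ ≤
        C * (size T * T ^ (t * Real.log T / 16 + x / 2 - g))

/-- OBX (from XI4, INX; 15 min, edit of DBC/P_OFB.lean). PROOF. `OFA_.bound` for `l = 4` and the
second inequality of INX (`r = 1`). -/
def T_OBX : Prop := ∀ c₁ c₂ K : ℝ, 0 < c₁ → c₁ ≤ c₂ → 0 < K →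
  ∃ g C T₀ : ℝ, 0 < g ∧ 0 ≤ C ∧ 2 ≤ T₀ ∧ ∀ t T x τ : ℝ, T₀ ≤ T → c₁ ≤ t * Real.log T →
    t * Real.log T ≤ c₂ → 1 ≤ x → x ≤ K → |τ - T| ≤ K →
    ‖W t (Pool.Agent.DBC.pt (-x) τ)‖ ≤ C * (size T * T ^ (t * Real.log T / 16 + x / 2 - g))

/-- LWX (from SPL, CNJ, IGR, NEX, OFX, OBX; 25 min). PROOF. `W t (pt x τ)` is the integral over the
interval (`r < c₁/4 ≤ sd t T`) and over the rest (compare DBC/Q_LO2.lean), so by NEX (`ε = g/2`,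
`g` the smaller of the two `g`, and `ε ≤ 1/4`) and OFX its norm is at least
`(1/2) size T * T^(c/16 + x/2 - ε)`; `W t (1 - pt x τ) = conj (W t (pt (-x) τ))` (CNJ,
`1 - pt x τ = conj (pt (-x) τ)`, see ZER_) is at most a quarter of this (OBX). SPL, and
`(√(π t))⁻¹ ≥ 1` for large `T`; `c/16 + x/2 - ε ≥ 1/4` and `T^(1/4) ≥ 4`. -/
def T_LWX : Prop := ∀ c₁ c₂ K : ℝ, 0 < c₁ → c₁ ≤ c₂ → 0 < K → ∃ T₀ : ℝ, 2 ≤ T₀ ∧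
  ∀ t T x τ : ℝ, T₀ ≤ T → c₁ ≤ t * Real.log T → t * Real.log T ≤ c₂ → 1 ≤ x → x ≤ K →
    |τ - T| ≤ K → size T ≤ ‖flow t (Pool.Agent.DBC.pt x τ)‖

/-- UPX (from SPL, CNJ, XI4; 25 min). PROOF. `mm 4 y ≤ |y|/2 + 1/2`, so for `|x| ≤ K`, `u ≥ 0`:
`mm 4 (x + u) - u²/c ≤ K/2 + 1/2 + u/2 - u²/c₂ ≤ B - 1 - u²/(2 c₂)` with
`B = K/2 + 3/2 + c₂/8`. `OFA_.bound` (`l = 4`, `κ₀ = 1/(2 c₂)`, `g₀ = 1`) and the Gaussian integral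
(compare P_OFB.lean): `‖W t (pt x τ)‖ ≤ C size T * T^B`. SPL, CNJ (for `1 - pt x τ`), and
`(√(π t))⁻¹ ≤ L` for large `T` (`t L ≥ c₁`). -/
def T_UPX : Prop := ∀ c₁ c₂ K : ℝ, 0 < c₁ → c₁ ≤ c₂ → 0 < K → ∃ A T₀ : ℝ, 0 < A ∧ 2 ≤ T₀ ∧
  ∀ t T x τ : ℝ, T₀ ≤ T → c₁ ≤ t * Real.log T → t * Real.log T ≤ c₂ → |x| ≤ K → |τ - T| ≤ K →
    ‖flow t (Pool.Agent.DBC.pt x τ)‖ ≤ size T * T ^ A

/-- JNX (from LWX, UPX; 30 min). Jensen. PROOF. `zeroCount_H` (DBN/Z0.lean): `zeroCount (H t) (2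
T) K = zeroCount (flow t) (1/2 + T I) (K/2)`. `ZC1Aux.jensen` (DBN/ZC1.lean) with `l = 1`, `b₀ =
log (size T)`, `w₀ = 0`, `w₁ = 1`, `r = K/2`, `ρ = K/2 + 1`, `R = K/2 + 2`: LWX (`x = 1`, `τ = T`)
and UPX (`K + 3`); `b = (A + K + 4) log T`. -/
def T_JNX : Prop := ∀ c₁ c₂ K : ℝ, 0 < c₁ → c₁ ≤ c₂ → 0 < K → ∃ C T₀ : ℝ, 0 < C ∧ 2 ≤ T₀ ∧
  ∀ t T : ℝ, T₀ ≤ T → c₁ ≤ t * Real.log T → t * Real.log T ≤ c₂ →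
    (zeroCount (H t) (2 * T) K : ℝ) ≤ C * Real.log T

/-! ### C. Counting the exceptional zeros -/

/-- ORD (20 min). PROOF. `H t` is entire (`H_eq_flow`, `differentiable_flow`). If it is identically
`0` all `analyticOrderNatAt` are `0` (`analyticOrderAt = ⊤`) and the divisor is `0`. Otherwise the
divisor of `H t` on the closed ball at `z` is the order (`MeromorphicOn.divisor_apply`,
`AnalyticAt.meromorphicOrderAt_eq`), it is nonnegative with finite support, so the `finsum` is at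
least the sum over `F`. -/
def T_ORD : Prop := ∀ (t : ℝ) (s : ℂ) (r : ℝ) (F : Finset ℂ), (∀ z ∈ F, ‖z - s‖ ≤ r) →
  ((∑ z ∈ F, analyticOrderNatAt (H t) z : ℕ) : ℝ) ≤ (zeroCount (H t) s r : ℝ)

/-- CIA (20 min). PROOF. `T' = z.re/2`, `|T'' - T'| ≤ 1/2`: `X/2 ≤ T'' ≤ 4 X`,
`log X / 2 ≤ log T'' ≤ 2 log X`, so `c₁/2 ≤ t log T'' ≤ 2 c₂`; `‖z - 2 T''‖ ≤ 1 + K`, so the first
part of `CrysAt (K+2) 1 t T''` fails. -/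
def T_CIA : Prop := ∀ c₁ c₂ K : ℝ, 0 < c₁ → c₁ ≤ c₂ → 0 < K → ∃ X₀ : ℝ, 2 ≤ X₀ ∧
  ∀ (t X : ℝ) (z : ℂ), X₀ ≤ X → c₁ ≤ t * Real.log X → t * Real.log X ≤ c₂ → H t z = 0 →
    X ≤ z.re / 2 → z.re / 2 ≤ 2 * X → |z.im| ≤ K → (z.im = 0 → deriv (H t) z = 0) →
    Icc (z.re / 2 - 1 / 2) (z.re / 2 + 1 / 2) ⊆ AX (c₁ / 2) (2 * c₂) (K + 2) 1 X

/-- CNF (from CVJ, MAX, CIA, ORD, JNX; 45 min). PROOF. For `z ∈ F` let `j = ⌈z.re⌉ - 1`; then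
`[j/2, (j+1)/2) ⊆ Icc (z.re/2 - 1/2) (z.re/2 + 1/2) ⊆ AX` (CIA), `‖z - j‖ ≤ 1 + K`,
`X/2 ≤ j/2 ≤ 2 X`. `J` = the image of `F`; CVJ and MAX (`c₁/2`, `2 c₂`, `K + 2`, `1`):
`card J ≤ 8 X^(1 - δ₀)`. For `j ∈ J` the sum over the `z` of `F` which belong to `j` is at most
`zeroCount (H t) j (K + 1) ≤ C log (j/2) ≤ C log (2 X)` (ORD; JNX for `T = j/2`, `c₁/2`, `2 c₂`,
`K + 1`). So the sum is at most `8 C X^(1 - δ₀) log (2 X) ≤ X^(1 - δ₀/2)` for `X` large. -/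
def T_CNF : Prop := ∀ c₁ c₂ : ℝ, 0 < c₁ → c₁ ≤ c₂ → AlmostAll (c₁ / 2) (2 * c₂) → FewBad c₁ c₂

end Pool.Agent.DBA
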